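import Pool.Agent.Q36.QD.Ab1

/-! Ideals and classes of points. -/

namespace Q36.QAb

open Polynomial
open scoped nonZeroDivisors
open WeierstrassCurve.Affine (CoordinateRing)
open Pool.Agent.H925R3.DC (crv)
open Q36.QD (E)

variable {A B : ℂ}

/-- the ideal of a point -/
noncomputable def idl : E A B → Ideal (RR A B)
  | .zero => ⊤
  | .some x y _ => CoordinateRing.XYIdeal (crv ℂ A B) x (C y)

theorem idl_zero : idl (0 : E A B) = ⊤ := rfl

theorem idl_some {x y : ℂ} (h : (crv ℂ A B).Nonsingular x y) :
    idl (.some x y h : E A B) = CoordinateRing.XYIdeal (crv ℂ A B) x (C y) := rfl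

theorem idl_maximal {Q : E A B} (h : Q ≠ 0) : (idl Q).IsMaximal := by
  rcases Q with _ | ⟨x, y, hn⟩
  · exact absurd rfl h
  refine Ideal.Quotient.maximal_of_isField _ ?_
  refine (CoordinateRing.quotientXYIdealEquiv (W' := crv ℂ A B) (x := x) (y := C y)
    hn.1).toRingEquiv.toMulEquiv.isField ?_
  exact Field.toIsField ℂ

theorem idl_ne_bot (Q : E A B) : idl Q ≠ ⊥ := by
  rcases Q with _ | ⟨x, y, hn⟩
  · exact top_ne_bot
  · intro h
    have h1 : CoordinateRing.XClass (crv ℂ A B) x ∈ CoordinateRing.XYIdeal (crv ℂ A B) x (C y) :=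
      Ideal.subset_span (by simp)
    rw [idl_some] at h
    rw [h, Ideal.mem_bot] at h1
    exact CoordinateRing.XClass_ne_zero x h1

open Classical in
/-- the unit fractional ideal of a multiset of points -/
theorem exists_unit (s : Multiset (E A B)) :
    ∃ U : (FractionalIdeal (RR A B)⁰ (FractionRing (RR A B)))ˣ,
      (U : FractionalIdeal (RR A B)⁰ (FractionRing (RR A B))) =
        (((s.map idl).prod : Ideal (RR A B)) : FractionalIdeal (RR A B)⁰ (FractionRing (RR A B))) ∧
      ClassGroup.mk (FractionRing (RR A B)) U =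
        Additive.toMul (WeierstrassCurve.Affine.Point.toClass s.sum) := by
  induction s using Multiset.induction_on with
  | empty =>
    refine ⟨1, ?_, ?_⟩
    · rw [Multiset.map_zero, Multiset.prod_zero, Units.val_one, Ideal.one_eq_top]
      exact (FractionalIdeal.coeIdeal_top _).symm
    · rw [map_one, Multiset.sum_zero]
      rfl
  | cons Q s ih =>
    obtain ⟨V, hV1, hV2⟩ := ih
    have h : ∃ U : (FractionalIdeal (RR A B)⁰ (FractionRing (RR A B)))ˣ,
        (U : FractionalIdeal (RR A B)⁰ (FractionRing (RR A B))) = (idl Q : Ideal (RR A B)) ∧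
        ClassGroup.mk (FractionRing (RR A B)) U =
          Additive.toMul (WeierstrassCurve.Affine.Point.toClass Q) := by
      rcases Q with _ | ⟨x, y, hn⟩
      · refine ⟨1, ?_, ?_⟩
        · rw [Units.val_one]
          exact (FractionalIdeal.coeIdeal_top _).symm
        · rw [map_one]
          rfl
      · exact ⟨CoordinateRing.XYIdeal' (W := crv ℂ A B) hn, rfl, rfl⟩
    obtain ⟨U, hU1, hU2⟩ := h
    refine ⟨U * V, ?_, ?_⟩
    · rw [Units.val_mul, hU1, hV1, ← FractionalIdeal.coeIdeal_mul, Multiset.map_cons,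
        Multiset.prod_cons]
    · rw [map_mul, hU2, hV2, Multiset.sum_cons, map_add, toMul_add]

open Classical in
theorem sum_of_principal {s : Multiset (E A B)} {f : RR A B} (hf : f ≠ 0)
    (h : (s.map idl).prod = Ideal.span {f}) : s.sum = 0 := by
  obtain ⟨U, h1, h2⟩ := exists_unit s
  have h3 := (ClassGroup.mk_eq_one_of_coe_ideal h1).2 ⟨f, hf, h⟩
  rw [h2] at h3
  apply WeierstrassCurve.Affine.Point.toClass_injective
  rw [map_zero]
  exact h3

open Classical in
theorem sum_eq_of_prod {s t : Multiset (E A B)} (h : (s.map idl).prod = (t.map idl).prod) :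
    s.sum = t.sum := by
  obtain ⟨U, h1, h2⟩ := exists_unit s
  obtain ⟨V, h3, h4⟩ := exists_unit t
  have h5 : U = V := Units.ext (by rw [h1, h3, h])
  apply WeierstrassCurve.Affine.Point.toClass_injective
  rw [← h5, h2] at h4
  exact h4

end Q36.QAb
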