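import Pool.Agent.Q36.QD.FibB
import Pool.Agent.Helper395.CS.Product

/-! The values of points of `E` over a function field at the places of the field. -/

namespace Q36.QD

open Pool.Agent.H925R3.DC (crv)
open Pool.Agent.Helper395.CS
open scoped WithZero
open WithZero

variable {A B : ℂ} {K : Type} [Field K] [Algebra ℂ K] {n : ℕ}

theorem exists_res (hK : IsCurve K) (v : Point K) {z : K} (hz : v.val z ≤ 1) :
    ∃ c : ℂ, v.val (z - algebraMap ℂ K c) < 1 := by
  by_cases ht : Transcendental ℂ z
  · exact exists_residue hK ht v hz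
  · obtain ⟨c, rfl⟩ := exists_const ht
    exact ⟨c, by rw [sub_self, map_zero]; exact zero_lt_one⟩

theorem const_eq_zero (v : Point K) {c : ℂ} (h : v.val (algebraMap ℂ K c) < 1) : c = 0 := by
  by_contra hc
  rw [v.const c hc] at h
  exact lt_irrefl _ h

theorem res_unique (v : Point K) {z : K} {a b : ℂ} (ha : v.val (z - algebraMap ℂ K a) < 1)
    (hb : v.val (z - algebraMap ℂ K b) < 1) : a = b := by
  have h := Valuation.map_sub_lt v.val ha hb
  have h1 : z - algebraMap ℂ K a - (z - algebraMap ℂ K b) = algebraMap ℂ K (b - a) := by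
    rw [map_sub]; ring
  rw [h1] at h
  exact (sub_eq_zero.1 (const_eq_zero v h)).symm

theorem val_le_of_res {v : Point K} {z : K} {a : ℂ} (ha : v.val (z - algebraMap ℂ K a) < 1) :
    v.val z ≤ 1 := by
  have h : z = z - algebraMap ℂ K a + algebraMap ℂ K a := by ring
  rw [h]
  exact Valuation.map_add_le _ ha.le (v.const_le a)

theorem val_f_le {v : Point K} {x : K} (hX : v.val x ≤ 1) :
    v.val (x ^ 3 + algebraMap ℂ K A * x + algebraMap ℂ K B) ≤ 1 := by
  refine Valuation.map_add_le _ (Valuation.map_add_le _ ?_ ?_) (v.const_le B)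
  · rw [map_pow]; exact pow_le_one₀ zero_le hX
  · rw [map_mul]; exact mul_le_one' (v.const_le A) hX

theorem val_Y_le {v : Point K} {p : EK A B K} (hp : p ≠ 0) (hX : v.val (X p) ≤ 1) :
    v.val (Y p) ≤ 1 := by
  have hf := val_f_le (A := A) (B := B) hX
  rw [← eqn hp, map_pow] at hf
  exact (pow_le_one_iff two_ne_zero).1 hf

theorem val_Y_sq {v : Point K} {p : EK A B K} (hp : p ≠ 0) (hX1 : 1 < v.val (X p)) :
    v.val (Y p) ^ 2 = v.val (X p) ^ 3 := by
  have hXp : ∀ z : K, v.val z ≤ v.val (X p) → v.val z < v.val (X p ^ 3) := by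
    intro z hz
    refine hz.trans_lt ?_
    rw [map_pow]
    calc v.val (X p) = v.val (X p) ^ 1 := (pow_one _).symm
      _ < v.val (X p) ^ 3 := pow_lt_pow_right₀ hX1 (by norm_num)
  rw [← map_pow, eqn hp, add_assoc, Valuation.map_add_eq_of_lt_left, map_pow]
  refine Valuation.map_add_lt _ (hXp _ ?_) (hXp _ ((v.const_le B).trans hX1.le))
  rw [map_mul]
  exact mul_le_of_le_one_left zero_le (v.const_le A)

theorem one_lt_Y {v : Point K} {p : EK A B K} (hp : p ≠ 0) (hX1 : 1 < v.val (X p)) :
    1 < v.val (Y p) := by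
  have h := val_Y_sq hp hX1
  have h1 : 1 < v.val (Y p) ^ 2 := by
    rw [h]; exact one_lt_pow₀ hX1 (by norm_num)
  exact (one_lt_pow_iff_of_nonneg zero_le two_ne_zero).1 h1

theorem X_div_Y_lt {v : Point K} {p : EK A B K} (hp : p ≠ 0) (hX1 : 1 < v.val (X p)) :
    v.val (X p / Y p) < 1 := by
  have hY := one_lt_Y hp hX1
  have h0 : (0 : ℤᵐ⁰) < v.val (Y p) := zero_lt_one.trans hY
  rw [map_div₀, div_lt_one₀ h0]
  have h1 : v.val (X p) ^ 2 < v.val (Y p) ^ 2 := by
    rw [val_Y_sq hp hX1]; exact pow_lt_pow_right₀ hX1 (by norm_num)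
  exact (pow_lt_pow_iff_left₀ zero_le zero_le two_ne_zero).1 h1

/-- `Q` is the value of `p` at `v` -/
def IsRed (v : Point K) (p : EK A B K) (Q : E A B) : Prop :=
  (Q ≠ 0 → p ≠ 0 ∧ v.val (X p - algebraMap ℂ K (X Q)) < 1 ∧
    v.val (Y p - algebraMap ℂ K (Y Q)) < 1) ∧ (Q = 0 → p = 0 ∨ 1 < v.val (X p))

theorem exists_red (hD : 4 * A ^ 3 + 27 * B ^ 2 ≠ 0) (hK : IsCurve K) (v : Point K)
    (p : EK A B K) : ∃ Q : E A B, IsRed v p Q := by
  by_cases hp : p = 0
  · exact ⟨0, fun h => absurd rfl h, fun _ => Or.inl hp⟩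
  by_cases hX : v.val (X p) ≤ 1
  · obtain ⟨a, ha⟩ := exists_res hK v hX
    obtain ⟨b, hb⟩ := exists_res hK v (val_Y_le hp hX)
    have hYb : v.val (Y p + algebraMap ℂ K b) ≤ 1 :=
      Valuation.map_add_le _ (val_Y_le hp hX) (v.const_le b)
    have h1 : v.val (Y p ^ 2 - algebraMap ℂ K b ^ 2) < 1 := by
      have : Y p ^ 2 - algebraMap ℂ K b ^ 2 =
          (Y p + algebraMap ℂ K b) * (Y p - algebraMap ℂ K b) := by ring
      rw [this, map_mul]
      exact (mul_le_of_le_one_left zero_le hYb).trans_lt hb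
    have h2 : v.val ((X p ^ 3 + algebraMap ℂ K A * X p + algebraMap ℂ K B) -
        algebraMap ℂ K (a ^ 3 + A * a + B)) < 1 := by
      have : (X p ^ 3 + algebraMap ℂ K A * X p + algebraMap ℂ K B) -
          algebraMap ℂ K (a ^ 3 + A * a + B) = (X p ^ 2 + X p * algebraMap ℂ K a +
            algebraMap ℂ K a ^ 2 + algebraMap ℂ K A) * (X p - algebraMap ℂ K a) := by
        simp only [map_add, map_mul, map_pow]; ring
      rw [this, map_mul]
      refine (mul_le_of_le_one_left zero_le ?_).trans_lt ha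
      refine Valuation.map_add_le _ (Valuation.map_add_le _ (Valuation.map_add_le _ ?_ ?_) ?_)
        (v.const_le A)
      · rw [map_pow]; exact pow_le_one₀ zero_le hX
      · rw [map_mul]; exact mul_le_one' hX (v.const_le a)
      · rw [map_pow]; exact pow_le_one₀ zero_le (v.const_le a)
    have h3 : b ^ 2 = a ^ 3 + A * a + B := by
      have h4 := Valuation.map_sub_lt v.val h2 h1
      rw [eqn hp] at h4
      have h5 : (X p ^ 3 + algebraMap ℂ K A * X p + algebraMap ℂ K B) -
          algebraMap ℂ K (a ^ 3 + A * a + B) - ((X p ^ 3 + algebraMap ℂ K A * X p +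
            algebraMap ℂ K B) - algebraMap ℂ K b ^ 2) =
          algebraMap ℂ K (b ^ 2 - (a ^ 3 + A * a + B)) := by
        simp only [map_sub, map_pow]; ring
      rw [h5] at h4
      exact sub_eq_zero.1 (const_eq_zero v h4)
    refine ⟨mkPt two_ne_zero hD a b h3, fun _ => ⟨hp, ha, hb⟩, fun h => ?_⟩
    exact absurd h (WeierstrassCurve.Affine.Point.some_ne_zero _)
  · exact ⟨0, fun h => absurd rfl h, fun _ => Or.inr (not_le.1 hX)⟩

theorem IsRed.unique {v : Point K} {p : EK A B K} {Q Q' : E A B} (h : IsRed v p Q)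
    (h' : IsRed v p Q') : Q = Q' := by
  have key : ∀ {Q Q' : E A B}, IsRed v p Q → IsRed v p Q' → Q = 0 → Q' = 0 := by
    intro Q Q' h h' hQ
    by_contra hQ'
    obtain ⟨h1, h2, h3⟩ := h'.1 hQ'
    rcases h.2 hQ with h4 | h4
    · exact h1 h4
    · exact absurd (val_le_of_res h2) (not_le.2 h4)
  by_cases hQ : Q = 0
  · rw [hQ, key h h' hQ]
  · have hQ' : Q' ≠ 0 := fun h0 => hQ (key h' h h0)
    obtain ⟨-, h2, h3⟩ := h.1 hQ
    obtain ⟨-, h4, h5⟩ := h'.1 hQ'
    exact pt_ext hQ hQ' (res_unique v h2 h4) (res_unique v h3 h5)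

section Mem

variable {P : Fin n → EK A B K} {v : Point K} {s : Fin n → E A B}

theorem red_coord (h : ∀ i, IsRed v (P i) (s i)) (i : Fin n × Fin 2) :
    v.val (coord s P i - algebraMap ℂ K (coordAt s i)) < 1 := by
  obtain ⟨i, j⟩ := i
  rw [coord, coordAt]
  by_cases hs : s i = 0
  · have e1 : chart (s i) (P i) = ![X (P i) / Y (P i), 1 / Y (P i)] := by rw [chart, if_pos hs]
    have e2 : chart (s i) (s i) = ![(0 : ℂ), 0] := by
      rw [chart, if_pos hs, hs, X_zero, Y_zero, zero_div, div_zero]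
    change v.val (chart (s i) (P i) j - algebraMap ℂ K (chart (s i) (s i) j)) < 1
    rw [e1, e2]
    rcases (h i).2 hs with h0 | h0
    · rw [h0, X_zero, Y_zero, zero_div, div_zero]
      fin_cases j <;> simp
    · by_cases hp : P i = 0
      · rw [hp, X_zero, Y_zero, zero_div, div_zero]
        fin_cases j <;> simp
      have h1 := X_div_Y_lt hp h0
      have h2 := one_lt_Y hp h0
      fin_cases j
      · simp only [Fin.zero_eta, Matrix.cons_val_zero, map_zero, sub_zero]
        exact h1
      · simp only [Fin.mk_one, Matrix.cons_val_one, Matrix.cons_val_fin_one, map_zero, sub_zero]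
        rw [map_div₀, map_one, div_lt_one₀ (zero_lt_one.trans h2)]
        exact h2
  · obtain ⟨h0, h1, h2⟩ := (h i).1 hs
    have e1 : chart (s i) (P i) = ![X (P i), Y (P i)] := by rw [chart, if_neg hs]
    have e2 : chart (s i) (s i) = ![X (s i), Y (s i)] := by rw [chart, if_neg hs]
    change v.val (chart (s i) (P i) j - algebraMap ℂ K (chart (s i) (s i) j)) < 1
    rw [e1, e2]
    fin_cases j
    · exact h1
    · exact h2

theorem red_aeval (h : ∀ i, IsRed v (P i) (s i)) (F : MvPolynomial (Fin n × Fin 2) ℂ) :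
    v.val (MvPolynomial.aeval (coord s P) F - algebraMap ℂ K (MvPolynomial.eval (coordAt s) F)) < 1 := by
  induction F using MvPolynomial.induction_on with
  | C a =>
    rw [MvPolynomial.aeval_C, MvPolynomial.eval_C, sub_self, map_zero]
    exact zero_lt_one
  | add p q hp hq =>
    rw [map_add, map_add, map_add, add_sub_add_comm]
    exact Valuation.map_add_lt _ hp hq
  | mul_X p i hp =>
    rw [map_mul, map_mul, map_mul, MvPolynomial.aeval_X, MvPolynomial.eval_X]
    have h1 := red_coord h i
    have h2 : MvPolynomial.aeval (coord s P) p * coord s P i -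
        algebraMap ℂ K (MvPolynomial.eval (coordAt s) p) * algebraMap ℂ K (coordAt s i) =
        MvPolynomial.aeval (coord s P) p * (coord s P i - algebraMap ℂ K (coordAt s i)) +
        (MvPolynomial.aeval (coord s P) p - algebraMap ℂ K (MvPolynomial.eval (coordAt s) p)) *
          algebraMap ℂ K (coordAt s i) := by ring
    rw [h2]
    refine Valuation.map_add_lt _ ?_ ?_
    · rw [map_mul]
      exact (mul_le_of_le_one_left zero_le (val_le_of_res hp)).trans_lt h1
    · rw [map_mul]
      exact (mul_le_of_le_one_right zero_le (v.const_le _)).trans_lt hp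

theorem red_mem (h : ∀ i, IsRed v (P i) (s i)) : Mem P s := by
  refine ⟨fun i => ⟨fun hs => ?_, fun hs => ((h i).1 hs).1⟩, fun F hF => ?_⟩
  · rcases (h i).2 hs with h0 | h0
    · exact Or.inl h0
    · by_cases hp : P i = 0
      · exact Or.inl hp
      · right
        intro hY
        have := one_lt_Y hp h0
        rw [hY, map_zero] at this
        exact absurd this (not_lt.2 zero_le)
  · have h1 := red_aeval h F
    rw [hF, zero_sub, Valuation.map_neg] at h1
    exact const_eq_zero v h1

theorem red_value (h : ∀ i, IsRed v (P i) (s i)) {z : K} {a : ℂ} (hz : HasValue P s z a) :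
    v.val (z - algebraMap ℂ K a) < 1 := by
  obtain ⟨F, G, hG, hzG, hF⟩ := hz
  have h1 := red_aeval h F
  have h2 := red_aeval h G
  rw [hF] at h1
  set F' := MvPolynomial.aeval (coord s P) F
  set G' := MvPolynomial.aeval (coord s P) G
  set g := MvPolynomial.eval (coordAt s) G
  have hg : v.val G' = 1 := by
    have h3 : G' = algebraMap ℂ K g - (algebraMap ℂ K g - G') := by ring
    rw [h3, Valuation.map_sub_eq_of_lt_left]
    · exact v.const g hG
    · rw [v.const g hG, Valuation.map_sub_swap]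
      exact h2
  have h4 : v.val ((z - algebraMap ℂ K a) * G') < 1 := by
    have h5 : (z - algebraMap ℂ K a) * G' = (F' - algebraMap ℂ K (a * g)) -
        algebraMap ℂ K a * (G' - algebraMap ℂ K g) := by
      rw [sub_mul, hzG, map_mul]; ring
    rw [h5]
    refine Valuation.map_sub_lt _ h1 ?_
    rw [map_mul]
    exact (mul_le_of_le_one_left zero_le (v.const_le a)).trans_lt h2
  rwa [map_mul, hg, mul_one] at h4

theorem red_unit (h : ∀ i, IsRed v (P i) (s i)) {z : K} (hz : IsUnitAt P s z) : v.ord z = 0 := by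
  obtain ⟨a, ha, hz⟩ := hz
  have h1 := red_value h hz
  have h2 : v.val z = 1 := by
    have h3 : z = algebraMap ℂ K a - (algebraMap ℂ K a - z) := by ring
    rw [h3, Valuation.map_sub_eq_of_lt_left]
    · exact v.const a ha
    · rw [v.const a ha, Valuation.map_sub_swap]
      exact h1
  have hz0 : z ≠ 0 := by
    rintro rfl
    rw [map_zero] at h2
    exact zero_ne_one h2
  exact (v.val_eq_one_iff hz0).1 h2

end Mem

end Q36.QD
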