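import Pool.Agent.Q36.QD.Ab2
import Pool.Agent.Q36.QD.Ab3

/-! The norms of the primes of a curve over `E`. -/

set_option linter.unusedSectionVars false

namespace Q36.QAb

open Polynomial IsDedekindDomain UniqueFactorizationMonoid
open scoped WithZero
open WithZero
open WeierstrassCurve.Affine (CoordinateRing)
open Pool.Agent.H925R3.DC (crv)
open Q36.QD (E EK IsRed)
open Pool.Agent.Helper395.CS

variable {A B : ℂ} {K : Type} [Field K] [Algebra ℂ K]
variable [Algebra ℂ[X] K] [IsScalarTower ℂ ℂ[X] K] [Algebra (RR A B) K]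
  [IsScalarTower ℂ[X] (RR A B) K] [IsDedekindDomain (BB K)] [IsFractionRing (BB K) K]
  [Module.Finite ℂ[X] (BB K)] [Module.IsTorsionFree ℂ[X] (BB K)]
  [Algebra (RR A B) (BB K)] [IsScalarTower (RR A B) (BB K) K] [IsScalarTower ℂ[X] (RR A B) (BB K)]
variable {p : EK A B K} (hX : ∀ f : ℂ[X], algebraMap ℂ[X] K f = aeval (QD.X p) f)
  (hY : algebraMap (RR A B) K (yy A B) = QD.Y p)

theorem XClass_eq (x : ℂ) : CoordinateRing.XClass (crv ℂ A B) x =
    algebraMap ℂ[X] (RR A B) (X - C x) := rfl

theorem YClass_eq (y : ℂ) : CoordinateRing.YClass (crv ℂ A B) (C y) =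
    yy A B - algebraMap ℂ[X] (RR A B) (C y) := by
  rw [CoordinateRing.YClass, map_sub]; rfl

theorem idl_le {Q : E A B} (hQ : Q ≠ 0) {I : Ideal (RR A B)} : idl Q ≤ I ↔
    algebraMap ℂ[X] (RR A B) (X - C (QD.X Q)) ∈ I ∧
      yy A B - algebraMap ℂ[X] (RR A B) (C (QD.Y Q)) ∈ I := by
  rcases Q with _ | ⟨x, y, h⟩
  · exact absurd rfl hQ
  · rw [idl_some, CoordinateRing.XYIdeal, Ideal.span_le, Set.insert_subset_iff,
      Set.singleton_subset_iff, XClass_eq, YClass_eq]
    rfl

include hX in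
theorem map_X_sub (a : ℂ) : algebraMap (RR A B) K (algebraMap ℂ[X] (RR A B) (X - C a)) =
    QD.X p - algebraMap ℂ K a := by
  rw [← IsScalarTower.algebraMap_apply, hX, map_sub, aeval_X, aeval_C]

include hX hY in
theorem map_Y_sub (b : ℂ) : algebraMap (RR A B) K (yy A B - algebraMap ℂ[X] (RR A B) (C b)) =
    QD.Y p - algebraMap ℂ K b := by
  rw [map_sub, ← IsScalarTower.algebraMap_apply, hX, aeval_C, hY]

theorem above_lt (P : HeightOneSpectrum (BB K)) (r : RR A B) :
    algebraMap (RR A B) (BB K) r ∈ P.asIdeal ↔ (above P).val (algebraMap (RR A B) K r) < 1 := by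
  rw [IsScalarTower.algebraMap_apply (RR A B) (BB K) K]
  exact (HeightOneSpectrum.valuation_lt_one_iff_mem (K := K) P _).symm

include hX hY in
theorem under_eq (P : HeightOneSpectrum (BB K)) {Q : E A B} (h : IsRed (above P) p Q) (hp : p ≠ 0) :
    Q ≠ 0 ∧ P.asIdeal.under (RR A B) = idl Q := by
  have hQ : Q ≠ 0 := by
    intro h0
    have h1 := above_X P
    rw [hX, aeval_X] at h1
    rcases h.2 h0 with h2 | h2
    · exact hp h2
    · exact absurd h1 (not_le.2 h2)
  refine ⟨hQ, ((idl_maximal hQ).eq_of_le (P.isPrime.comap _).ne_top ?_).symm⟩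
  rw [idl_le hQ]
  obtain ⟨-, h2, h3⟩ := h.1 hQ
  constructor
  · rw [Ideal.mem_comap, above_lt, map_X_sub hX]
    exact h2
  · rw [Ideal.mem_comap, above_lt, map_Y_sub hX hY]
    exact h3

theorem inertia_one (P : Ideal (BB K)) [P.IsPrime] [Module.Finite (RR A B) (BB K)] {Q : E A B}
    (hQ : Q ≠ 0) (h : P.under (RR A B) = idl Q) [P.LiesOver (idl Q)] :
    P.inertiaDeg (RR A B) = 1 := by
  have hm := idl_maximal hQ
  have hPm : P.IsMaximal := Ideal.IsMaximal.of_liesOver_isMaximal P (idl Q)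
  rw [Ideal.inertiaDeg_eq_of_isMaximal (idl Q) P]
  let := Ideal.Quotient.field (idl Q)
  have hcl : IsAlgClosed (RR A B ⧸ idl Q) := by
    rcases Q with _ | ⟨x, y, hn⟩
    · exact absurd rfl hQ
    · exact IsAlgClosed.of_ringEquiv ℂ _
        (CoordinateRing.quotientXYIdealEquiv (W' := crv ℂ A B) (x := x) (y := C y)
          hn.1).symm.toRingEquiv
  have h := IsAlgClosed.algebraMap_bijective_of_isIntegral (k := RR A B ⧸ idl Q) (K := BB K ⧸ P)
  have e : (RR A B ⧸ idl Q) ≃ₗ[RR A B ⧸ idl Q] (BB K ⧸ P) :=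
    LinearEquiv.ofBijective (Algebra.linearMap (RR A B ⧸ idl Q) (BB K ⧸ P)) h
  rw [← e.finrank_eq]
  exact Module.finrank_self _

include hX hY in
theorem relNorm_prime [IsDedekindDomain (RR A B)] [Module.Finite (RR A B) (BB K)]
    [Module.IsTorsionFree (RR A B) (BB K)] (P : HeightOneSpectrum (BB K)) {Q : E A B}
    (h : IsRed (above P) p Q) (hp : p ≠ 0) : Ideal.relNorm (RR A B) P.asIdeal = idl Q := by
  obtain ⟨hQ, hu⟩ := under_eq hX hY P h hp
  have hm := idl_maximal hQ
  have : P.asIdeal.LiesOver (idl Q) := ⟨hu.symm⟩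
  have hPm : P.asIdeal.IsMaximal := P.isMaximal
  have hPp : P.asIdeal.IsPrime := P.isPrime
  have hc : CharZero (FractionRing (RR A B)) := by
    have h1 : CharZero (RR A B) := by
      have := FaithfulSMul.algebraMap_injective ℂ (RR A B)
      exact charZero_of_injective_algebraMap this
    exact charZero_of_injective_algebraMap (IsFractionRing.injective (RR A B) (FractionRing (RR A B)))
  rw [Ideal.relNorm_eq_pow_of_isMaximal P.asIdeal (idl Q), inertia_one P.asIdeal hQ hu, pow_one]

open Classical in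
/-- the value of `p` at a prime ideal -/
noncomputable def pt (red : Point K → E A B) (P : Ideal (BB K)) : E A B :=
  if h : P.IsPrime ∧ P ≠ ⊥ then red (above ⟨P, h.1, h.2⟩) else 0

include hX hY in
theorem relNorm_eq [IsDedekindDomain (RR A B)] [Module.Finite (RR A B) (BB K)]
    [Module.IsTorsionFree (RR A B) (BB K)] {red : Point K → E A B}
    (hred : ∀ v, IsRed v p (red v)) (hp : p ≠ 0) (I : Ideal (BB K)) (hI : I ≠ ⊥) :
    (((normalizedFactors I).map (pt red)).map idl).prod = Ideal.relNorm (RR A B) I := by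
  conv_rhs => rw [← Ideal.prod_normalizedFactors_eq_self hI]
  rw [map_multiset_prod, Multiset.map_map]
  congr 1
  refine Multiset.map_congr rfl fun P hP => ?_
  have h0 : P ≠ ⊥ := ne_zero_of_mem_normalizedFactors hP
  rw [Ideal.mem_normalizedFactors_iff hI] at hP
  rw [Function.comp, pt, dif_pos ⟨hP.1, h0⟩]
  exact (relNorm_prime hX hY ⟨P, hP.1, h0⟩ (hred _) hp).symm

open Classical in
include hX hY in
theorem sum_principal [IsDedekindDomain (RR A B)] [Module.Finite (RR A B) (BB K)]
    [Module.IsTorsionFree (RR A B) (BB K)] {red : Point K → E A B}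
    (hred : ∀ v, IsRed v p (red v)) (hp : p ≠ 0) (f : BB K) (hf : f ≠ 0) :
    ((normalizedFactors (Ideal.span {f})).map (pt red)).sum = 0 := by
  have h1 := relNorm_eq hX hY hred hp (Ideal.span {f}) (by simpa using hf)
  rw [Ideal.relNorm_singleton] at h1
  refine sum_of_principal ?_ h1
  rwa [Ne, Algebra.intNorm_eq_zero]

open Classical in
include hX hY in
theorem sum_map_idl [IsDedekindDomain (RR A B)] [Module.Finite (RR A B) (BB K)]
    [Module.IsTorsionFree (RR A B) (BB K)] {red : Point K → E A B}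
    (hred : ∀ v, IsRed v p (red v)) (hp : p ≠ 0) (Q : E A B) :
    ((normalizedFactors ((idl Q).map (algebraMap (RR A B) (BB K)))).map (pt red)).sum =
      Module.finrank (RR A B) (BB K) • Q := by
  have hinj : Function.Injective (algebraMap (RR A B) (BB K)) := FaithfulSMul.algebraMap_injective _ _
  have h1 := relNorm_eq hX hY hred hp ((idl Q).map (algebraMap (RR A B) (BB K)))
    ((Ideal.map_eq_bot_iff_of_injective hinj).not.2 (idl_ne_bot Q))
  rw [Ideal.relNorm_algebraMap] at h1
  rw [sum_eq_of_prod (t := Multiset.replicate (Module.finrank (RR A B) (BB K)) Q)]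
  · rw [Multiset.sum_replicate]
  · rw [h1, Multiset.map_replicate, Multiset.prod_replicate]

end Q36.QAb
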