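import Pool.Agent.Q36.QD.Ab4

/-! Abel's theorem for maps of curves to `E`. -/

set_option linter.unusedSectionVars false

namespace Q36.QAb

open Polynomial IsDedekindDomain UniqueFactorizationMonoid
open scoped WithZero
open WithZero
open WeierstrassCurve.Affine (CoordinateRing)
open Pool.Agent.H925R3.DC (crv)
open Q36.QD (E EK IsRed)
open Pool.Agent.Helper395.CS

variable {A B : ℂ} {K : Type} [Field K] [Algebra ℂ K]
variable [Algebra ℂ[X] K] [IsScalarTower ℂ ℂ[X] K] [IsDedekindDomain (BB K)]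
  [IsFractionRing (BB K) K]

open Classical in
theorem le_count_iff {P : Ideal (BB K)} (hP : P.IsPrime) (hP0 : P ≠ ⊥) {I : Ideal (BB K)}
    (hI : I ≠ ⊥) (m : ℕ) : m ≤ (normalizedFactors I).count P ↔ I ≤ P ^ m := by
  have hprime : Prime P := Ideal.prime_of_isPrime hP0 hP
  rw [← Ideal.dvd_iff_le, pow_dvd_iff_le_emultiplicity,
    emultiplicity_eq_count_normalizedFactors hprime.irreducible hI, normalize_eq,
    Nat.cast_le]

open Classical in
/-- the order of an ideal at a point -/
noncomputable def ordI (I : Ideal (BB K)) (v : Point K) : ℤ :=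
  if h : v.val (algebraMap ℂ[X] K X) ≤ 1 then
    ((normalizedFactors I).count (under v h).asIdeal : ℤ) else 0

theorem ordI_of_not {I : Ideal (BB K)} {v : Point K} (h : ¬ v.val (algebraMap ℂ[X] K X) ≤ 1) :
    ordI I v = 0 := by rw [ordI, dif_neg h]

theorem ordI_nonneg {I : Ideal (BB K)} {v : Point K} : 0 ≤ ordI I v := by
  rw [ordI]
  split_ifs
  · exact Int.natCast_nonneg _
  · exact le_rfl

theorem ordI_unique {I : Ideal (BB K)} (hI : I ≠ ⊥) {v : Point K}
    (h : v.val (algebraMap ℂ[X] K X) ≤ 1) {a : ℤ} (ha : 0 ≤ a)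
    (hc : ∀ m : ℕ, I ≤ (under v h).asIdeal ^ m ↔ (m : ℤ) ≤ a) : ordI I v = a := by
  classical
  have h1 : ∀ m : ℕ, (m : ℤ) ≤ ordI I v ↔ (m : ℤ) ≤ a := by
    intro m
    rw [← hc, ordI, dif_pos h, Nat.cast_le, le_count_iff (under v h).isPrime (under v h).ne_bot hI]
  obtain ⟨b, rfl⟩ := Int.eq_ofNat_of_zero_le ha
  obtain ⟨c, hc'⟩ := Int.eq_ofNat_of_zero_le (ordI_nonneg (I := I) (v := v))
  rw [hc'] at h1 ⊢
  exact le_antisymm ((h1 c).1 le_rfl) ((h1 b).2 le_rfl)

theorem mem_pow_iff (v : Point K) (h : v.val (algebraMap ℂ[X] K X) ≤ 1) (f : BB K) (m : ℕ) :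
    f ∈ (under v h).asIdeal ^ m ↔ v.val (f : K) ≤ exp (-(m : ℤ)) := by
  rw [← HeightOneSpectrum.intValuation_le_pow_iff_mem,
    ← HeightOneSpectrum.valuation_of_algebraMap (K := K), under_valuation v h]
  rfl

theorem le_exp_iff {v : Point K} {z : K} (hz : z ≠ 0) (m : ℕ) :
    v.val z ≤ exp (-(m : ℤ)) ↔ (m : ℤ) ≤ v.ord z := by
  rw [v.val_eq_exp hz, exp_le_exp]
  omega

theorem ordI_span {v : Point K} (h : v.val (algebraMap ℂ[X] K X) ≤ 1) {f : BB K} (hf : f ≠ 0) :
    ordI (Ideal.span {f}) v = v.ord (f : K) := by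
  have hf' : (f : K) ≠ 0 := fun h0 => hf (Subtype.ext h0)
  refine ordI_unique (by simpa using hf) h (v.ord_nonneg_of_val_le (int_mem v h f)) fun m => ?_
  rw [Ideal.span_singleton_le_iff_mem, mem_pow_iff, le_exp_iff hf']

open Classical in
theorem sum_eq_finsum (red : Point K → E A B) {I : Ideal (BB K)} (hI : I ≠ ⊥) :
    ((normalizedFactors I).map (pt red)).sum = ∑ᶠ v, ordI I v • red v ∧
      {v : Point K | ordI I v ≠ 0}.Finite := by
  have hmem : ∀ P ∈ (normalizedFactors I).toFinset, P.IsPrime ∧ P ≠ ⊥ := by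
    intro P hP
    rw [Multiset.mem_toFinset] at hP
    exact ⟨((Ideal.mem_normalizedFactors_iff hI).1 hP).1, ne_zero_of_mem_normalizedFactors hP⟩
  let f : {P // P ∈ (normalizedFactors I).toFinset} → Point K := fun P =>
    above ⟨P.1, (hmem P.1 P.2).1, (hmem P.1 P.2).2⟩
  have hf : Function.Injective f := by
    intro P Q hPQ
    have h1 := congrArg Point.val hPQ
    have h2 := HeightOneSpectrum.eq_of_valuation_isEquiv_valuation (K := K)
      (p := ⟨P.1, (hmem P.1 P.2).1, (hmem P.1 P.2).2⟩)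
      (q := ⟨Q.1, (hmem Q.1 Q.2).1, (hmem Q.1 Q.2).2⟩) (by
        change Valuation.IsEquiv (f P).val (f Q).val
        rw [h1])
    exact Subtype.ext (congrArg HeightOneSpectrum.asIdeal h2)
  have hunder : ∀ P : HeightOneSpectrum (BB K), under (above P) (above_X P) = P := by
    intro P
    refine HeightOneSpectrum.eq_of_valuation_isEquiv_valuation (K := K) ?_
    rw [under_valuation]
    exact Valuation.IsEquiv.refl
  have hord : ∀ P : {P // P ∈ (normalizedFactors I).toFinset},
      ordI I (f P) = (normalizedFactors I).count P.1 := by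
    intro P
    rw [ordI, dif_pos (above_X _), hunder]
  have hsub : ∀ v : Point K, ordI I v ≠ 0 → v ∈ Finset.univ.map ⟨f, hf⟩ := by
    intro v hv
    by_cases h : v.val (algebraMap ℂ[X] K X) ≤ 1
    · rw [ordI, dif_pos h] at hv
      have h1 : (under v h).asIdeal ∈ (normalizedFactors I).toFinset := by
        rw [Multiset.mem_toFinset, ← Multiset.count_ne_zero]
        exact_mod_cast hv
      rw [Finset.mem_map]
      exact ⟨⟨_, h1⟩, Finset.mem_univ _, above_under v h⟩
    · exact absurd (ordI_of_not h) hv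
  constructor
  · rw [finsum_eq_sum_of_support_subset (s := Finset.univ.map ⟨f, hf⟩), Finset.sum_map,
      Finset.sum_multiset_map_count, Finset.univ_eq_attach,
      ← Finset.sum_attach (normalizedFactors I).toFinset]
    · refine Finset.sum_congr rfl fun P _ => ?_
      change _ = ordI I (f P) • red (f P)
      rw [hord, pt, dif_pos ⟨(hmem P.1 P.2).1, (hmem P.1 P.2).2⟩, natCast_zsmul]
    · intro v hv
      rw [Finset.mem_coe]
      apply hsub
      intro h0
      rw [Function.mem_support, h0, zero_zsmul] at hv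
      exact hv rfl
  · exact (Finset.univ.map ⟨f, hf⟩).finite_toSet.subset fun v hv => hsub v hv

section Main

variable [Algebra (RR A B) K] [IsScalarTower ℂ[X] (RR A B) K]
  [Module.Finite ℂ[X] (BB K)] [Module.IsTorsionFree ℂ[X] (BB K)]
  [Algebra (RR A B) (BB K)] [IsScalarTower (RR A B) (BB K) K] [IsScalarTower ℂ[X] (RR A B) (BB K)]
  [IsDedekindDomain (RR A B)] [Module.Finite (RR A B) (BB K)]
  [Module.IsTorsionFree (RR A B) (BB K)]
variable {p : EK A B K} (hX : ∀ f : ℂ[X], algebraMap ℂ[X] K f = aeval (QD.X p) f)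
  (hY : algebraMap (RR A B) K (yy A B) = QD.Y p) {red : Point K → E A B}
  (hred : ∀ v, IsRed v p (red v)) (hp : p ≠ 0)

theorem red_zero {v : Point K} {Q : E A B} (h : IsRed v p Q) (hv : ¬ v.val (QD.X p) ≤ 1) : Q = 0 := by
  by_contra hQ
  exact hv (QD.val_le_of_res (h.1 hQ).2.1)

include hX in
theorem algX : algebraMap ℂ[X] K X = QD.X p := by rw [hX, aeval_X]

include hX hY hred hp in
theorem abel_aux {F : K} (hF : F ≠ 0) : ∑ᶠ v : Point K, v.ord F • red v = 0 := by
  obtain ⟨a, b, hb, rfl⟩ := IsFractionRing.div_surjective (A := BB K) F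
  have hb0 : b ≠ 0 := nonZeroDivisors.ne_zero hb
  have ha0 : a ≠ 0 := by
    rintro rfl
    exact hF (by rw [map_zero, zero_div])
  have hIa : Ideal.span {a} ≠ ⊥ := by simpa using ha0
  have hIb : Ideal.span {b} ≠ ⊥ := by simpa using hb0
  obtain ⟨h1, h1'⟩ := sum_eq_finsum red hIa
  obtain ⟨h2, h2'⟩ := sum_eq_finsum red hIb
  have h3 : ∀ v : Point K, v.ord (algebraMap (BB K) K a / algebraMap (BB K) K b) • red v =
      ordI (Ideal.span {a}) v • red v - ordI (Ideal.span {b}) v • red v := by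
    intro v
    by_cases h : v.val (algebraMap ℂ[X] K X) ≤ 1
    · rw [ordI_span h ha0, ordI_span h hb0, sub_eq_add_neg, ← sub_zsmul]
      congr 1
      have ha' : algebraMap (BB K) K a ≠ 0 := fun h0 => ha0 (Subtype.ext h0)
      have hb' : algebraMap (BB K) K b ≠ 0 := fun h0 => hb0 (Subtype.ext h0)
      rw [div_eq_mul_inv, v.ord_mul ha' (inv_ne_zero hb'), v.ord_inv]
      rfl
    · rw [ordI_of_not h, ordI_of_not h, zero_zsmul, sub_zero]
      rw [algX hX] at h
      rw [red_zero (hred v) h, zsmul_zero]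
  rw [finsum_congr h3, finsum_sub_distrib, ← h1, ← h2, sum_principal hX hY hred hp a ha0,
    sum_principal hX hY hred hp b hb0, sub_zero]
  · refine h1'.subset fun v hv => ?_
    rw [Function.mem_support] at hv
    intro h0
    rw [h0, zero_zsmul] at hv
    exact hv rfl
  · refine h2'.subset fun v hv => ?_
    rw [Function.mem_support] at hv
    intro h0
    rw [h0, zero_zsmul] at hv
    exact hv rfl

include hX hY in
theorem map_idl_le {v : Point K} (h : v.val (algebraMap ℂ[X] K X) ≤ 1) {Q : E A B} (hQ : Q ≠ 0)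
    (m : ℕ) : (idl Q).map (algebraMap (RR A B) (BB K)) ≤ (under v h).asIdeal ^ m ↔
      v.val (QD.X p - algebraMap ℂ K (QD.X Q)) ≤ exp (-(m : ℤ)) ∧
        v.val (QD.Y p - algebraMap ℂ K (QD.Y Q)) ≤ exp (-(m : ℤ)) := by
  rw [Ideal.map_le_iff_le_comap, idl_le hQ, Ideal.mem_comap, Ideal.mem_comap, mem_pow_iff,
    mem_pow_iff]
  have e : ∀ r : RR A B, ((algebraMap (RR A B) (BB K) r : BB K) : K) = algebraMap (RR A B) K r :=
    fun r => (IsScalarTower.algebraMap_apply (RR A B) (BB K) K r).symm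
  rw [e, e, map_X_sub hX, map_Y_sub hX hY]

end Main

end Q36.QAb
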