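import Pool.Agent.Q36.QD.Ab5

/-! Abel's theorem for maps of curves to `E`. -/

set_option linter.unusedSectionVars false

namespace Q36.QD

open Pool.Agent.H925R3.DC (crv)
open Pool.Agent.Helper395.CS
open scoped WithZero
open WithZero

variable {A B : ℂ} {K : Type} [Field K] [Algebra ℂ K] {n : ℕ}

theorem red_mult {P : Fin n → EK A B K} {v : Point K} {s : Fin n → E A B}
    (h : ∀ i, IsRed v (P i) (s i)) {t z : K} (hm : Mult P s t z) : v.val z ≤ v.val t := by
  obtain ⟨w, b, hw, rfl⟩ := hm
  rw [map_mul]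
  exact mul_le_of_le_one_right zero_le (val_le_of_res (red_value h hw))

theorem param_val (hD : 4 * A ^ 3 + 27 * B ^ 2 ≠ 0) {v : Point K} {p : EK A B K} {Q : E A B}
    (hQ : Q ≠ 0) (h : IsRed v p Q) (e : ℤᵐ⁰) :
    (v.val (X p - algebraMap ℂ K (X Q)) ≤ e ∧ v.val (Y p - algebraMap ℂ K (Y Q)) ≤ e) ↔
      v.val (param Q p) ≤ e := by
  let P : Fin 1 → EK A B K := fun _ => p
  let s : Fin 1 → E A B := fun _ => Q
  have hs : ∀ i, IsRed v (P i) (s i) := fun _ => h
  have hm := red_mem hs
  have hp : p ≠ 0 := (h.1 hQ).1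
  have h1 := red_mult hs (mult_coord hD hm 0 hp 0)
  have h2 := red_mult hs (mult_coord hD hm 0 hp 1)
  have e1 : coord s P (0, 0) - algebraMap ℂ K (coordAt s (0, 0)) =
      X p - algebraMap ℂ K (X Q) := by
    change chart Q p 0 - algebraMap ℂ K (chart Q Q 0) = _
    rw [chart, if_neg hQ, chart, if_neg hQ]
    rfl
  have e2 : coord s P (0, 1) - algebraMap ℂ K (coordAt s (0, 1)) =
      Y p - algebraMap ℂ K (Y Q) := by
    change chart Q p 1 - algebraMap ℂ K (chart Q Q 1) = _
    rw [chart, if_neg hQ, chart, if_neg hQ]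
    rfl
  rw [e1] at h1
  rw [e2] at h2
  change v.val _ ≤ v.val (param Q p) at h1
  change v.val _ ≤ v.val (param Q p) at h2
  constructor
  · rintro ⟨h3, h4⟩
    by_cases hY : Y Q = 0
    · have : param Q p = Y p := by rw [param, if_neg hQ, if_pos hY]
      rw [this]
      rw [hY, map_zero, sub_zero] at h4
      exact h4
    · have : param Q p = X p - algebraMap ℂ K (X Q) := by rw [param, if_neg hQ, if_neg hY]
      rw [this]
      exact h3
  · intro h3
    exact ⟨h1.trans h3, h2.trans h3⟩

theorem param_ne {p : EK A B K} (h : Transcendental ℂ (X p)) (Q : E A B) : param Q p ≠ 0 := by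
  have hY := Y_ne_of_trans h
  have hX := ne_zero_of_trans h
  rw [param]
  split_ifs
  · exact div_ne_zero hX hY
  · exact hY
  · intro h0
    apply h
    rw [sub_eq_zero.1 h0]
    exact isAlgebraic_algebraMap _

end Q36.QD

namespace Q36.QAb

open Polynomial IsDedekindDomain UniqueFactorizationMonoid
open scoped WithZero
open WithZero
open WeierstrassCurve.Affine (CoordinateRing)
open Pool.Agent.H925R3.DC (crv)
open Q36.QD (E EK IsRed param)
open Pool.Agent.Helper395.CS

variable {A B : ℂ} {K : Type} [Field K] [Algebra ℂ K]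

section Main

variable [Algebra ℂ[X] K] [IsScalarTower ℂ ℂ[X] K] [IsDedekindDomain (BB K)]
  [IsFractionRing (BB K) K]
variable [Algebra (RR A B) K] [IsScalarTower ℂ[X] (RR A B) K]
  [Module.Finite ℂ[X] (BB K)] [Module.IsTorsionFree ℂ[X] (BB K)]
  [Algebra (RR A B) (BB K)] [IsScalarTower (RR A B) (BB K) K] [IsScalarTower ℂ[X] (RR A B) (BB K)]
  [IsDedekindDomain (RR A B)] [Module.Finite (RR A B) (BB K)]
  [Module.IsTorsionFree (RR A B) (BB K)]
variable {p : EK A B K} (hX : ∀ f : ℂ[X], algebraMap ℂ[X] K f = aeval (QD.X p) f)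
  (hY : algebraMap (RR A B) K (yy A B) = QD.Y p) {red : Point K → E A B}
  (hred : ∀ v, IsRed v p (red v)) (hp : Transcendental ℂ (QD.X p))

open Classical in
include hX hY hred hp in
theorem ordI_idl (hD : 4 * A ^ 3 + 27 * B ^ 2 ≠ 0) {Q : E A B} (hQ : Q ≠ 0) (v : Point K) :
    ordI ((idl Q).map (algebraMap (RR A B) (BB K))) v =
      if red v = Q then v.ord (param Q p) else 0 := by
  have hinj : Function.Injective (algebraMap (RR A B) (BB K)) := FaithfulSMul.algebraMap_injective _ _
  have hI : (idl Q).map (algebraMap (RR A B) (BB K)) ≠ ⊥ :=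
    (Ideal.map_eq_bot_iff_of_injective hinj).not.2 (idl_ne_bot Q)
  by_cases h : v.val (algebraMap ℂ[X] K X) ≤ 1
  · split_ifs with hQv
    · have hv : IsRed v p Q := hQv ▸ hred v
      have h0 := QD.param_ne hp Q
      obtain ⟨h1, h2, h3⟩ := hv.1 hQ
      refine ordI_unique hI h ?_ fun m => ?_
      · apply v.ord_nonneg_of_val_le
        exact (QD.param_val hD hQ hv 1).1 ⟨h2.le, h3.le⟩
      · rw [map_idl_le hX hY h hQ, QD.param_val hD hQ hv, le_exp_iff h0]
    · refine ordI_unique hI h le_rfl fun m => ?_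
      rw [map_idl_le hX hY h hQ]
      constructor
      · rintro ⟨h1, h2⟩
        by_contra hm
        apply hQv
        have h3 : exp (-(m : ℤ)) < 1 := by
          rw [← exp_zero, exp_lt_exp]; omega
        refine (hred v).unique ⟨fun _ => ⟨QD.pt_ne_of_trans hp, h1.trans_lt h3, h2.trans_lt h3⟩,
          fun h0 => absurd h0 hQ⟩
      · intro hm
        have hm0 : m = 0 := by omega
        subst hm0
        have hp0 := QD.pt_ne_of_trans hp
        rw [algX hX] at h
        have h4 := QD.val_Y_le hp0 h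
        rw [Nat.cast_zero, neg_zero, exp_zero]
        exact ⟨Valuation.map_sub_le (v := v.val) h (v.const_le _),
          Valuation.map_sub_le (v := v.val) h4 (v.const_le _)⟩
  · rw [ordI_of_not h]
    rw [algX hX] at h
    rw [red_zero (hred v) h, if_neg (Ne.symm hQ)]

open Classical in
include hX hY hred hp in
theorem pull_aux (hD : 4 * A ^ 3 + 27 * B ^ 2 ≠ 0) (Q : E A B) :
    ∑ᶠ v : Point K, (if red v = Q then v.ord (param Q p) else 0) • red v =
      Module.finrank (RR A B) (BB K) • Q := by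
  by_cases hQ : Q = 0
  · rw [hQ, nsmul_zero]
    rw [finsum_congr (g := fun _ => 0), finsum_zero]
    intro v
    split_ifs with h
    · rw [h, zsmul_zero]
    · rw [zero_zsmul]
  · have hinj : Function.Injective (algebraMap (RR A B) (BB K)) :=
      FaithfulSMul.algebraMap_injective _ _
    have hI : (idl Q).map (algebraMap (RR A B) (BB K)) ≠ ⊥ :=
      (Ideal.map_eq_bot_iff_of_injective hinj).not.2 (idl_ne_bot Q)
    have h1 := sum_map_idl hX hY hred (QD.pt_ne_of_trans hp) Q
    rw [(sum_eq_finsum red hI).1] at h1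
    rw [← h1]
    exact finsum_congr fun v => by rw [ordI_idl hX hY hred hp hD hQ]

end Main

open Classical in
theorem abel_main (hD : 4 * A ^ 3 + 27 * B ^ 2 ≠ 0) (hK : IsCurve K) {p : EK A B K}
    (hp : Transcendental ℂ (QD.X p)) {red : Point K → E A B} (hred : ∀ v, IsRed v p (red v)) :
    (∀ F : K, F ≠ 0 → ∑ᶠ v : Point K, v.ord F • red v = 0) ∧ ∃ δ : ℕ, 0 < δ ∧ ∀ Q : E A B,
      ∑ᶠ v : Point K, (if red v = Q then v.ord (param Q p) else 0) • red v = δ • Q := by
  have hp0 := QD.pt_ne_of_trans hp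
  refine setup hK hp _ ?_
  intro i1 i2 hX hae i3 i4 i5 i6 i7 i8 i9
  have hinj0 : Function.Injective (algebraMap ℂ[X] K) := by
    have : (algebraMap ℂ[X] K : ℂ[X] → K) = aeval (QD.X p) := funext hae
    rw [this]
    exact transcendental_iff_injective.1 hp
  let φ : RR A B →+* K := AdjoinRoot.lift (algebraMap ℂ[X] K) (QD.Y p) (by
    simp only [WeierstrassCurve.Affine.polynomial, crv]
    simp only [eval₂_sub, eval₂_add, eval₂_mul, eval₂_pow, eval₂_X, eval₂_C, hae]
    simp only [map_zero, zero_mul, add_zero, map_add, map_mul, map_pow, aeval_X, aeval_C]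
    rw [QD.eqn hp0]
    ring)
  have hφ1 : ∀ f : ℂ[X], φ (algebraMap ℂ[X] (RR A B) f) = algebraMap ℂ[X] K f := fun f =>
    AdjoinRoot.lift_of _
  have hφ2 : φ (yy A B) = QD.Y p := AdjoinRoot.lift_root _
  let j1 : Algebra (RR A B) K := φ.toAlgebra
  have j2 : IsScalarTower ℂ[X] (RR A B) K := IsScalarTower.of_algebraMap_eq fun f => (hφ1 f).symm
  have hinj : Function.Injective φ := by
    rw [RingHom.injective_iff_ker_eq_bot]
    have hprime : (RingHom.ker φ).IsPrime := RingHom.ker_isPrime φ
    apply Ideal.eq_bot_of_comap_eq_bot (R := ℂ[X])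
    rw [eq_bot_iff]
    intro f hf
    rw [Ideal.mem_comap, RingHom.mem_ker, hφ1] at hf
    rw [Ideal.mem_bot]
    exact hinj0 (by rw [hf, map_zero])
  let ψ : RR A B →ₐ[ℂ[X]] BB K := (IsScalarTower.toAlgHom ℂ[X] (RR A B) K).codRestrict (BB K)
    (fun r => (Algebra.IsIntegral.isIntegral (R := ℂ[X]) r).map
      (IsScalarTower.toAlgHom ℂ[X] (RR A B) K))
  let j3 : Algebra (RR A B) (BB K) := ψ.toRingHom.toAlgebra
  have j4 : IsScalarTower (RR A B) (BB K) K := IsScalarTower.of_algebraMap_eq fun r => rfl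
  have j5 : IsScalarTower ℂ[X] (RR A B) (BB K) :=
    IsScalarTower.of_algebraMap_eq fun f => (ψ.commutes f).symm
  have j6 : IsDedekindDomain (RR A B) := dedekind hD
  have j7 : Module.Finite (RR A B) (BB K) := Module.Finite.of_restrictScalars_finite ℂ[X] _ _
  have j8 : FaithfulSMul (RR A B) (BB K) := by
    rw [faithfulSMul_iff_algebraMap_injective]
    intro a b hab
    exact hinj (congrArg Subtype.val hab)
  have j9 : Module.IsTorsionFree (RR A B) (BB K) := inferInstance
  refine ⟨fun F hF => abel_aux hae hφ2 hred hp0 hF, Module.finrank (RR A B) (BB K), ?_, fun Q => ?_⟩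
  · exact Module.finrank_pos
  · exact pull_aux hae hφ2 hred hp hD Q

end Q36.QAb
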