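import Pool.Agent.Q36.QD.Ab6

/-! Restricted quasi-diagonals: the line bundle is commensurable with a multiple of `𝒪(e)`. -/

namespace Q36.QD

open Pool.Agent.H925R3.DC (crv)
open Pool.Agent.Helper395.CS
open scoped WithZero
open WithZero

variable {A B : ℂ} {K : Type} [Field K] [Algebra ℂ K] {n : ℕ}

theorem ord_zpow (v : Point K) {a : K} (m : ℤ) : v.ord (a ^ m) = m * v.ord a := by
  obtain ⟨k, rfl | rfl⟩ := Int.eq_nat_or_neg m
  · rw [zpow_natCast, v.ord_pow]
  · rw [zpow_neg, zpow_natCast, v.ord_inv, v.ord_pow]; ring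

theorem trans_of_not_const {p : EK A B K} (h : ¬ IsConst p) : Transcendental ℂ (X p) := by
  by_contra hX
  apply h
  have hp : p ≠ 0 := by
    rintro rfl
    exact h ⟨⟨0, by rw [X_zero, map_zero]⟩, ⟨0, by rw [Y_zero, map_zero]⟩⟩
  refine ⟨exists_const hX, exists_const ?_⟩
  intro hY
  apply hY
  obtain ⟨c, hc⟩ := exists_const hX
  have h1 := eqn hp
  rw [hc] at h1
  have h2 : IsAlgebraic ℂ (Y p ^ 2) := by
    rw [h1, ← map_pow, ← map_mul, ← map_add, ← map_add]
    exact isAlgebraic_algebraMap _
  exact h2.of_pow two_pos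

theorem exists_not_const {P : Fin n → EK A B K} (hP : IsCurveIn P) : ∃ i, ¬ IsConst (P i) := by
  by_contra hcon
  push Not at hcon
  have h1 : IntermediateField.adjoin ℂ (Set.range (fun i => X (P i)) ∪
      Set.range (fun i => Y (P i))) = ⊥ := by
    rw [IntermediateField.adjoin_eq_bot_iff]
    rintro z (⟨i, rfl⟩ | ⟨i, rfl⟩)
    · obtain ⟨c, hc⟩ := (hcon i).1
      exact IntermediateField.mem_bot.2 ⟨c, hc.symm⟩
    · obtain ⟨c, hc⟩ := (hcon i).2
      exact IntermediateField.mem_bot.2 ⟨c, hc.symm⟩
  rw [hP.gen] at h1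
  have h2 : Algebra.IsAlgebraic ℂ K := by
    constructor
    intro x
    have h3 : x ∈ (⊤ : IntermediateField ℂ K) := trivial
    rw [h1, IntermediateField.mem_bot] at h3
    obtain ⟨c, rfl⟩ := h3
    exact isAlgebraic_algebraMap c
  have h3 : Algebra.trdeg ℂ K = 0 := by
    exact trdeg_eq_zero
  rw [hP.curve.trdeg] at h3
  exact one_ne_zero h3

theorem localEq_const {D : E A B →₀ ℤ} {Q : E A B} {p : EK A B K} (h : IsConst p) :
    localEq D Q p = 1 := by rw [localEq, if_pos h]

theorem localEq_not {D : E A B →₀ ℤ} {Q : E A B} {p : EK A B K} (h : ¬ IsConst p) :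
    localEq D Q p = param Q p ^ D Q := by rw [localEq, if_neg h]

theorem localEq_ne {D : E A B →₀ ℤ} {Q : E A B} {p : EK A B K} : localEq D Q p ≠ 0 := by
  by_cases h : IsConst p
  · rw [localEq_const h]; exact one_ne_zero
  · rw [localEq_not h]; exact zpow_ne_zero _ (param_ne (trans_of_not_const h) Q)

theorem ord_localEq (D : E A B →₀ ℤ) (Q : E A B) {p : EK A B K} (h : ¬ IsConst p) (v : Point K) :
    v.ord (localEq D Q p) = D Q * v.ord (param Q p) := by
  rw [localEq_not h, ord_zpow]

section

variable {p : EK A B K} {red : Point K → E A B}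

theorem finite_m (hK : IsCurve K) (D : E A B →₀ ℤ) :
    {v : Point K | v.ord (localEq D (red v) p) ≠ 0}.Finite := by
  by_cases h : IsConst p
  · convert Set.finite_empty
    ext v
    simp [localEq_const h, v.ord_one]
  · refine (Set.Finite.biUnion D.support.finite_toSet (t := fun Q => {v : Point K |
      v.ord (param Q p) ≠ 0}) fun Q _ => finite_ord hK _).subset ?_
    intro v hv
    rw [Set.mem_ofPred_eq, ord_localEq D _ h] at hv
    rw [Set.mem_iUnion₂]
    refine ⟨red v, ?_, ?_⟩
    · rw [Finset.mem_coe, Finsupp.mem_support_iff]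
      exact left_ne_zero_of_mul hv
    · exact right_ne_zero_of_mul hv

open Classical in
/-- the push-forward of the pull-back of `D` -/
theorem pull_D (hK : IsCurve K) (D : E A B →₀ ℤ) (h : ¬ IsConst p) {δ : ℕ}
    (hδ : ∀ Q : E A B, ∑ᶠ v : Point K, (if red v = Q then v.ord (param Q p) else 0) • red v =
      δ • Q) :
    ∑ᶠ v : Point K, v.ord (localEq D (red v) p) • red v = δ • D.sum fun Q m => m • Q := by
  have h1 : ∀ v : Point K, v.ord (localEq D (red v) p) • red v =
      ∑ Q ∈ D.support, D Q • ((if red v = Q then v.ord (param Q p) else 0) • red v) := by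
    intro v
    by_cases hv : red v ∈ D.support
    · rw [Finset.sum_eq_single_of_mem _ hv, if_pos rfl, ord_localEq D _ h, mul_zsmul']
      · rw [← mul_zsmul, ← mul_zsmul, mul_comm]
      · intro Q _ hQ
        rw [if_neg (Ne.symm hQ), zero_zsmul, zsmul_zero]
    · rw [Finset.sum_eq_zero, ord_localEq D _ h]
      · rw [Finsupp.notMem_support_iff.1 hv, zero_mul, zero_zsmul]
      · intro Q hQ
        have : red v ≠ Q := fun h0 => hv (h0 ▸ hQ)
        rw [if_neg this, zero_zsmul, zsmul_zero]
  have hfin : ∀ Q : E A B, (Function.support fun v : Point K =>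
      (if red v = Q then v.ord (param Q p) else 0) • red v).Finite := by
    intro Q
    refine (finite_ord hK (param Q p)).subset fun v hv => ?_
    rw [Function.mem_support] at hv
    intro h0
    apply hv
    rw [h0]
    simp
  rw [finsum_congr h1, finsum_sum_comm, Finsupp.sum, Finset.smul_sum]
  · refine Finset.sum_congr rfl fun Q _ => ?_
    have h2 := AddMonoidHom.map_finsum (zsmulAddGroupHom (α := E A B) (D Q)) (hfin Q)
    simp only [zsmulAddGroupHom_apply] at h2
    rw [← h2, hδ, ← natCast_zsmul, ← natCast_zsmul, ← mul_zsmul, ← mul_zsmul, mul_comm]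
  · intro Q _
    refine (hfin Q).subset fun v hv => ?_
    rw [Function.mem_support] at hv ⊢
    intro h0
    exact hv (by rw [h0, zsmul_zero])

end

open Classical in
theorem torsion_of_restricted (hD : 4 * A ^ 3 + 27 * B ^ 2 ≠ 0) {P : Fin n → EK A B K}
    {D : E A B →₀ ℤ} (hq : IsQuasiDiagonal D P) (h0 : ∀ s, Mem P s → ∑ i, s i = 0) :
    ∃ N : ℕ, 0 < N ∧ N • (D.sum fun Q m => m • Q) = 0 := by
  have hK := hq.1.curve
  choose red hred using fun (i : Fin n) (v : Point K) => exists_red hD hK v (P i)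
  have hmem : ∀ v, Mem P (fun i => red i v) := fun v => red_mem fun i => hred i v
  have hsum : ∀ v, ∑ i, red i v = 0 := fun v => h0 _ (hmem v)
  obtain ⟨i₀, hi₀⟩ := exists_not_const hq.1
  have habel : ∀ i, ¬ IsConst (P i) → _ := fun i hi =>
    Q36.QAb.abel_main hD hK (trans_of_not_const hi) (hred i)
  choose N hN F hF hU using fun i j => hq.2 i j
  have hord : ∀ k, ∀ v : Point K, v.ord (F i₀ k) = N i₀ k * v.ord (localEq D (red i₀ v) (P i₀)) -
      N i₀ k * v.ord (localEq D (red k v) (P k)) := by
    intro k v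
    have h1 := red_unit (fun i => hred i v) (hU i₀ k _ (hmem v))
    have h2 : localEq D (red k v) (P k) ≠ 0 := localEq_ne
    have h3 : localEq D (red i₀ v) (P i₀) ≠ 0 := localEq_ne
    rw [div_eq_mul_inv, v.ord_mul (mul_ne_zero (hF i₀ k) (pow_ne_zero _ h2))
      (inv_ne_zero (pow_ne_zero _ h3)), v.ord_mul (hF i₀ k) (pow_ne_zero _ h2), v.ord_inv,
      v.ord_pow, v.ord_pow] at h1
    linear_combination h1
  set S : E A B := D.sum fun Q m => m • Q with hS
  by_cases hc : ∃ k, IsConst (P k)
  · obtain ⟨k, hk⟩ := hc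
    obtain ⟨h1, δ, hδ, h2⟩ := habel i₀ hi₀
    refine ⟨N i₀ k * δ, Nat.mul_pos (hN i₀ k) hδ, ?_⟩
    have h3 := h1 (F i₀ k) (hF i₀ k)
    have h4 : ∀ v : Point K, v.ord (F i₀ k) • red i₀ v =
        (N i₀ k : ℤ) • (v.ord (localEq D (red i₀ v) (P i₀)) • red i₀ v) := by
      intro v
      rw [hord, localEq_const hk, v.ord_one, mul_zero, sub_zero, mul_zsmul']
      rw [← mul_zsmul, ← mul_zsmul, mul_comm]
    have hfin : (Function.support fun v : Point K =>
        v.ord (localEq D (red i₀ v) (P i₀)) • red i₀ v).Finite := by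
      refine (finite_m (p := P i₀) (red := red i₀) hK D).subset fun v hv => ?_
      rw [Function.mem_support] at hv
      intro h0
      apply hv
      rw [h0, zero_zsmul]
    have h5 := AddMonoidHom.map_finsum (zsmulAddGroupHom (α := E A B) (N i₀ k : ℤ)) hfin
    simp only [zsmulAddGroupHom_apply] at h5
    rw [finsum_congr h4, ← h5, pull_D hK D hi₀ h2, ← hS] at h3
    rw [mul_nsmul', ← natCast_zsmul]
    exact h3
  · push Not at hc
    choose hab δ hδ hpull using fun i => habel i (hc i)
    let M : ℕ := ∏ k, N i₀ k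
    have hM : 0 < M := Finset.prod_pos fun k _ => hN i₀ k
    refine ⟨M * ∑ k, δ k, Nat.mul_pos hM (Finset.sum_pos (fun k _ => hδ k) ⟨i₀, Finset.mem_univ _⟩),
      ?_⟩
    have hfin : ∀ k l, (Function.support fun v : Point K =>
        v.ord (localEq D (red k v) (P k)) • red l v).Finite := by
      intro k l
      refine (finite_m (p := P k) (red := red k) hK D).subset fun v hv => ?_
      rw [Function.mem_support] at hv
      intro h0
      apply hv
      rw [h0, zero_zsmul]
    have key : ∀ k, N i₀ k • (∑ᶠ v : Point K, v.ord (localEq D (red i₀ v) (P i₀)) • red k v) =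
        N i₀ k • δ k • S := by
      intro k
      have h3 := hab k (F i₀ k) (hF i₀ k)
      have h4 : ∀ v : Point K, v.ord (F i₀ k) • red k v =
          (N i₀ k : ℤ) • (v.ord (localEq D (red i₀ v) (P i₀)) • red k v) -
          (N i₀ k : ℤ) • (v.ord (localEq D (red k v) (P k)) • red k v) := by
        intro v
        rw [hord, sub_zsmul, ← mul_zsmul, ← mul_zsmul, mul_comm, mul_comm (N i₀ k : ℤ),
          sub_eq_add_neg]
      have h5 := AddMonoidHom.map_finsum (zsmulAddGroupHom (α := E A B) (N i₀ k : ℤ)) (hfin i₀ k)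
      have h6 := AddMonoidHom.map_finsum (zsmulAddGroupHom (α := E A B) (N i₀ k : ℤ)) (hfin k k)
      simp only [zsmulAddGroupHom_apply] at h5 h6
      rw [finsum_congr h4, finsum_sub_distrib, ← h5, ← h6, pull_D hK D (hc k) (hpull k), ← hS,
        sub_eq_zero, natCast_zsmul, natCast_zsmul] at h3
      · exact h3
      · refine (hfin i₀ k).subset fun v hv => ?_
        rw [Function.mem_support] at hv ⊢
        intro h0
        exact hv (by rw [h0, zsmul_zero])
      · refine (hfin k k).subset fun v hv => ?_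
        rw [Function.mem_support] at hv ⊢
        intro h0
        exact hv (by rw [h0, zsmul_zero])
    have key2 : ∀ k, M • (∑ᶠ v : Point K, v.ord (localEq D (red i₀ v) (P i₀)) • red k v) =
        M • δ k • S := by
      intro k
      obtain ⟨c, hc'⟩ : N i₀ k ∣ M := Finset.dvd_prod_of_mem _ (Finset.mem_univ k)
      rw [hc', mul_comm, mul_nsmul', mul_nsmul', key k]
    have h7 : ∑ k, (∑ᶠ v : Point K, v.ord (localEq D (red i₀ v) (P i₀)) • red k v) = 0 := by
      rw [← finsum_sum_comm _ _ fun k _ => hfin i₀ k]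
      rw [finsum_congr (g := fun _ => (0 : E A B)), finsum_zero]
      intro v
      rw [← Finset.smul_sum, hsum, zsmul_zero]
    have h8 := congrArg (fun z => M • z) h7
    simp only [nsmul_zero] at h8
    rw [Finset.smul_sum, Finset.sum_congr rfl fun k _ => key2 k, ← Finset.smul_sum,
      ← Finset.sum_smul, ← mul_nsmul'] at h8
    exact h8

end Q36.QD
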