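import Mathlib
import Pool.Agent.Helper395.CS.Defs
import Pool.Agent.H925R3.DC.Defs

/-!
# Quasi-diagonals in powers of a complex elliptic curve: definitions

`E` is the complex elliptic curve `y² = x³ + A x + B` (`4 A³ + 27 B² ≠ 0`); every complex elliptic curve
is of this form, the origin being the point at infinity. An irreducible reduced curve `S ⊂ E ^ n` is
described by its function field `K = ℂ(S)` and by its generic point `P = (P_1, …, P_n)`, where `P_i` is
the point of `E` with values in `K` given by the projection `p_i : S → E`; the field `K` is generated by
the coordinates of the `P_i`. The closed points of `S` are the points of `E ^ n` in the closure of the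
generic point, and the local ring of `S` at such a point `s` is the ring of the quotients of polynomials
in the affine coordinates near `s`, with denominators which do not vanish at `s`.
-/

namespace Q36.QD

open Pool.Agent.H925R3.DC (crv)
open Pool.Agent.Helper395.CS

section Field

variable (A B : ℂ) (K : Type) [Field K] [Algebra ℂ K]

/-- The closed points of the elliptic curve `E : y² = x³ + A x + B`, with its group law; `0` is the
point at infinity. -/
abbrev E : Type := (crv ℂ A B).Point

/-- The points of `E : y² = x³ + A x + B` with values in the field `K`. -/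
abbrev EK : Type := (crv K (algebraMap ℂ K A) (algebraMap ℂ K B)).Point

variable {A B K}

/-- The coordinate `x` of a point (`0` for the point at infinity). -/
def X {F : Type} [Field F] {a b : F} : (crv F a b).Point → F
  | .zero => 0
  | .some x _ _ => x

/-- The coordinate `y` of a point (`0` for the point at infinity). -/
def Y {F : Type} [Field F] {a b : F} : (crv F a b).Point → F
  | .zero => 0
  | .some _ y _ => y

open Classical in
/-- The coordinates of the point `P` in the affine chart of `E` around the closed point `Q`: these are
`(x, y)` if `Q` is a finite point and `(x / y, 1 / y)` if `Q` is the point at infinity (they are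
`(0, 0)` at the point at infinity itself). -/
noncomputable def chart (Q : E A B) {F : Type} [Field F] {a b : F} (P : (crv F a b).Point) :
    Fin 2 → F :=
  if Q = 0 then ![X P / Y P, 1 / Y P] else ![X P, Y P]

/-- The point `P` lies in the affine chart of `E` around `Q`, which is `y ≠ 0` if `Q` is the point at
infinity, and the complement of the point at infinity otherwise. -/
def InChart (Q : E A B) (P : EK A B K) : Prop :=
  (Q = 0 → P = 0 ∨ Y P ≠ 0) ∧ (Q ≠ 0 → P ≠ 0)

open Classical in
/-- The local parameter of `E` at `Q` (`x / y` at infinity, `y` at the finite points of order two,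
`x - x(Q)` at the other points), evaluated at `P`. -/
noncomputable def param (Q : E A B) (P : EK A B K) : K :=
  if Q = 0 then X P / Y P else if Y Q = 0 then Y P else X P - algebraMap ℂ K (X Q)

/-- The point `P` of `E` with values in `K` is constant. -/
def IsConst (P : EK A B K) : Prop :=
  (∃ c : ℂ, X P = algebraMap ℂ K c) ∧ ∃ c : ℂ, Y P = algebraMap ℂ K c

end Field

section Curve

variable {A B : ℂ} {K : Type} [Field K] [Algebra ℂ K] {n : ℕ}

/-- `K` and `P` are the function field and the generic point of an irreducible reduced curve in
`E ^ n`. -/
structure IsCurveIn (P : Fin n → EK A B K) : Prop where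
  curve : IsCurve K
  gen : IntermediateField.adjoin ℂ (Set.range (fun i => X (P i)) ∪ Set.range (fun i => Y (P i))) = ⊤

/-- The coordinates of the generic point `P` in the affine chart around `s`. -/
noncomputable def coord (s : Fin n → E A B) (P : Fin n → EK A B K) (i : Fin n × Fin 2) : K :=
  chart (s i.1) (P i.1) i.2

/-- The coordinates of the closed point `s` in the affine chart around `s`. -/
noncomputable def coordAt (s : Fin n → E A B) (i : Fin n × Fin 2) : ℂ :=
  chart (s i.1) (s i.1) i.2

/-- `s` is a closed point of the curve `S` with generic point `P`: it lies in the closure of the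
generic point. -/
def Mem (P : Fin n → EK A B K) (s : Fin n → E A B) : Prop :=
  (∀ i, InChart (s i) (P i)) ∧ ∀ F : MvPolynomial (Fin n × Fin 2) ℂ,
    MvPolynomial.aeval (coord s P) F = 0 → MvPolynomial.eval (coordAt s) F = 0

/-- The rational function `z ∈ K` on `S` is regular at the closed point `s`, with the value `a`:
`z = F / G` for polynomials `F`, `G` in the affine coordinates near `s`, with `G(s) ≠ 0` and
`a = F(s) / G(s)`. The local ring of `S` at `s` consists of the `z` which are regular at `s`; the units
are those with a value `a ≠ 0`, and the maximal ideal consists of those with value `0`. -/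
def HasValue (P : Fin n → EK A B K) (s : Fin n → E A B) (z : K) (a : ℂ) : Prop :=
  ∃ F G : MvPolynomial (Fin n × Fin 2) ℂ, MvPolynomial.eval (coordAt s) G ≠ 0 ∧
    z * MvPolynomial.aeval (coord s P) G = MvPolynomial.aeval (coord s P) F ∧
    MvPolynomial.eval (coordAt s) F = a * MvPolynomial.eval (coordAt s) G

/-- `z` is a unit of the local ring of `S` at `s`. -/
def IsUnitAt (P : Fin n → EK A B K) (s : Fin n → E A B) (z : K) : Prop :=
  ∃ a : ℂ, a ≠ 0 ∧ HasValue P s z a

open Classical in
/-- The local equation at a point `s` of `S`, with `i`-th component `Q`, of the Cartier divisor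
`p_i ^* D` on `S`: it is `t ^ D(Q)`, where `t` is the local parameter of `E` at `Q`, composed with
`p_i`. (If `p_i` is constant, then `p_i ^* 𝒪(D)` is trivial, with local equation `1`.) -/
noncomputable def localEq (D : E A B →₀ ℤ) (Q : E A B) (P : EK A B K) : K :=
  if IsConst P then 1 else param Q P ^ D Q

/-- The curve `S ⊂ E ^ n` with generic point `P` is a quasi-diagonal over `(E, 𝒪(D))`: for all `i`, `j`,
the line bundle `p_i ^* 𝒪(D) ⊗ (p_j ^* 𝒪(D))⁻¹` on `S` is torsion, i.e. for some `N > 0` the Cartier
divisor `N (p_i ^* D - p_j ^* D)` on `S` is the divisor of a rational function `F`. -/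
def IsQuasiDiagonal (D : E A B →₀ ℤ) (P : Fin n → EK A B K) : Prop :=
  IsCurveIn P ∧ ∀ i j, ∃ N : ℕ, 0 < N ∧ ∃ F : K, F ≠ 0 ∧ ∀ s, Mem P s →
    IsUnitAt P s (F * localEq D (s j) (P j) ^ N / localEq D (s i) (P i) ^ N)

/-- `S` is smooth at the closed point `s`: the maximal ideal of the local ring of `S` at `s` is
principal. -/
def IsSmoothAt (P : Fin n → EK A B K) (s : Fin n → E A B) : Prop :=
  ∃ t : K, HasValue P s t 0 ∧ ∀ z : K, HasValue P s z 0 → ∃ (w : K) (b : ℂ), HasValue P s w b ∧
    z = t * w

/-- `S` is smooth. -/
def IsSmooth (P : Fin n → EK A B K) : Prop := ∀ s, Mem P s → IsSmoothAt P s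

open Classical in
/-- The summation map `E ^ n → E` is constant on `S`, i.e. the curve `S` is restricted if it is a
quasi-diagonal. -/
def SumConst (P : Fin n → EK A B K) : Prop := ∃ c : E A B, ∀ s, Mem P s → ∑ i, s i = c

variable (K) in
/-- The genus of the normalization of a curve with function field `K`: the dimension of the space of
regular differentials. -/
noncomputable def geomGenus : Cardinal := Module.rank ℂ (regularDifferentials K)

end Curve

end Q36.QD
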