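import Pool.Agent.Q36.QD.Val
import Pool.Agent.Helper395.CS.Diff

/-! The invariant differential `dx / y` pulled back to a curve is regular. -/

namespace Q36.QD

open Pool.Agent.H925R3.DC (crv)
open Pool.Agent.Helper395.CS
open scoped WithZero
open WithZero

variable {A B : ℂ} {K : Type} [Field K] [Algebra ℂ K]

/-- the pull-back of the invariant differential `dx / y` -/
noncomputable def om (p : EK A B K) : Ω[K⁄ℂ] := (Y p)⁻¹ • KaehlerDifferential.D ℂ K (X p)

theorem D_const (c : ℂ) : KaehlerDifferential.D ℂ K (algebraMap ℂ K c) = 0 :=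
  (KaehlerDifferential.D ℂ K).map_algebraMap c

theorem D_rel {p : EK A B K} (hp : p ≠ 0) :
    (2 * Y p) • KaehlerDifferential.D ℂ K (Y p) =
      (3 * X p ^ 2 + algebraMap ℂ K A) • KaehlerDifferential.D ℂ K (X p) := by
  have h := congrArg (KaehlerDifferential.D ℂ K) (eqn hp)
  simp only [map_add, Derivation.leibniz, Derivation.leibniz_pow, D_const, smul_zero, add_zero
    ] at h
  simp only [Nat.add_one_sub_one, pow_one, ← Nat.cast_smul_eq_nsmul K] at h
  simp only [smul_smul, ← add_smul] at h
  convert h using 2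
  all_goals norm_num

theorem om_mem (hD : 4 * A ^ 3 + 27 * B ^ 2 ≠ 0) {p : EK A B K} (hp : p ≠ 0) (hY0 : Y p ≠ 0)
    (v : Point K) : om p ∈ v.differentials := by
  have he := eqn hp
  have hrel := D_rel hp
  have h2 : (2 : K) ≠ 0 := by
    have := (algebraMap ℂ K).injective
    intro h
    have h' : algebraMap ℂ K 2 = algebraMap ℂ K 0 := by rw [map_ofNat, map_zero]; exact h
    exact two_ne_zero (this h')
  have hv2 : v.val (2 : K) = 1 := by
    have := v.const 2 two_ne_zero
    rwa [map_ofNat] at this
  apply AddSubgroup.subset_closure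
  by_cases hX : v.val (X p) ≤ 1
  · have hf : v.val (X p ^ 3 + algebraMap ℂ K A * X p + algebraMap ℂ K B) ≤ 1 := by
      refine Valuation.map_add_le _ (Valuation.map_add_le _ ?_ ?_) (v.const_le B)
      · rw [map_pow]; exact pow_le_one₀ zero_le hX
      · rw [map_mul]; exact mul_le_one' (v.const_le A) hX
    have hY : v.val (Y p) ≤ 1 := by
      rw [← he, map_pow] at hf
      exact (pow_le_one_iff two_ne_zero).1 hf
    rcases hY.lt_or_eq with hlt | heq
    · -- `Y` vanishes, `3 X² + A` is a unit
      have hg : v.val (3 * X p ^ 2 + algebraMap ℂ K A) = 1 := by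
        have hg1 : v.val (3 * X p ^ 2 + algebraMap ℂ K A) ≤ 1 := by
          refine Valuation.map_add_le _ ?_ (v.const_le A)
          rw [map_mul, map_pow]
          have h3 : v.val (3 : K) ≤ 1 := by
            have := v.const_le 3
            rwa [map_ofNat] at this
          exact mul_le_one' h3 (pow_le_one₀ zero_le hX)
        refine le_antisymm hg1 (not_lt.1 fun hlt' => ?_)
        have hid : (4 * algebraMap ℂ K A ^ 2 + X p * (6 * algebraMap ℂ K A * X p -
            9 * algebraMap ℂ K B)) * (3 * X p ^ 2 + algebraMap ℂ K A) +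
            (-3 * (6 * algebraMap ℂ K A * X p - 9 * algebraMap ℂ K B)) * Y p ^ 2 =
            algebraMap ℂ K (4 * A ^ 3 + 27 * B ^ 2) := by
          rw [he]
          simp only [map_add, map_mul, map_pow, map_ofNat]
          ring
        have hint : ∀ z : ℂ, v.val (algebraMap ℂ K z) ≤ 1 := v.const_le
        have hnum : ∀ m : ℕ, v.val ((m : K)) ≤ 1 := by
          intro m
          have := v.const_le (m : ℂ)
          rwa [map_natCast] at this
        have hu : v.val (6 * algebraMap ℂ K A * X p - 9 * algebraMap ℂ K B) ≤ 1 := by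
          refine Valuation.map_sub_le (v := v.val) ?_ ?_
          · rw [map_mul, map_mul]
            exact mul_le_one' (mul_le_one' (by exact_mod_cast hnum 6) (hint A)) hX
          · rw [map_mul]; exact mul_le_one' (by exact_mod_cast hnum 9) (hint B)
        have h4 : v.val (4 * algebraMap ℂ K A ^ 2 + X p * (6 * algebraMap ℂ K A * X p -
            9 * algebraMap ℂ K B)) ≤ 1 := by
          refine Valuation.map_add_le _ ?_ ?_
          · rw [map_mul, map_pow]
            exact mul_le_one' (by exact_mod_cast hnum 4) (pow_le_one₀ zero_le (hint A))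
          · rw [map_mul]; exact mul_le_one' hX hu
        have h5 : v.val (-3 * (6 * algebraMap ℂ K A * X p - 9 * algebraMap ℂ K B)) ≤ 1 := by
          rw [map_mul, Valuation.map_neg]
          exact mul_le_one' (by exact_mod_cast hnum 3) hu
        have h6 : v.val (algebraMap ℂ K (4 * A ^ 3 + 27 * B ^ 2)) < 1 := by
          rw [← hid]
          refine Valuation.map_add_lt _ ?_ ?_
          · rw [map_mul]
            exact mul_lt_one_of_nonneg_of_lt_one_right h4 zero_le hlt'
          · rw [map_mul, map_pow]
            exact mul_lt_one_of_nonneg_of_lt_one_right h5 zero_le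
              (pow_lt_one₀ zero_le hlt two_ne_zero)
        rw [v.const _ hD] at h6
        exact lt_irrefl _ h6
      have hg0 : 3 * X p ^ 2 + algebraMap ℂ K A ≠ 0 := by
        intro h0
        rw [h0, map_zero] at hg
        exact zero_ne_one hg
      refine ⟨2 / (3 * X p ^ 2 + algebraMap ℂ K A), Y p, ?_, hY, ?_⟩
      · rw [map_div₀, hg, hv2]; simp
      · have : KaehlerDifferential.D ℂ K (X p) = (3 * X p ^ 2 + algebraMap ℂ K A)⁻¹ •
            ((2 * Y p) • KaehlerDifferential.D ℂ K (Y p)) := by
          rw [hrel, smul_smul, inv_mul_cancel₀ hg0, one_smul]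
        rw [om, this, smul_smul, smul_smul]
        congr 1
        field_simp
    · refine ⟨(Y p)⁻¹, X p, ?_, hX, rfl⟩
      rw [map_inv₀, heq]; simp
  · -- the point at infinity
    have hX1 : 1 < v.val (X p) := not_le.1 hX
    have hX0 : X p ≠ 0 := by
      intro h0
      rw [h0, map_zero] at hX1
      exact absurd hX1 (not_lt.2 zero_le)
    have hXp : ∀ z : K, v.val z ≤ v.val (X p) → v.val z < v.val (X p ^ 3) := by
      intro z hz
      refine hz.trans_lt ?_
      rw [map_pow]
      calc v.val (X p) = v.val (X p) ^ 1 := (pow_one _).symm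
        _ < v.val (X p) ^ 3 := pow_lt_pow_right₀ hX1 (by norm_num)
    have hvY : v.val (Y p) ^ 2 = v.val (X p) ^ 3 := by
      rw [← map_pow, he, add_assoc, Valuation.map_add_eq_of_lt_left, map_pow]
      refine Valuation.map_add_lt _ (hXp _ ?_) (hXp _ ((v.const_le B).trans hX1.le))
      rw [map_mul]
      exact mul_le_of_le_one_left zero_le (v.const_le A)
    have hden : v.val (2 * algebraMap ℂ K B + algebraMap ℂ K A * X p - X p ^ 3) =
        v.val (X p) ^ 3 := by
      rw [Valuation.map_sub_eq_of_lt_right, map_pow]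
      refine Valuation.map_add_lt _ (hXp _ ?_) (hXp _ ?_)
      · rw [map_mul, hv2, one_mul]; exact (v.const_le B).trans hX1.le
      · rw [map_mul]
        exact mul_le_of_le_one_left zero_le (v.const_le A)
    have hvY0 : v.val (Y p) ≠ 0 := (Valuation.ne_zero_iff _).2 hY0
    have hvX0 : v.val (X p) ≠ 0 := (Valuation.ne_zero_iff _).2 hX0
    have hden0 : 2 * algebraMap ℂ K B + algebraMap ℂ K A * X p - X p ^ 3 ≠ 0 := by
      intro h0
      rw [h0, map_zero] at hden
      exact (pow_ne_zero 3 hvX0) hden.symm
    refine ⟨2 * Y p ^ 2 / (2 * algebraMap ℂ K B + algebraMap ℂ K A * X p - X p ^ 3),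
      X p / Y p, ?_, ?_, ?_⟩
    · rw [map_div₀, map_mul, hv2, one_mul, map_pow, hvY, hden, div_self (pow_ne_zero 3 hvX0)]
    · rw [map_div₀, div_le_one₀ (zero_lt_iff.2 hvY0)]
      have h1 : v.val (X p) ^ 2 ≤ v.val (Y p) ^ 2 := by
        rw [hvY]; exact pow_le_pow_right₀ hX1.le (by norm_num)
      exact (pow_le_pow_iff_left₀ zero_le zero_le two_ne_zero).1 h1
    · have hDY : KaehlerDifferential.D ℂ K (Y p) = ((3 * X p ^ 2 + algebraMap ℂ K A) /
          (2 * Y p)) • KaehlerDifferential.D ℂ K (X p) := by
        have : KaehlerDifferential.D ℂ K (Y p) = (2 * Y p)⁻¹ •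
            ((2 * Y p) • KaehlerDifferential.D ℂ K (Y p)) := by
          rw [smul_smul, inv_mul_cancel₀ (mul_ne_zero h2 hY0), one_smul]
        rw [this, hrel, smul_smul, div_eq_inv_mul]
      have hdiv : KaehlerDifferential.D ℂ K (X p / Y p) =
          ((Y p)⁻¹ - X p * ((3 * X p ^ 2 + algebraMap ℂ K A) / (2 * Y p)) / Y p ^ 2) •
            KaehlerDifferential.D ℂ K (X p) := by
        have h3 : KaehlerDifferential.D ℂ K (Y p * (X p / Y p)) =
            KaehlerDifferential.D ℂ K (X p) := by
          congr 1; field_simp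
        rw [Derivation.leibniz, hDY, smul_smul] at h3
        have h4 : KaehlerDifferential.D ℂ K (X p / Y p) = (Y p)⁻¹ •
            (Y p • KaehlerDifferential.D ℂ K (X p / Y p)) := by
          rw [smul_smul, inv_mul_cancel₀ hY0, one_smul]
        rw [h4, eq_sub_of_add_eq h3, smul_sub, smul_smul, ← sub_smul]
        congr 1
        field_simp
      rw [om, hdiv, smul_smul]
      congr 1
      field_simp
      rw [he]
      ring

theorem om_regular (hD : 4 * A ^ 3 + 27 * B ^ 2 ≠ 0) {p : EK A B K} (hp : p ≠ 0)
    (hY0 : Y p ≠ 0) : om p ∈ regularDifferentials K := fun v => om_mem hD hp hY0 v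

theorem two_le_genus {ω ω' : Ω[K⁄ℂ]} (h : ω ∈ regularDifferentials K)
    (h' : ω' ∈ regularDifferentials K) (hi : ∀ a b : ℂ, a • ω + b • ω' = 0 → a = 0 ∧ b = 0) :
    2 ≤ geomGenus K := by
  have hli : LinearIndependent ℂ ![(⟨ω, h⟩ : regularDifferentials K), ⟨ω', h'⟩] := by
    rw [LinearIndependent.pair_iff]
    intro a b hab
    exact hi a b (congrArg Subtype.val hab)
  have := hli.cardinal_lift_le_rank
  simpa [geomGenus] using this

end Q36.QD
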