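import Pool.Agent.Q36.QD.Field
import Pool.Agent.Q36.QD.Dif

/-! The curves `(x(P_1) - t) (x(P_2) - t) = c` in `E × E`. -/

namespace Q36.QD

open Pool.Agent.H925R3.DC (crv)
open Pool.Agent.Helper395.CS
open MvPolynomial (aeval eval)

variable {A B : ℂ} {K : Type} [Field K] [Algebra ℂ K] {n : ℕ}

/-- All the components `P_i` of `P` have the `x`-coordinate `t + ξ` or `t + η`, with `ξ η = c`. -/
structure Fib (P : Fin n → EK A B K) (τ : Fin n → Bool) (t c : ℂ) (ξ η : K) : Prop where
  hc : c ≠ 0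
  mul : ξ * η = algebraMap ℂ K c
  X1 : ∀ i, τ i = true → X (P i) = algebraMap ℂ K t + ξ
  X2 : ∀ i, τ i = false → X (P i) = algebraMap ℂ K t + η
  ne : ∀ i, P i ≠ 0
  tr : Transcendental ℂ η
  g0 : t ^ 3 + A * t + B ≠ 0
  roots : ∀ x1 x2 : ℂ, x1 ^ 3 + A * x1 + B = 0 → x2 ^ 3 + A * x2 + B = 0 →
    (x1 - t) * (x2 - t) ≠ c

theorem trans_sub {z : K} (h : Transcendental ℂ z) (c : ℂ) :
    Transcendental ℂ (algebraMap ℂ K c + z) := by
  intro h'
  apply h
  have : z = (algebraMap ℂ K c + z) - algebraMap ℂ K c := by ring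
  rw [this]
  exact h'.sub (isAlgebraic_algebraMap c)

theorem not_const {p : EK A B K} (h : Transcendental ℂ (X p)) : ¬ IsConst p := by
  rintro ⟨⟨c, hc⟩, -⟩
  rw [hc] at h
  exact h (isAlgebraic_algebraMap c)

theorem ne_zero_of_trans {z : K} (h : Transcendental ℂ z) : z ≠ 0 := by
  rintro rfl
  exact h isAlgebraic_zero

theorem pt_ne_of_trans {p : EK A B K} (h : Transcendental ℂ (X p)) : p ≠ 0 := by
  rintro rfl
  exact h isAlgebraic_zero

theorem Y_ne_of_trans {p : EK A B K} (h : Transcendental ℂ (X p)) : Y p ≠ 0 := by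
  intro hY
  have he := eqn (pt_ne_of_trans h)
  rw [hY] at he
  apply h
  refine ⟨Polynomial.X ^ 3 + Polynomial.C A * Polynomial.X + Polynomial.C B, ?_, ?_⟩
  · intro h0
    have := congrArg (fun q => Polynomial.coeff q 3) h0
    simp at this
  · simp
    rw [← he]; ring

theorem localEq_inf {P : Fin n → EK A B K} {s : Fin n → E A B} {k : Fin n}
    (h : Transcendental ℂ (X (P k))) (hk : s k = 0) :
    localEq (Finsupp.single 0 1) (s k) (P k) = X (P k) / Y (P k) := by
  rw [localEq, param_inf hk, hk, if_neg (not_const h)]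
  simp

theorem localEq_fin {P : Fin n → EK A B K} {s : Fin n → E A B} {k : Fin n} (hk : s k ≠ 0) :
    localEq (Finsupp.single 0 1) (s k) (P k) = 1 := by
  rw [localEq]
  simp [Finsupp.single_eq_of_ne hk]

namespace Fib

variable {P : Fin n → EK A B K} {τ : Fin n → Bool} {t c : ℂ} {ξ η : K}

theorem ξ_ne (H : Fib P τ t c ξ η) : ξ ≠ 0 := by
  intro h
  have := H.mul
  rw [h, zero_mul] at this
  exact H.hc ((map_eq_zero _).1 this.symm)

theorem η_ne (H : Fib P τ t c ξ η) : η ≠ 0 := ne_zero_of_trans H.tr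

theorem ξ_tr (H : Fib P τ t c ξ η) : Transcendental ℂ ξ := by
  intro h
  apply H.tr
  have : η = algebraMap ℂ K c * ξ⁻¹ := by
    rw [← H.mul]
    have := H.ξ_ne
    field_simp
  rw [this]
  exact (isAlgebraic_algebraMap c).mul h.inv

theorem X_tr (H : Fib P τ t c ξ η) (i : Fin n) : Transcendental ℂ (X (P i)) := by
  cases h : τ i
  · rw [H.X2 i h]; exact trans_sub H.tr t
  · rw [H.X1 i h]; exact trans_sub H.ξ_tr t

theorem X_eq (H : Fib P τ t c ξ η) {i j : Fin n} (h : τ i = τ j) : X (P i) = X (P j) := by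
  cases h' : τ i
  · rw [H.X2 i h', H.X2 j (h ▸ h')]
  · rw [H.X1 i h', H.X1 j (h ▸ h')]

theorem XX (H : Fib P τ t c ξ η) {i j : Fin n} (h : τ i ≠ τ j) :
    (X (P i) - algebraMap ℂ K t) * (X (P j) - algebraMap ℂ K t) = algebraMap ℂ K c := by
  cases h' : τ i
  · have hj : τ j = true := by
      cases h'' : τ j
      · exact absurd (h'.trans h''.symm) h
      · rfl
    rw [H.X2 i h', H.X1 j hj, ← H.mul]; ring
  · have hj : τ j = false := by
      cases h'' : τ j
      · rfl
      · exact absurd (h'.trans h''.symm) h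
    rw [H.X1 i h', H.X2 j hj, ← H.mul]; ring

variable {s : Fin n → E A B}

/-- points of the same type are at infinity simultaneously -/
theorem inf_iff_aux (H : Fib P τ t c ξ η) (hs : Mem P s) {i j : Fin n} (h : X (P i) = X (P j))
    (hi : s i = 0) : s j = 0 := by
  by_contra hj
  have h1 := inf_r hs hi (H.ne i)
  have h2 := fin_X (P := P) hj
  have h3 := h1.mul h2
  rw [← h, inv_mul_cancel₀ (inf_X_ne hs hi (H.ne i)), zero_mul] at h3
  exact one_ne_zero (h3.unique hs hasValue_one).symm

theorem not_both (H : Fib P τ t c ξ η) (hs : Mem P s) {i j : Fin n} (h : τ i ≠ τ j)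
    (hi : s i = 0) : s j ≠ 0 := by
  intro hj
  have h1 := inf_rt hs hi (H.ne i) t
  have h2 := inf_rt hs hj (H.ne j) t
  have h3 := h1.mul h2
  rw [← mul_inv, H.XX h, zero_mul] at h3
  have h4 := (hasValue_const (P := P) (s := s) c).inv hs H.hc
  exact inv_ne_zero H.hc (h4.unique hs h3)

theorem X_at (H : Fib P τ t c ξ η) (hs : Mem P s) {i j : Fin n} (h : τ i ≠ τ j)
    (hi : s i = 0) : X (s j) = t := by
  have hj := H.not_both hs h hi
  have h1 := inf_rt hs hi (H.ne i) t
  have h2 := fin_X (P := P) hj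
  have h3 := (hasValue_const (P := P) (s := s) c).mul h1
  rw [← H.XX h, mul_comm _ (X (P j) - algebraMap ℂ K t), mul_assoc,
    mul_inv_cancel₀ (inf_sub_ne hs hi (H.ne i) t), mul_one, mul_zero] at h3
  have h4 := h2.sub (hasValue_const (P := P) (s := s) t)
  exact sub_eq_zero.1 (h4.unique hs h3)

theorem XX_at (H : Fib P τ t c ξ η) (hs : Mem P s) {i j : Fin n} (h : τ i ≠ τ j)
    (hi : s i ≠ 0) (hj : s j ≠ 0) : (X (s i) - t) * (X (s j) - t) = c := by
  have h1 := (fin_X (P := P) hi).sub (hasValue_const t)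
  have h2 := (fin_X (P := P) hj).sub (hasValue_const t)
  have h3 := h1.mul h2
  rw [H.XX h] at h3
  exact h3.unique hs (hasValue_const c)

theorem quasi (H : Fib P τ t c ξ η) (hP : IsCurveIn P) :
    IsQuasiDiagonal (Finsupp.single 0 1) P := by
  refine ⟨hP, fun i j => ⟨2, two_pos, ?_⟩⟩
  have hYi := Y_ne_of_trans (H.X_tr i)
  have hYj := Y_ne_of_trans (H.X_tr j)
  have hXi := ne_zero_of_trans (H.X_tr i)
  have hXj := ne_zero_of_trans (H.X_tr j)
  by_cases hτ : τ i = τ j
  · refine ⟨1, one_ne_zero, fun s hs => ?_⟩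
    have hX := H.X_eq hτ
    by_cases hi : s i = 0
    · have hj := H.inf_iff_aux hs hX hi
      rw [localEq_inf (H.X_tr i) hi, localEq_inf (H.X_tr j) hj]
      have : 1 * (X (P j) / Y (P j)) ^ 2 / (X (P i) / Y (P i)) ^ 2 = 1 := by
        have e1 := eqn (H.ne i)
        have e2 := eqn (H.ne j)
        have e3 : Y (P i) ^ 2 = Y (P j) ^ 2 := by rw [e1, e2, hX]
        rw [hX] at *
        field_simp
        exact e3
      rw [this]
      exact isUnitAt_one
    · have hj : s j ≠ 0 := fun h => hi (H.inf_iff_aux hs hX.symm h)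
      rw [localEq_fin hi, localEq_fin hj]
      simpa using isUnitAt_one
  · have hne : X (P i) - algebraMap ℂ K t ≠ 0 := by
      intro h
      have := H.XX hτ
      rw [h, zero_mul] at this
      exact H.hc ((map_eq_zero _).1 this.symm)
    have hne' : X (P j) - algebraMap ℂ K t ≠ 0 := by
      intro h
      have := H.XX hτ
      rw [h, mul_zero] at this
      exact H.hc ((map_eq_zero _).1 this.symm)
    refine ⟨(X (P i) - algebraMap ℂ K t)⁻¹, inv_ne_zero hne, fun s hs => ?_⟩
    by_cases hi : s i = 0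
    · have hj := H.not_both hs hτ hi
      rw [localEq_fin hj, localEq_inf (H.X_tr i) hi, one_pow, mul_one]
      exact (inf_unit hs hi (H.ne i) t).unit one_ne_zero
    · by_cases hj : s j = 0
      · rw [localEq_fin hi, localEq_inf (H.X_tr j) hj, one_pow, div_one]
        have h1 := ((inf_unit hs hj (H.ne j) t).unit one_ne_zero).inv hs
        have h2 := (isUnitAt_const (P := P) (s := s) H.hc).inv hs
        have h3 := h1.mul h2
        refine h3.congr ?_
        rw [← H.XX hτ]
        field_simp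
      · rw [localEq_fin hi, localEq_fin hj, one_pow, mul_one, div_one]
        have h1 := (fin_X (P := P) hi).sub (hasValue_const t)
        have h2 : X (s i) - t ≠ 0 := by
          intro h
          have := H.XX_at hs hτ hi hj
          rw [h, zero_mul] at this
          exact H.hc this.symm
        exact (h1.unit h2).inv hs

end Fib

end Q36.QD
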