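import Pool.Agent.Q36.QD.Fib

/-! Smoothness and genus of the curves `(x(P_1) - t) (x(P_2) - t) = c`, and their existence. -/

namespace Q36.QD

open Pool.Agent.H925R3.DC (crv)
open Pool.Agent.H475R2.DC_RED (ns_iff)
open Pool.Agent.Helper395.CS
open MvPolynomial (aeval eval)

variable {A B : ℂ} {K : Type} [Field K] [Algebra ℂ K] {n : ℕ}

namespace Fib

variable {P : Fin n → EK A B K} {τ : Fin n → Bool} {t c : ℂ} {ξ η : K} {s : Fin n → E A B}

theorem mult_aux (H : Fib P τ t c ξ η) (hD : 4 * A ^ 3 + 27 * B ^ 2 ≠ 0) (hs : Mem P s)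
    {i j : Fin n} (h : τ i ≠ τ j) (hi : s i ≠ 0) :
    Mult P s (param (s j) (P j)) (X (P i) - algebraMap ℂ K (X (s i))) := by
  by_cases hj : s j = 0
  · have hX := H.X_at hs h.symm hj
    rw [hX, param_inf hj]
    have h1 := inf_unit hs hj (H.ne j) t
    have hz := inf_z (P := P) hj
    have hne := inf_sub_ne hs hj (H.ne j) t
    have hX0 := inf_X_ne hs hj (H.ne j)
    have hY0 := inf_Y_ne hs hj (H.ne j)
    refine ⟨_, _, (((hasValue_const c).mul hz).mul h1), ?_⟩
    have h2 : X (P i) - algebraMap ℂ K t = algebraMap ℂ K c * (X (P j) - algebraMap ℂ K t)⁻¹ := by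
      rw [← H.XX h]; field_simp
    rw [h2]
    field_simp
  · have h1 := mult_X hD hs j hj
    have hc := H.XX_at hs h hi hj
    have hj' : X (s j) - t ≠ 0 := by
      intro h0; rw [h0, mul_zero] at hc; exact H.hc hc.symm
    have hv := (fin_X (P := P) hj).sub (hasValue_const (P := P) (s := s) t)
    have hv0 := hv.ne_zero hs hj'
    have hu := (((hasValue_const (P := P) (s := s) c).neg.mul (hv.inv hs hj')).mul
      (hasValue_const (P := P) (s := s) (X (s j) - t)⁻¹))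
    have h3 := h1.mul hu
    have h4 : -algebraMap ℂ K c * (X (P j) - algebraMap ℂ K t)⁻¹ *
        algebraMap ℂ K (X (s j) - t)⁻¹ * (X (P j) - algebraMap ℂ K (X (s j))) =
        X (P i) - algebraMap ℂ K (X (s i)) := by
      have e1 : X (P i) = algebraMap ℂ K t + algebraMap ℂ K c *
          (X (P j) - algebraMap ℂ K t)⁻¹ := by
        rw [← H.XX h]; field_simp; ring
      have e2 : X (s i) = t + c * (X (s j) - t)⁻¹ := by
        rw [← hc]; field_simp; ring
      have hj'' : algebraMap ℂ K (X (s j)) - algebraMap ℂ K t ≠ 0 := by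
        rw [← map_sub]; exact (map_ne_zero _).2 hj'
      rw [e1, e2]
      simp only [map_add, map_mul, map_inv₀, map_sub]
      field_simp
      ring
    rw [h4] at h3
    exact h3

theorem g_ne (H : Fib P τ t c ξ η) {q : E A B} (hq : q ≠ 0) (hX : X q = t) : Y q ≠ 0 := by
  intro hY
  have he := eqn hq
  rw [hX, hY] at he
  exact H.g0 (by rw [← he]; ring)

end Fib

theorem Fib.smooth {P : Fin 2 → EK A B K} {τ : Fin 2 → Bool} {t c : ℂ} {ξ η : K}
    (H : Fib P τ t c ξ η) (hτ : τ 0 ≠ τ 1) (hD : 4 * A ^ 3 + 27 * B ^ 2 ≠ 0) : IsSmooth P := by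
  intro s hs
  have key : ∀ i j : Fin 2, τ i ≠ τ j → (∀ k, k = i ∨ k = j) → s i ≠ 0 → Y (s i) ≠ 0 →
      IsSmoothAt P s := by
    intro i j h hk hi hY
    refine smooth_of_mult hs (param_value j) ?_
    rintro ⟨k, l⟩
    rcases hk k with rfl | rfl
    · have h1 := H.mult_aux hD hs h hi
      rw [← param_gen (P := P) hi hY] at h1
      exact h1.trans (mult_coord hD hs k (H.ne k) l)
    · exact mult_coord hD hs k (H.ne k) l
  by_cases h0 : s 0 = 0
  · have h1 := H.not_both hs hτ h0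
    exact key 1 0 hτ.symm (by intro k; fin_cases k <;> simp) h1 (H.g_ne h1 (H.X_at hs hτ h0))
  by_cases h1 : s 1 = 0
  · exact key 0 1 hτ (by intro k; fin_cases k <;> simp) h0 (H.g_ne h0 (H.X_at hs hτ.symm h1))
  by_cases hY0 : Y (s 0) = 0
  · refine key 1 0 hτ.symm (by intro k; fin_cases k <;> simp) h1 ?_
    intro hY1
    have e0 := eqn h0
    have e1 := eqn h1
    rw [hY0] at e0
    rw [hY1] at e1
    exact H.roots _ _ (by rw [← e0]; ring) (by rw [← e1]; ring) (H.XX_at hs hτ h0 h1)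
  · exact key 0 1 hτ (by intro k; fin_cases k <;> simp) h0 hY0

theorem quartic_zero {z : K} (hz : Transcendental ℂ z) {k4 k3 k2 k1 k0 : ℂ}
    (h : algebraMap ℂ K k4 * z ^ 4 + algebraMap ℂ K k3 * z ^ 3 + algebraMap ℂ K k2 * z ^ 2 +
      algebraMap ℂ K k1 * z + algebraMap ℂ K k0 = 0) : k4 = 0 ∧ k0 = 0 := by
  let q : Polynomial ℂ := Polynomial.C k4 * Polynomial.X ^ 4 + Polynomial.C k3 * Polynomial.X ^ 3 +
    Polynomial.C k2 * Polynomial.X ^ 2 + Polynomial.C k1 * Polynomial.X + Polynomial.C k0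
  have hq : Polynomial.aeval z q = 0 := by
    simp only [q, map_add, map_mul, map_pow, Polynomial.aeval_C, Polynomial.aeval_X]
    exact h
  have hq0 : q = 0 := by
    by_contra hne
    exact hz ⟨q, hne, hq⟩
  have c4 := congrArg (fun r => Polynomial.coeff r 4) hq0
  have c0 := congrArg (fun r => Polynomial.coeff r 0) hq0
  simp [q, Polynomial.coeff_X, Polynomial.coeff_C] at c4 c0
  exact ⟨c4, c0⟩

theorem Fib.genus {P : Fin n → EK A B K} {τ : Fin n → Bool} {t c : ℂ} {ξ η : K}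
    (H : Fib P τ t c ξ η) (hK : IsCurve K) {i j : Fin n} (hi : τ i = true) (hj : τ j = false)
    (hD : 4 * A ^ 3 + 27 * B ^ 2 ≠ 0) : 2 ≤ geomGenus K := by
  have hYi := Y_ne_of_trans (H.X_tr i)
  have hYj := Y_ne_of_trans (H.X_tr j)
  have hη := H.η_ne
  have hξ := H.ξ_ne
  refine two_le_genus (om_regular hD (H.ne i) hYi) (om_regular hD (H.ne j) hYj) ?_
  intro a b hab
  have hDη : KaehlerDifferential.D ℂ K η ≠ 0 := D_ne_zero hK H.tr
  have e1 : KaehlerDifferential.D ℂ K (X (P i)) = KaehlerDifferential.D ℂ K ξ := by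
    rw [H.X1 i hi, map_add, D_const, zero_add]
  have e2 : KaehlerDifferential.D ℂ K (X (P j)) = KaehlerDifferential.D ℂ K η := by
    rw [H.X2 j hj, map_add, D_const, zero_add]
  have e3 : KaehlerDifferential.D ℂ K ξ = (-(ξ / η)) • KaehlerDifferential.D ℂ K η := by
    have h1 := congrArg (KaehlerDifferential.D ℂ K) H.mul
    rw [Derivation.leibniz, D_const] at h1
    have h2 : KaehlerDifferential.D ℂ K ξ = η⁻¹ • (η • KaehlerDifferential.D ℂ K ξ) := by
      rw [smul_smul, inv_mul_cancel₀ hη, one_smul]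
    rw [h2, eq_neg_of_add_eq_zero_right h1, smul_neg, smul_smul, neg_smul]
    congr 2
    field_simp
  rw [om, om, e1, e2, e3, ← algebraMap_smul K a, ← algebraMap_smul K b, smul_smul, smul_smul,
    smul_smul, ← add_smul] at hab
  have h1 : algebraMap ℂ K a * ((Y (P i))⁻¹ * -(ξ / η)) + algebraMap ℂ K b * (Y (P j))⁻¹ = 0 := by
    by_contra hcon
    exact (smul_ne_zero hcon hDη) (by rw [← hab]; congr 1; ring)
  have h2 : algebraMap ℂ K b * Y (P i) * η = algebraMap ℂ K a * ξ * Y (P j) := by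
    field_simp at h1
    linear_combination h1
  have f1 := eqn (H.ne i)
  have f2 := eqn (H.ne j)
  rw [H.X1 i hi] at f1
  rw [H.X2 j hj] at f2
  have h3 : algebraMap ℂ K b ^ 2 * Y (P i) ^ 2 * η ^ 2 =
      algebraMap ℂ K a ^ 2 * ξ ^ 2 * Y (P j) ^ 2 := by
    linear_combination (algebraMap ℂ K b * Y (P i) * η + algebraMap ℂ K a * ξ * Y (P j)) * h2
  rw [f1, f2] at h3
  have hm := H.mul
  have hq := quartic_zero H.tr (k4 := b ^ 2 * (t ^ 3 + A * t + B))
    (k3 := b ^ 2 * (3 * t ^ 2 + A) * c - a ^ 2 * c ^ 2)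
    (k2 := b ^ 2 * 3 * t * c ^ 2 - a ^ 2 * c ^ 2 * 3 * t)
    (k1 := b ^ 2 * c ^ 3 - a ^ 2 * c ^ 2 * (3 * t ^ 2 + A))
    (k0 := -(a ^ 2 * c ^ 2 * (t ^ 3 + A * t + B))) (by
      simp only [map_add, map_mul, map_pow, map_sub, map_neg, map_ofNat]
      have hξ' : ξ = algebraMap ℂ K c / η := by rw [eq_div_iff hη]; exact hm
      rw [hξ'] at h3
      field_simp at h3
      linear_combination h3)
  obtain ⟨c4, c0⟩ := hq
  constructor
  · rw [neg_eq_zero] at c0
    rcases mul_eq_zero.1 c0 with h | h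
    · rcases mul_eq_zero.1 h with h | h
      · exact pow_eq_zero_iff two_ne_zero |>.1 h
      · exact absurd (pow_eq_zero_iff two_ne_zero |>.1 h) H.hc
    · exact absurd h H.g0
  · rcases mul_eq_zero.1 c4 with h | h
    · exact pow_eq_zero_iff two_ne_zero |>.1 h
    · exact absurd h H.g0

/-! ### Existence -/

theorem finite_roots : {x : ℂ | x ^ 3 + A * x + B = 0}.Finite := by
  have hne : (Polynomial.X ^ 3 + Polynomial.C A * Polynomial.X + Polynomial.C B : Polynomial ℂ) ≠ 0 := by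
    intro h0
    have := congrArg (fun q => Polynomial.coeff q 3) h0
    simp at this
  refine (Polynomial.finite_setOfPred_isRoot hne).subset ?_
  intro x hx
  simpa [Polynomial.IsRoot] using hx

theorem exists_tc : ∃ t c : ℂ, c ≠ 0 ∧ t ^ 3 + A * t + B ≠ 0 ∧ ∀ x1 x2 : ℂ,
    x1 ^ 3 + A * x1 + B = 0 → x2 ^ 3 + A * x2 + B = 0 → (x1 - t) * (x2 - t) ≠ c := by
  obtain ⟨t, ht⟩ := (finite_roots (A := A) (B := B)).exists_notMem
  have hfin : ((fun p : ℂ × ℂ => (p.1 - t) * (p.2 - t)) ''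
      ({x : ℂ | x ^ 3 + A * x + B = 0} ×ˢ {x : ℂ | x ^ 3 + A * x + B = 0}) ∪ {0}).Finite :=
    ((finite_roots.prod finite_roots).image _).union (Set.finite_singleton 0)
  obtain ⟨c, hc⟩ := hfin.exists_notMem
  refine ⟨t, c, fun h => hc (Or.inr h), ht, fun x1 x2 h1 h2 h => hc (Or.inl ⟨(x1, x2), ⟨h1, h2⟩, h⟩)⟩

/-- the point with given coordinates -/
def mkPt {F : Type} [Field F] {a b : F} (h2 : (2 : F) ≠ 0) (hd : 4 * a ^ 3 + 27 * b ^ 2 ≠ 0)
    (x y : F) (h : y ^ 2 = x ^ 3 + a * x + b) : (crv F a b).Point :=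
  .some x y ((ns_iff a b x y).2 ⟨h, by
    by_contra hcon
    rw [not_or, not_not, not_not] at hcon
    have hy : y = 0 := (mul_eq_zero.1 hcon.2).resolve_left h2
    rw [hy] at h
    exact hd (disc_zero (by rw [← h]; ring) hcon.1)⟩)

theorem exists_fib (hD : 4 * A ^ 3 + 27 * B ^ 2 ≠ 0) : ∃ (q : Bool → EK A B Om) (t c : ℂ) (ξ η : Om),
    c ≠ 0 ∧ ξ * η = algebraMap ℂ Om c ∧ X (q true) = algebraMap ℂ Om t + ξ ∧
    X (q false) = algebraMap ℂ Om t + η ∧ (∀ i, q i ≠ 0) ∧ Transcendental ℂ η ∧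
    t ^ 3 + A * t + B ≠ 0 ∧ ∀ x1 x2 : ℂ, x1 ^ 3 + A * x1 + B = 0 → x2 ^ 3 + A * x2 + B = 0 →
      (x1 - t) * (x2 - t) ≠ c := by
  obtain ⟨t, c, hc, ht, hr⟩ := exists_tc (A := A) (B := B)
  obtain ⟨η, hη⟩ := exists_transc
  have hη0 := ne_zero_of_trans hη
  let ξ : Om := algebraMap ℂ Om c / η
  let x : Bool → Om := fun i => if i then algebraMap ℂ Om t + ξ else algebraMap ℂ Om t + η
  have hy : ∀ i, ∃ y : Om, y ^ 2 = x i ^ 3 + algebraMap ℂ Om A * x i + algebraMap ℂ Om B :=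
    fun i => IsAlgClosed.exists_pow_nat_eq _ two_pos
  choose y hy using hy
  refine ⟨fun i => mkPt two_ne_zero (disc_map hD) (x i) (y i) (hy i), t, c, ξ, η, hc, ?_, rfl, rfl,
    fun i => WeierstrassCurve.Affine.Point.some_ne_zero _, hη, ht, hr⟩
  simp only [ξ]
  field_simp

end Q36.QD
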