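import Pool.Agent.Q36.QD.FibB

/-! Smooth and restricted quasi-diagonals of higher genus. -/

namespace Q36.QD

open Pool.Agent.H925R3.DC (crv)
open Pool.Agent.Helper395.CS

variable {A B : ℂ} {n : ℕ}

open Classical in
/-- the tuple of the points `± q (τ i)` -/
noncomputable def tup (q : Bool → EK A B Om) (τ ε : Fin n → Bool) (i : Fin n) : EK A B Om :=
  if ε i then q (τ i) else -q (τ i)

open Classical in
theorem exists_fibC (hD : 4 * A ^ 3 + 27 * B ^ 2 ≠ 0) (τ : Fin n → Bool) (ε : Fin n → Bool)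
    {i0 i1 : Fin n} (h0 : τ i0 = true) (h1 : τ i1 = false) :
    ∃ (K : Type) (_ : Field K) (_ : Algebra ℂ K) (P : Fin n → EK A B K) (t c : ℂ) (ξ η : K),
      IsCurveIn P ∧ Fib P τ t c ξ η ∧
      ((∀ q : Bool → EK A B Om, ∑ i, tup q τ ε i = 0) → ∑ i, P i = 0) := by
  obtain ⟨q, t, c, ξ, η, hc, hm, hx1, hx2, hne, htr, ht, hr⟩ := exists_fib hD
  have hX : ∀ i, X (tup q τ ε i) = X (q (τ i)) := by
    intro i
    rw [tup]
    split_ifs
    · rfl
    · exact X_neg _
  have hη0 := ne_zero_of_trans htr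
  have htr0 : Transcendental ℂ (X (tup q τ ε i1)) := by
    rw [hX, h1, hx2]; exact trans_sub htr t
  obtain ⟨K, _, _, P, j, hP, hPX, hPY, hP0, hPs⟩ := exists_curve hD (tup q τ ε) htr0
  have hinj : Function.Injective j := j.toRingHom.injective
  refine ⟨K, inferInstance, inferInstance, P, t, c, X (P i0) - algebraMap ℂ K t,
    X (P i1) - algebraMap ℂ K t, hP, ⟨hc, ?_, ?_, ?_, ?_, ?_, ht, hr⟩, fun h => hPs (h q)⟩
  · apply hinj
    rw [map_mul, map_sub, map_sub, hPX, hPX, j.commutes, j.commutes, hX, hX, h0, h1, hx1, hx2, ← hm]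
    ring
  · intro i hi
    apply hinj
    rw [map_add, map_sub, hPX, hPX, j.commutes, hX, hX, h0, hi]
    ring
  · intro i hi
    apply hinj
    rw [map_add, map_sub, hPX, hPX, j.commutes, hX, hX, h1, hi]
    ring
  · intro i h
    have h2 := (hP0 i).1 h
    rw [tup] at h2
    split_ifs at h2
    · exact hne _ h2
    · exact hne _ (neg_eq_zero.1 h2)
  · intro h
    apply htr
    have h2 : η = j (X (P i1) - algebraMap ℂ K t) := by
      rw [map_sub, hPX, j.commutes, hX, h1, hx2]; ring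
    rw [h2]
    exact (isAlgebraic_algHom_iff j hinj).2 h

/-- Smooth quasi-diagonals of genus at least two in `E × E`. -/
theorem exists_smooth (hD : 4 * A ^ 3 + 27 * B ^ 2 ≠ 0) :
    ∃ (K : Type) (_ : Field K) (_ : Algebra ℂ K) (P : Fin 2 → EK A B K),
      IsQuasiDiagonal (Finsupp.single 0 1) P ∧ IsSmooth P ∧ 2 ≤ geomGenus K := by
  obtain ⟨K, _, _, P, t, c, ξ, η, hP, H, -⟩ := exists_fibC hD (n := 2) ![true, false]
    ![true, true] (i0 := 0) (i1 := 1) rfl rfl
  exact ⟨K, inferInstance, inferInstance, P, H.quasi hP, H.smooth (by decide) hD,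
    H.genus hP.curve (i := 0) (j := 1) rfl rfl hD⟩

/-- Restricted quasi-diagonals of genus at least two in `E ^ 4`. -/
theorem exists_restricted (hD : 4 * A ^ 3 + 27 * B ^ 2 ≠ 0) :
    ∃ (K : Type) (_ : Field K) (_ : Algebra ℂ K) (P : Fin 4 → EK A B K),
      IsQuasiDiagonal (Finsupp.single 0 1) P ∧ SumConst P ∧ 2 ≤ geomGenus K := by
  classical
  obtain ⟨K, _, _, P, t, c, ξ, η, hP, H, hs⟩ := exists_fibC hD (n := 4) ![true, false, true, false]
    ![true, true, false, false] (i0 := 0) (i1 := 1) rfl rfl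
  refine ⟨K, inferInstance, inferInstance, P, H.quasi hP, ⟨0, fun s hms => ?_⟩,
    H.genus hP.curve (i := 0) (j := 1) rfl rfl hD⟩
  have h0 := hs (fun q => by
    simp [tup, Fin.sum_univ_four])
  convert sum_mem hD hms (by convert h0)

end Q36.QD
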