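import Pool.Agent.Q36.QD.Sum

/-! Existence of curves in `E ^ n` with given generic points. -/

namespace Q36.QD

open Pool.Agent.H925R3.DC (crv)
open Pool.Agent.H475R2.DC_RED
open Pool.Agent.Helper395.CS

/-- An algebraically closed field of transcendence degree one. -/
abbrev Om : Type := AlgebraicClosure (RatFunc ℂ)

open Algebra in
theorem trdeg_Om : Algebra.trdeg ℂ Om ≤ 1 := by
  have h1 := trdeg_add_eq (R := ℂ) (S := RatFunc ℂ) (A := Om)
  have h2 : Algebra.trdeg (RatFunc ℂ) Om = 0 := trdeg_eq_zero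
  have h3 := trdeg_add_eq (R := ℂ) (S := Polynomial ℂ) (A := RatFunc ℂ)
  have h0 : Algebra.IsAlgebraic (Polynomial ℂ) (RatFunc ℂ) :=
    IsLocalization.isAlgebraic (RatFunc ℂ) (nonZeroDivisors (Polynomial ℂ))
  have h4 : Algebra.trdeg (Polynomial ℂ) (RatFunc ℂ) = 0 := trdeg_eq_zero
  rw [h4, add_zero, Polynomial.trdeg_of_isDomain] at h3
  rw [h2, add_zero, ← h3] at h1
  exact h1.symm.le

theorem exists_transc : ∃ x : Om, Transcendental ℂ x := by
  refine ⟨algebraMap (RatFunc ℂ) Om RatFunc.X, ?_⟩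
  rw [transcendental_algebraMap_iff (algebraMap (RatFunc ℂ) Om).injective]
  exact RatFunc.transcendental_X

open Algebra in
theorem isCurve_adjoin {t : Set Om} (ht : t.Finite) {x : Om} (hx : x ∈ t)
    (hxt : Transcendental ℂ x) : IsCurve (IntermediateField.adjoin ℂ t) where
  fg := by
    have h : (IntermediateField.adjoin ℂ t).FG := IntermediateField.fg_adjoin_of_finite ht
    rw [← IntermediateField.essFiniteType_iff] at h
    exact IntermediateField.fg_top_iff.2 h
  trdeg := by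
    have h1 : Algebra.trdeg ℂ (IntermediateField.adjoin ℂ t) ≤ 1 :=
      (trdeg_le_of_injective (IntermediateField.adjoin ℂ t).val
        (IntermediateField.adjoin ℂ t).val.injective).trans trdeg_Om
    refine le_antisymm h1 ?_
    have h2 : Transcendental ℂ (⟨x, IntermediateField.subset_adjoin _ _ hx⟩ :
        IntermediateField.adjoin ℂ t) := by
      rw [← transcendental_algebraMap_iff (A := Om) (IntermediateField.adjoin ℂ t).val.injective]
      exact hxt
    have h3 : AlgebraicIndependent ℂ (fun _ : Unit => (⟨x, IntermediateField.subset_adjoin _ _ hx⟩ :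
        IntermediateField.adjoin ℂ t)) := algebraicIndependent_unique_type_iff.2 h2
    have h4 := h3.cardinalMk_le_trdeg
    simpa using h4

variable {A B : ℂ} {n : ℕ}

open Classical in
theorem sum_zero_of_map {K L : Type} [Field K] [Field L] (j : K →+* L) (a b : K) (a' b' : L)
    (ha : j a = a') (hb : j b = b') (h2 : (2 : L) ≠ 0) (hd : 4 * a' ^ 3 + 27 * b' ^ 2 ≠ 0)
    (P : Fin n → (crv K a b).Point) (p : Fin n → (crv L a' b').Point)
    (hX : ∀ i, j (X (P i)) = X (p i)) (hY : ∀ i, j (Y (P i)) = Y (p i))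
    (h0 : ∀ i, P i = 0 ↔ p i = 0) (hsum : ∑ i, p i = 0) : ∑ i, P i = 0 := by
  subst ha; subst hb
  let φ : (⊤ : Subring K) →+* L := j.comp (Subring.subtype ⊤)
  have hval : ∀ x : K, x ∈ (⊤ : Subring K) ∨ x⁻¹ ∈ (⊤ : Subring K) := fun x => Or.inl trivial
  have hunit : ∀ x : (⊤ : Subring K), φ x ≠ 0 → (x : K)⁻¹ ∈ (⊤ : Subring K) :=
    fun x _ => trivial
  let a0 : (⊤ : Subring K) := ⟨a, trivial⟩
  let b0 : (⊤ : Subring K) := ⟨b, trivial⟩
  let ρ : (crv K a b).Point → (crv L (j a) (j b)).Point := redF φ hval h2 a0 b0 hd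
  have hρ : ∀ x y, ρ (x + y) = ρ x + ρ y := fun x y =>
    redF_add φ hval h2 a0 b0 hd Pool.Agent.H439DC.reda Pool.Agent.H816R2.DCREDB.redb
      Pool.Agent.Helper171.DCREDC.redc hunit x y
  let R : (crv K a b).Point →+ (crv L (j a) (j b)).Point := AddMonoidHom.mk' ρ hρ
  have hsome : ∀ x y h, ∃ h', R (.some x y h) = .some (j x) (j y) h' := by
    intro x y h
    exact ⟨_, redF_mem φ hval h2 a0 b0 hd ⟨x, trivial⟩ ⟨y, trivial⟩ h
      (red_ns φ h2 a0 b0 hd ⟨x, trivial⟩ ⟨y, trivial⟩ h)⟩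
  have key : ∀ i, R (P i) = p i := by
    intro i
    by_cases hi : p i = 0
    · rw [(h0 i).2 hi, hi, map_zero]
    · obtain ⟨h, hh⟩ := exists_some hi
      have hPi : P i ≠ 0 := fun h => hi ((h0 i).1 h)
      obtain ⟨h1, hh1⟩ := exists_some hPi
      obtain ⟨h3, hh3⟩ := hsome _ _ h1
      rw [hh1, hh3]
      exact (some_congr _ h (hX i) (hY i)).trans hh.symm
  have h3 : R (∑ i, P i) = 0 := by
    rw [map_sum, Finset.sum_congr rfl fun i _ => key i, hsum]
  by_contra hcon
  obtain ⟨h4, hh4⟩ := exists_some hcon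
  obtain ⟨h5, hh5⟩ := hsome _ _ h4
  rw [hh4, hh5] at h3
  exact absurd h3 (WeierstrassCurve.Affine.Point.some_ne_zero _)

theorem disc_map {L : Type} [Field L] [Algebra ℂ L] (hD : 4 * A ^ 3 + 27 * B ^ 2 ≠ 0) :
    4 * algebraMap ℂ L A ^ 3 + 27 * algebraMap ℂ L B ^ 2 ≠ 0 := by
  have : 4 * algebraMap ℂ L A ^ 3 + 27 * algebraMap ℂ L B ^ 2 =
      algebraMap ℂ L (4 * A ^ 3 + 27 * B ^ 2) := by
    rw [map_add, map_mul, map_mul, map_pow, map_pow, map_ofNat, map_ofNat]
  rw [this]
  exact (map_ne_zero _).2 hD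

open Classical in
theorem exists_curve (hD : 4 * A ^ 3 + 27 * B ^ 2 ≠ 0) (p : Fin n → EK A B Om) {i0 : Fin n}
    (h0 : Transcendental ℂ (X (p i0))) :
    ∃ (K : Type) (_ : Field K) (_ : Algebra ℂ K) (P : Fin n → EK A B K) (j : K →ₐ[ℂ] Om),
      IsCurveIn P ∧ (∀ i, j (X (P i)) = X (p i)) ∧ (∀ i, j (Y (P i)) = Y (p i)) ∧
      (∀ i, P i = 0 ↔ p i = 0) ∧ (∑ i, p i = 0 → ∑ i, P i = 0) := by
  let t : Set Om := Set.range (fun i => X (p i)) ∪ Set.range (fun i => Y (p i))
  have ht : t.Finite := (Set.finite_range _).union (Set.finite_range _)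
  let K := IntermediateField.adjoin ℂ t
  have hX : ∀ i, X (p i) ∈ K := fun i => IntermediateField.subset_adjoin _ _ (Or.inl ⟨i, rfl⟩)
  have hY : ∀ i, Y (p i) ∈ K := fun i => IntermediateField.subset_adjoin _ _ (Or.inr ⟨i, rfl⟩)
  have hns : ∀ i, p i ≠ 0 → (crv K (algebraMap ℂ K A) (algebraMap ℂ K B)).Nonsingular
      (⟨X (p i), hX i⟩ : K) (⟨Y (p i), hY i⟩ : K) := by
    intro i hi
    obtain ⟨h, -⟩ := exists_some hi
    rw [ns_iff] at h ⊢
    refine ⟨Subtype.ext h.1, ?_⟩
    rcases h.2 with h | h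
    · exact Or.inl fun h' => h (congrArg Subtype.val h')
    · exact Or.inr fun h' => h (congrArg Subtype.val h')
  let P : Fin n → EK A B K := fun i => if hi : p i = 0 then 0 else .some _ _ (hns i hi)
  have hP0 : ∀ i, P i = 0 ↔ p i = 0 := by
    intro i
    by_cases hi : p i = 0
    · simp [P, hi]
    · simp only [P, hi, dif_neg, not_false_iff, iff_false]
      exact WeierstrassCurve.Affine.Point.some_ne_zero _
  have hPX : ∀ i, K.val (X (P i)) = X (p i) := by
    intro i
    by_cases hi : p i = 0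
    · have : P i = 0 := (hP0 i).2 hi
      rw [this, hi, X_zero, X_zero, map_zero]
    · simp only [P, hi, dif_neg, not_false_iff]
      rfl
  have hPY : ∀ i, K.val (Y (P i)) = Y (p i) := by
    intro i
    by_cases hi : p i = 0
    · have : P i = 0 := (hP0 i).2 hi
      rw [this, hi, Y_zero, Y_zero, map_zero]
    · simp only [P, hi, dif_neg, not_false_iff]
      rfl
  refine ⟨K, inferInstance, inferInstance, P, K.val, ⟨isCurve_adjoin ht (x := X (p i0))
    (Or.inl ⟨i0, rfl⟩) h0, ?_⟩, hPX, hPY, hP0, ?_⟩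
  · apply IntermediateField.map_injective K.val
    rw [IntermediateField.adjoin_map, ← AlgHom.fieldRange_eq_map, IntermediateField.fieldRange_val]
    change _ = IntermediateField.adjoin ℂ t
    congr 1
    rw [Set.image_union, ← Set.range_comp, ← Set.range_comp]
    congr 1
    · congr 1; ext i; exact hPX i
    · congr 1; ext i; exact hPY i
  · exact fun hsum => sum_zero_of_map (K.val : K →+* Om) _ _ _ _ rfl rfl two_ne_zero
      (disc_map hD) P p hPX hPY hP0 hsum

end Q36.QD
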