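import Pool.Agent.Q36.QD.Val

/-! Local coordinates at the closed points of a curve in `E ^ n`. -/

namespace Q36.QD

open Pool.Agent.H925R3.DC (crv)
open Pool.Agent.Helper395.CS
open MvPolynomial (aeval eval)

variable {A B : ℂ} {K : Type} [Field K] [Algebra ℂ K] {n : ℕ}
variable {P : Fin n → EK A B K} {s : Fin n → E A B}

theorem disc_zero {F : Type} [Field F] {a b x : F} (h : x ^ 3 + a * x + b = 0)
    (h' : 3 * x ^ 2 + a = 0) : 4 * a ^ 3 + 27 * b ^ 2 = 0 := by
  have ha : a = -3 * x ^ 2 := by linear_combination h'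
  have hb : b = 2 * x ^ 3 := by
    rw [ha] at h
    linear_combination h
  rw [ha, hb]; ring

theorem fin_X {i : Fin n} (hQ : s i ≠ 0) : HasValue P s (X (P i)) (X (s i)) := by
  have h := hasValue_coord (P := P) (s := s) (i, 0)
  simpa [coord, coordAt, chart, hQ] using h

theorem fin_Y {i : Fin n} (hQ : s i ≠ 0) : HasValue P s (Y (P i)) (Y (s i)) := by
  have h := hasValue_coord (P := P) (s := s) (i, 1)
  simpa [coord, coordAt, chart, hQ] using h

theorem inf_z {i : Fin n} (hQ : s i = 0) : HasValue P s (X (P i) / Y (P i)) 0 := by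
  have h := hasValue_coord (P := P) (s := s) (i, 0)
  simpa [coord, coordAt, chart, hQ] using h

theorem inf_w {i : Fin n} (hQ : s i = 0) : HasValue P s (1 / Y (P i)) 0 := by
  have h := hasValue_coord (P := P) (s := s) (i, 1)
  simpa [coord, coordAt, chart, hQ] using h

theorem fin_ne (hs : Mem P s) {i : Fin n} (hQ : s i ≠ 0) : P i ≠ 0 := (hs.1 i).2 hQ

theorem inf_Y_ne (hs : Mem P s) {i : Fin n} (hQ : s i = 0) (hP : P i ≠ 0) : Y (P i) ≠ 0 :=
  ((hs.1 i).1 hQ).resolve_left hP

theorem inf_X_ne (hs : Mem P s) {i : Fin n} (hQ : s i = 0) (hP : P i ≠ 0) : X (P i) ≠ 0 := by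
  intro hX
  have hY := inf_Y_ne hs hQ hP
  have he := eqn hP
  rw [hX] at he
  have hB : algebraMap ℂ K B * (1 / Y (P i)) ^ 2 = 1 := by
    have : Y (P i) ^ 2 = algebraMap ℂ K B := by rw [he]; ring
    field_simp
    linear_combination -this
  have h1 : HasValue P s (algebraMap ℂ K B * (1 / Y (P i)) ^ 2) (B * 0 ^ 2) :=
    (hasValue_const B).mul ((inf_w hQ).pow 2)
  rw [hB] at h1
  have := h1.unique hs hasValue_one
  simp at this

/-- `1 / x` vanishes at infinity. -/
theorem inf_r (hs : Mem P s) {i : Fin n} (hQ : s i = 0) (hP : P i ≠ 0) :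
    HasValue P s (X (P i))⁻¹ 0 := by
  have hY := inf_Y_ne hs hQ hP
  have hX := inf_X_ne hs hQ hP
  have he := eqn hP
  set z := X (P i) / Y (P i) with hz
  set w := 1 / Y (P i) with hw
  have hvz : HasValue P s z 0 := inf_z hQ
  have hvw : HasValue P s w 0 := inf_w hQ
  have h1 : HasValue P s (1 - algebraMap ℂ K B * w ^ 2) 1 :=
    (hasValue_one.sub ((hasValue_const B).mul (hvw.pow 2))).congr rfl (by simp)
  have h1' := h1.ne_zero hs one_ne_zero
  have h2 : HasValue P s (z ^ 2 + algebraMap ℂ K A * w ^ 2) 0 :=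
    ((hvz.pow 2).add ((hasValue_const A).mul (hvw.pow 2))).congr rfl (by simp)
  refine (h2.div hs h1 one_ne_zero).congr ?_ (by simp)
  rw [div_eq_iff h1', hz, hw]
  field_simp
  linear_combination (-1 : K) * he

/-- `y² / x³` has the value `1` at infinity. -/
theorem inf_q (hs : Mem P s) {i : Fin n} (hQ : s i = 0) (hP : P i ≠ 0) :
    HasValue P s (Y (P i) ^ 2 / X (P i) ^ 3) 1 := by
  have hX := inf_X_ne hs hQ hP
  have hr := inf_r hs hQ hP
  have h : HasValue P s (1 + algebraMap ℂ K A * (X (P i))⁻¹ ^ 2 +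
      algebraMap ℂ K B * (X (P i))⁻¹ ^ 3) 1 :=
    ((hasValue_one.add ((hasValue_const A).mul (hr.pow 2))).add
      ((hasValue_const B).mul (hr.pow 3))).congr rfl (by simp)
  refine h.congr ?_ rfl
  rw [eqn hP]
  field_simp

theorem inf_sub_ne (hs : Mem P s) {i : Fin n} (hQ : s i = 0) (hP : P i ≠ 0) (t : ℂ) :
    X (P i) - algebraMap ℂ K t ≠ 0 := by
  intro h
  have hX := inf_X_ne hs hQ hP
  have hr := inf_r hs hQ hP
  have h1 : HasValue P s ((X (P i))⁻¹ * algebraMap ℂ K t) (0 * t) := hr.mul (hasValue_const t)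
  have h2 : (X (P i))⁻¹ * algebraMap ℂ K t = 1 := by
    rw [← sub_eq_zero.1 h]; field_simp
  rw [h2] at h1
  have := h1.unique hs hasValue_one
  simp at this

theorem inf_rt (hs : Mem P s) {i : Fin n} (hQ : s i = 0) (hP : P i ≠ 0) (t : ℂ) :
    HasValue P s (X (P i) - algebraMap ℂ K t)⁻¹ 0 := by
  have hX := inf_X_ne hs hQ hP
  have hr := inf_r hs hQ hP
  have ht := inf_sub_ne hs hQ hP t
  have h1 : HasValue P s (1 - algebraMap ℂ K t * (X (P i))⁻¹) 1 :=
    (hasValue_one.sub ((hasValue_const t).mul hr)).congr rfl (by simp)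
  refine (hr.div hs h1 one_ne_zero).congr ?_ (by simp)
  have h1' := h1.ne_zero hs one_ne_zero
  rw [div_eq_iff h1']
  field_simp

/-- `1 / (x - t)` is the square of the local parameter `x / y` at infinity times a unit. -/
theorem inf_unit (hs : Mem P s) {i : Fin n} (hQ : s i = 0) (hP : P i ≠ 0) (t : ℂ) :
    HasValue P s ((X (P i) - algebraMap ℂ K t)⁻¹ / (X (P i) / Y (P i)) ^ 2) 1 := by
  have hX := inf_X_ne hs hQ hP
  have hY := inf_Y_ne hs hQ hP
  have hr := inf_r hs hQ hP
  have ht := inf_sub_ne hs hQ hP t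
  have hq := inf_q hs hQ hP
  have h1 : HasValue P s (1 - algebraMap ℂ K t * (X (P i))⁻¹) 1 :=
    (hasValue_one.sub ((hasValue_const t).mul hr)).congr rfl (by simp)
  refine (hq.div hs h1 one_ne_zero).congr ?_ (by simp)
  have h1' := h1.ne_zero hs one_ne_zero
  rw [div_eq_iff h1']
  field_simp

theorem param_inf {i : Fin n} (hQ : s i = 0) : param (s i) (P i) = X (P i) / Y (P i) := by
  simp [param, hQ]

theorem param_two {i : Fin n} (hQ : s i ≠ 0) (hY : Y (s i) = 0) : param (s i) (P i) = Y (P i) := by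
  simp [param, hQ, hY]

theorem param_gen {i : Fin n} (hQ : s i ≠ 0) (hY : Y (s i) ≠ 0) :
    param (s i) (P i) = X (P i) - algebraMap ℂ K (X (s i)) := by
  simp [param, hQ, hY]

theorem param_value (i : Fin n) : HasValue P s (param (s i) (P i)) 0 := by
  by_cases hQ : s i = 0
  · rw [param_inf hQ]; exact inf_z hQ
  by_cases hY : Y (s i) = 0
  · rw [param_two hQ hY]
    exact (fin_Y hQ).congr rfl hY
  · rw [param_gen hQ hY]
    exact ((fin_X hQ).sub (hasValue_const _)).congr rfl (sub_self _)

/-- `z` is a multiple of `t` in the local ring. -/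
def Mult (P : Fin n → EK A B K) (s : Fin n → E A B) (t z : K) : Prop :=
  ∃ (w : K) (b : ℂ), HasValue P s w b ∧ z = t * w

theorem Mult.refl (t : K) : Mult P s t t := ⟨1, 1, hasValue_one, by ring⟩

theorem Mult.add {t z w : K} (h : Mult P s t z) (h' : Mult P s t w) : Mult P s t (z + w) := by
  obtain ⟨u, b, h1, rfl⟩ := h
  obtain ⟨u', b', h1', rfl⟩ := h'
  exact ⟨u + u', b + b', h1.add h1', by ring⟩

theorem Mult.mul {t z w : K} {a : ℂ} (h : Mult P s t z) (h' : HasValue P s w a) :
    Mult P s t (w * z) := by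
  obtain ⟨u, b, h1, rfl⟩ := h
  exact ⟨w * u, a * b, h'.mul h1, by ring⟩

theorem Mult.trans {t z w : K} (h : Mult P s t z) (h' : Mult P s z w) : Mult P s t w := by
  obtain ⟨u, b, h1, rfl⟩ := h
  obtain ⟨u', b', h1', rfl⟩ := h'
  exact ⟨u * u', b * b', h1.mul h1', by ring⟩

theorem Mult.zero (t : K) : Mult P s t 0 := ⟨0, 0, hasValue_zero, by ring⟩

theorem Mult.sub {t z w : K} (h : Mult P s t z) (h' : Mult P s t w) : Mult P s t (z - w) := by
  obtain ⟨u, b, h1, rfl⟩ := h
  obtain ⟨u', b', h1', rfl⟩ := h'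
  exact ⟨u - u', b - b', h1.sub h1', by ring⟩

variable (hD : 4 * A ^ 3 + 27 * B ^ 2 ≠ 0)

include hD in
/-- The coordinates near `s` are, up to their values at `s`, multiples of the local parameter. -/
theorem mult_coord (hs : Mem P s) (i : Fin n) (hP : P i ≠ 0) (j : Fin 2) :
    Mult P s (param (s i) (P i)) (coord s P (i, j) - algebraMap ℂ K (coordAt s (i, j))) := by
  by_cases hQ : s i = 0
  · rw [param_inf hQ]
    have hX := inf_X_ne hs hQ hP
    have hY := inf_Y_ne hs hQ hP
    have hr := inf_r hs hQ hP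
    fin_cases j
    · simp [coord, coordAt, chart, hQ]
      exact Mult.refl _
    · simp [coord, coordAt, chart, hQ]
      refine ⟨(X (P i))⁻¹, 0, hr, ?_⟩
      field_simp
  have hx := fin_X (P := P) hQ
  have hy := fin_Y (P := P) hQ
  have he := eqn hP
  have he' := eqn (p := s i) hQ
  have hprod : (X (P i) - algebraMap ℂ K (X (s i))) * (X (P i) ^ 2 + X (P i) *
      algebraMap ℂ K (X (s i)) + algebraMap ℂ K (X (s i)) ^ 2 + algebraMap ℂ K A) =
      Y (P i) ^ 2 - algebraMap ℂ K (Y (s i)) ^ 2 := by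
    have h1 := congrArg (algebraMap ℂ K) he'
    simp only [map_add, map_mul, map_pow] at h1
    linear_combination h1 - he
  have hvh : HasValue P s (X (P i) ^ 2 + X (P i) *
      algebraMap ℂ K (X (s i)) + algebraMap ℂ K (X (s i)) ^ 2 + algebraMap ℂ K A)
      (3 * X (s i) ^ 2 + A) :=
    ((((hx.pow 2).add (hx.mul (hasValue_const _))).add ((hasValue_const _).pow 2)).add
      (hasValue_const A)).congr rfl (by ring)
  by_cases hY : Y (s i) = 0
  · rw [param_two hQ hY]
    have hne : 3 * X (s i) ^ 2 + A ≠ 0 := by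
      intro h0
      apply hD
      rw [hY] at he'
      exact disc_zero (by linear_combination -he') h0
    fin_cases j
    · simp only [coord, coordAt, chart, hQ, if_false]
      refine ⟨Y (P i) / (X (P i) ^ 2 + X (P i) *
      algebraMap ℂ K (X (s i)) + algebraMap ℂ K (X (s i)) ^ 2 + algebraMap ℂ K A), _,
        hy.div hs hvh hne, ?_⟩
      have h0 := hvh.ne_zero hs hne
      rw [hY, map_zero] at hprod
      change X (P i) - algebraMap ℂ K (X (s i)) = _
      rw [← mul_div_assoc, eq_div_iff h0, hprod]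
      ring
    · simp only [coord, coordAt, chart, hQ, if_false]
      change Mult P s (Y (P i)) (Y (P i) - algebraMap ℂ K (Y (s i)))
      rw [hY, map_zero, sub_zero]
      exact Mult.refl _
  · rw [param_gen hQ hY]
    fin_cases j
    · simp only [coord, coordAt, chart, hQ, if_false]
      exact Mult.refl _
    · simp only [coord, coordAt, chart, hQ, if_false]
      change Mult P s _ (Y (P i) - algebraMap ℂ K (Y (s i)))
      have hv2 : HasValue P s (Y (P i) + algebraMap ℂ K (Y (s i))) (2 * Y (s i)) :=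
        (hy.add (hasValue_const _)).congr rfl (by ring)
      have h2ne : 2 * Y (s i) ≠ 0 := mul_ne_zero two_ne_zero hY
      refine ⟨_, _, hvh.div hs hv2 h2ne, ?_⟩
      have h0 := hv2.ne_zero hs h2ne
      rw [← mul_div_assoc, eq_div_iff h0, hprod]
      ring

include hD in
theorem mult_X (hs : Mem P s) (i : Fin n) (hQ : s i ≠ 0) :
    Mult P s (param (s i) (P i)) (X (P i) - algebraMap ℂ K (X (s i))) := by
  have h := mult_coord hD hs i (fin_ne hs hQ) 0
  simpa [coord, coordAt, chart, hQ] using h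

/-- If all the coordinates are, up to their values, multiples of `t`, which vanishes at `s`, then
`S` is smooth at `s`. -/
theorem smooth_of_mult (hs : Mem P s) {t : K} (ht : HasValue P s t 0)
    (h : ∀ i, Mult P s t (coord s P i - algebraMap ℂ K (coordAt s i))) : IsSmoothAt P s := by
  have key : ∀ F : MvPolynomial (Fin n × Fin 2) ℂ,
      Mult P s t (aeval (coord s P) F - algebraMap ℂ K (eval (coordAt s) F)) := by
    intro F
    induction F using MvPolynomial.induction_on with
    | C a =>
      simp only [MvPolynomial.eval_C, MvPolynomial.algHom_C, sub_self]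
      exact Mult.zero t
    | add p q hp hq =>
      refine ((hp.add hq)).trans ?_ 
      have : (aeval (coord s P)) (p + q) - (algebraMap ℂ K) ((eval (coordAt s)) (p + q)) =
        ((aeval (coord s P)) p - (algebraMap ℂ K) ((eval (coordAt s)) p)) +
        ((aeval (coord s P)) q - (algebraMap ℂ K) ((eval (coordAt s)) q)) := by
        rw [map_add, map_add, map_add]; ring
      rw [this]
      exact Mult.refl _
    | mul_X p k hp =>
      have : (aeval (coord s P)) (p * MvPolynomial.X k) -
          (algebraMap ℂ K) ((eval (coordAt s)) (p * MvPolynomial.X k)) =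
          coord s P k * ((aeval (coord s P)) p - (algebraMap ℂ K) ((eval (coordAt s)) p)) +
          algebraMap ℂ K (eval (coordAt s) p) * (coord s P k - algebraMap ℂ K (coordAt s k)) := by
        rw [map_mul, map_mul, map_mul, MvPolynomial.aeval_X, MvPolynomial.eval_X]; ring
      rw [this]
      exact (hp.mul (hasValue_coord k)).add ((h k).mul (hasValue_const _))
  refine ⟨t, ht, fun z hz => ?_⟩
  obtain ⟨F, G, h1, h2, h3⟩ := hz
  have h4 := key F
  rw [h3, zero_mul, map_zero, sub_zero, ← h2] at h4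
  obtain ⟨w, b, hw, hw'⟩ := h4
  have hG := hasValue_aeval (P := P) (s := s) G
  have hG0 := hs.aeval_ne h1
  refine ⟨w / aeval (coord s P) G, _, hw.div hs hG h1, ?_⟩
  rw [← mul_div_assoc, ← hw']
  field_simp

end Q36.QD
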