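import Pool.Agent.Q36.QD.Loc
import Pool.Agent.H475R2.DC_RED
import Pool.Agent.H439DC.DC_REDA
import Pool.Agent.H816R2.DC_REDB
import Pool.Agent.Helper171.DC_REDC

/-! A relation `∑ P_i = 0` between the components of the generic point holds at all closed points. -/

namespace Q36.QD

open Pool.Agent.H925R3.DC (crv)
open Pool.Agent.H475R2.DC_RED
open Pool.Agent.Helper395.CS
open MvPolynomial (aeval eval)

variable {A B : ℂ} {K : Type} [Field K] [Algebra ℂ K] {n : ℕ}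
variable {P : Fin n → EK A B K} {s : Fin n → E A B}

/-- the local ring of `S` at `s` -/
def localRing (_ : Mem P s) : Subring K where
  carrier := {z | ∃ a, HasValue P s z a}
  mul_mem' := by rintro z w ⟨a, h⟩ ⟨b, h'⟩; exact ⟨_, h.mul h'⟩
  one_mem' := ⟨1, hasValue_one⟩
  add_mem' := by rintro z w ⟨a, h⟩ ⟨b, h'⟩; exact ⟨_, h.add h'⟩
  zero_mem' := ⟨0, hasValue_zero⟩
  neg_mem' := by rintro z ⟨a, h⟩; exact ⟨_, h.neg⟩

/-- the values -/
noncomputable def valueHom (hs : Mem P s) : localRing hs →+* ℂ where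
  toFun z := z.2.choose
  map_one' := (1 : localRing hs).2.choose_spec.unique hs hasValue_one
  map_zero' := (0 : localRing hs).2.choose_spec.unique hs hasValue_zero
  map_mul' z w := (z * w).2.choose_spec.unique hs (z.2.choose_spec.mul w.2.choose_spec)
  map_add' z w := (z + w).2.choose_spec.unique hs (z.2.choose_spec.add w.2.choose_spec)

theorem valueHom_eq (hs : Mem P s) {z : K} {a : ℂ} (h : HasValue P s z a) :
    valueHom hs ⟨z, a, h⟩ = a :=
  (⟨z, a, h⟩ : localRing hs).2.choose_spec.unique hs h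

/-- There are a valuation ring `O` of `K` and a homomorphism of `O` to a field, with kernel the maximal
ideal, which is compatible with the values at `s`. -/
theorem exists_place (hs : Mem P s) : ∃ (O : Subring K) (k : Type) (_ : Field k) (φ : O →+* k)
    (hc : ∀ a : ℂ, algebraMap ℂ K a ∈ O),
    (∀ x : K, x ∈ O ∨ x⁻¹ ∈ O) ∧ (∀ x : O, φ x ≠ 0 → (x : K)⁻¹ ∈ O) ∧
    ∀ z a, HasValue P s z a → ∃ hz : z ∈ O, φ ⟨z, hz⟩ = φ ⟨algebraMap ℂ K a, hc a⟩ := by
  have hI : RingHom.ker (valueHom hs) ≠ ⊤ := by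
    intro h
    have h1 : (1 : localRing hs) ∈ RingHom.ker (valueHom hs) := by rw [h]; trivial
    rw [RingHom.mem_ker, map_one] at h1
    exact one_ne_zero h1
  obtain ⟨V, hV, hV'⟩ := Ideal.image_subset_nonunits_valuationSubring _ hI
  have hmem : ∀ z a, HasValue P s z a → z ∈ V := fun z a h => hV ⟨a, h⟩
  have hmax : ∀ z, HasValue P s z 0 → z ∈ V.nonunits := by
    intro z h
    apply hV'
    refine ⟨⟨z, 0, h⟩, ?_, rfl⟩
    change valueHom hs ⟨z, 0, h⟩ = 0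
    exact valueHom_eq hs h
  let φ : V.toSubring →+* IsLocalRing.ResidueField V := (IsLocalRing.residue V)
  refine ⟨V.toSubring, IsLocalRing.ResidueField V, inferInstance, φ,
    fun a => hmem _ a (hasValue_const a), ?_, ?_, ?_⟩
  · exact fun x => V.mem_or_inv_mem x
  · intro x hx
    have hu : IsUnit (⟨x.1, x.2⟩ : V) := by
      by_contra hcon
      apply hx
      change IsLocalRing.residue V ⟨x.1, x.2⟩ = 0
      rw [IsLocalRing.residue_eq_zero_iff]
      exact hcon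
    obtain ⟨u, hu'⟩ := hu
    have h1 : (u : V).1 * ((u⁻¹ : Vˣ) : V).1 = 1 := congrArg Subtype.val (u.mul_inv)
    have h2 : (u : V).1 = x.1 := congrArg Subtype.val hu'
    have h3 : (x : K)⁻¹ = ((u⁻¹ : Vˣ) : V).1 := by
      rw [← h2]
      exact (eq_inv_of_mul_eq_one_right h1).symm
    rw [h3]
    exact ((u⁻¹ : Vˣ) : V).2
  · intro z a h
    refine ⟨hmem z a h, ?_⟩
    have h0 : HasValue P s (z - algebraMap ℂ K a) 0 :=
      (h.sub (hasValue_const a)).congr rfl (sub_self a)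
    have h1 := hmax _ h0
    rw [ValuationSubring.mem_nonunits_iff_exists_mem_maximalIdeal] at h1
    obtain ⟨h2, h3⟩ := h1
    rw [← IsLocalRing.residue_eq_zero_iff] at h3
    have h4 : (⟨z - algebraMap ℂ K a, h2⟩ : V) =
        ⟨z, hmem z a h⟩ - ⟨algebraMap ℂ K a, hmem _ a (hasValue_const a)⟩ := rfl
    rw [h4, map_sub, sub_eq_zero] at h3
    exact h3

open Classical in
theorem sum_mem (hD : 4 * A ^ 3 + 27 * B ^ 2 ≠ 0) (hs : Mem P s) (h0 : ∑ i, P i = 0) :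
    ∑ i, s i = 0 := by
  obtain ⟨O, k, _, φ, hc, hval, hunit, hφ⟩ := exists_place hs
  let c : ℂ →+* O :=
    { toFun := fun a => ⟨algebraMap ℂ K a, hc a⟩
      map_one' := Subtype.ext (map_one _)
      map_zero' := Subtype.ext (map_zero _)
      map_mul' := fun a b => Subtype.ext (map_mul _ a b)
      map_add' := fun a b => Subtype.ext (map_add _ a b) }
  let ψ : ℂ →+* k := φ.comp c
  have h2 : (2 : k) ≠ 0 := by
    have : (2 : k) = ψ 2 := (map_ofNat ψ 2).symm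
    rw [this]
    exact (map_ne_zero ψ).2 two_ne_zero
  have hdk : 4 * ψ A ^ 3 + 27 * ψ B ^ 2 ≠ 0 := by
    have : 4 * ψ A ^ 3 + 27 * ψ B ^ 2 = ψ (4 * A ^ 3 + 27 * B ^ 2) := by
      rw [map_add, map_mul, map_mul, map_pow, map_pow, map_ofNat, map_ofNat]
    rw [this]
    exact (map_ne_zero ψ).2 hD
  let a : O := ⟨algebraMap ℂ K A, hc A⟩
  let b : O := ⟨algebraMap ℂ K B, hc B⟩
  have hd1 : 4 * φ a ^ 3 + 27 * φ b ^ 2 ≠ 0 := hdk
  let φ0 : (⊤ : Subring ℂ) →+* k := ψ.comp (Subring.subtype ⊤)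
  have hval0 : ∀ x : ℂ, x ∈ (⊤ : Subring ℂ) ∨ x⁻¹ ∈ (⊤ : Subring ℂ) := fun x => Or.inl trivial
  have hunit0 : ∀ x : (⊤ : Subring ℂ), φ0 x ≠ 0 → (x : ℂ)⁻¹ ∈ (⊤ : Subring ℂ) :=
    fun x _ => trivial
  let a0 : (⊤ : Subring ℂ) := ⟨A, trivial⟩
  let b0 : (⊤ : Subring ℂ) := ⟨B, trivial⟩
  have hd0 : 4 * φ0 a0 ^ 3 + 27 * φ0 b0 ^ 2 ≠ 0 := hdk
  let ρ : EK A B K → (crv k (φ a) (φ b)).Point := redF φ hval h2 a b hd1
  let ρ0 : E A B → (crv k (φ a) (φ b)).Point := redF φ0 hval0 h2 a0 b0 hd0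
  have hρ : ∀ p q, ρ (p + q) = ρ p + ρ q := fun p q =>
    redF_add φ hval h2 a b hd1 Pool.Agent.H439DC.reda Pool.Agent.H816R2.DCREDB.redb
      Pool.Agent.Helper171.DCREDC.redc hunit p q
  have hρ0 : ∀ p q, ρ0 (p + q) = ρ0 p + ρ0 q := fun p q =>
    redF_add φ0 hval0 h2 a0 b0 hd0 Pool.Agent.H439DC.reda Pool.Agent.H816R2.DCREDB.redb
      Pool.Agent.Helper171.DCREDC.redc hunit0 p q
  let R : EK A B K →+ (crv k (φ a) (φ b)).Point := AddMonoidHom.mk' ρ hρ
  let R0 : E A B →+ (crv k (φ a) (φ b)).Point := AddMonoidHom.mk' ρ0 hρ0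
  have key : ∀ i, R (P i) = R0 (s i) := by
    intro i
    by_cases hQ : s i = 0
    · rw [hQ, map_zero]
      by_cases hP : P i = 0
      · rw [hP, map_zero]
      · obtain ⟨h, hP'⟩ := exists_some hP
        rw [hP']
        refine redF_not φ hval h2 a b hd1 _ _ h ?_
        intro hX
        have hY : Y (P i) ∈ O := y_mem hval a b h hX
        obtain ⟨hz, hz'⟩ := hφ _ _ (inf_w (P := P) hQ)
        have hY0 := inf_Y_ne hs hQ hP
        have h1 : (⟨Y (P i), hY⟩ : O) * ⟨1 / Y (P i), hz⟩ = 1 := by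
          apply Subtype.ext
          change Y (P i) * (1 / Y (P i)) = 1
          field_simp
        have h3 := congrArg φ h1
        rw [map_mul, hz', map_one] at h3
        have h4 : φ ⟨algebraMap ℂ K 0, hc 0⟩ = 0 := by
          have : (⟨algebraMap ℂ K 0, hc 0⟩ : O) = 0 := Subtype.ext (map_zero _)
          rw [this, map_zero]
        rw [h4, mul_zero] at h3
        exact zero_ne_one h3
    · obtain ⟨h, hP'⟩ := exists_some (fin_ne hs hQ)
      obtain ⟨h', hs'⟩ := exists_some hQ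
      obtain ⟨hx, hx'⟩ := hφ _ _ (fin_X (P := P) hQ)
      obtain ⟨hy, hy'⟩ := hφ _ _ (fin_Y (P := P) hQ)
      rw [hP', hs']
      have e1 : ρ (.some (X (P i)) (Y (P i)) h) = .some (φ ⟨X (P i), hx⟩) (φ ⟨Y (P i), hy⟩)
          (red_ns φ h2 a b hd1 ⟨_, hx⟩ ⟨_, hy⟩ h) :=
        redF_mem φ hval h2 a b hd1 ⟨_, hx⟩ ⟨_, hy⟩ h _
      have e2 : ρ0 (.some (X (s i)) (Y (s i)) h') = .some (φ0 ⟨X (s i), trivial⟩)
          (φ0 ⟨Y (s i), trivial⟩) (red_ns φ0 h2 a0 b0 hd0 ⟨_, trivial⟩ ⟨_, trivial⟩ h') :=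
        redF_mem φ0 hval0 h2 a0 b0 hd0 ⟨_, trivial⟩ ⟨_, trivial⟩ h' _
      exact e1.trans ((some_congr _ _ hx' hy').trans e2.symm)
  have h3 : R0 (∑ i, s i) = 0 := by
    rw [map_sum, Finset.sum_congr rfl fun i _ => (key i).symm, ← map_sum, h0, map_zero]
  by_contra hcon
  obtain ⟨h', hs'⟩ := exists_some hcon
  rw [hs'] at h3
  have e2 : ρ0 (.some (X (∑ i, s i)) (Y (∑ i, s i)) h') = .some (φ0 ⟨X (∑ i, s i), trivial⟩)
      (φ0 ⟨Y (∑ i, s i), trivial⟩) (red_ns φ0 h2 a0 b0 hd0 ⟨_, trivial⟩ ⟨_, trivial⟩ h') :=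
    redF_mem φ0 hval0 h2 a0 b0 hd0 ⟨_, trivial⟩ ⟨_, trivial⟩ h' _
  have h4 : ρ0 (.some (X (∑ i, s i)) (Y (∑ i, s i)) h') = 0 := h3
  rw [e2] at h4
  exact absurd h4 (by simp [WeierstrassCurve.Affine.Point.some_ne_zero])

end Q36.QD
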