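import Pool.Agent.Q36.QD.FibB

/-! Quasi-diagonals of genus two, from the double tangents through a point. -/

namespace Q36.QD

open Pool.Agent.H925R3.DC (crv)
open Pool.Agent.H475R2.DC_RED (ns_iff)
open Pool.Agent.Helper395.CS
open MvPolynomial (aeval eval)

variable {A B : ℂ} {K : Type} [Field K] [Algebra ℂ K] {n : ℕ}

/-- `c / (x - c₀) - 2` -/
noncomputable def uu (c₀ c : ℂ) (p : EK A B K) : K :=
  algebraMap ℂ K c / (X p - algebraMap ℂ K c₀) - 2

/-- Any two of the `u_i = c / (x(P_i) - c₀) - 2` are equal or satisfy `u_i² + u_i u_j + u_j² = 3`. -/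
structure Tri (P : Fin n → EK A B K) (c₀ c : ℂ) : Prop where
  hc : c ≠ 0
  tr : ∀ i, Transcendental ℂ (X (P i))
  rel : ∀ i j, X (P i) = X (P j) ∨
    uu c₀ c (P i) ^ 2 + uu c₀ c (P i) * uu c₀ c (P j) + uu c₀ c (P j) ^ 2 = 3

theorem aux1 {F : Type} [Field F] {T c d : F} (hd : d = c - T * 2) (hd0 : d ≠ 0) :
    1 + 2 * (T / d) = c / d := by
  rw [eq_div_iff hd0, add_mul, mul_assoc, div_mul_cancel₀ _ hd0, hd]
  ring

theorem aux2 {F : Type} [Field F] {T T' c d d' : F} (hT : T ≠ 0) (hc : c ≠ 0)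
    (hd : d ≠ 0) (hd' : d' ≠ 0) : T' / d' / (T / d) * (c / d / (c / d')) = T' / T := by
  field_simp

theorem hasValue_two {P : Fin n → EK A B K} {s : Fin n → E A B} : HasValue P s (2 : K) 2 :=
  (hasValue_const 2).congr (map_ofNat _ 2) rfl

theorem hasValue_three {P : Fin n → EK A B K} {s : Fin n → E A B} : HasValue P s (3 : K) 3 :=
  (hasValue_const 3).congr (map_ofNat _ 3) rfl

theorem two_neK : (2 : K) ≠ 0 := by
  intro h
  have h' : algebraMap ℂ K 2 = algebraMap ℂ K 0 := by rw [map_ofNat, map_zero]; exact h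
  exact two_ne_zero ((algebraMap ℂ K).injective h')

namespace Tri

variable {P : Fin n → EK A B K} {c₀ c : ℂ} {s : Fin n → E A B}

theorem ne (H : Tri P c₀ c) (i : Fin n) : P i ≠ 0 := pt_ne_of_trans (H.tr i)

theorem T_ne (H : Tri P c₀ c) (i : Fin n) (a : ℂ) : X (P i) - algebraMap ℂ K a ≠ 0 := by
  intro h
  have := H.tr i
  rw [sub_eq_zero.1 h] at this
  exact this (isAlgebraic_algebraMap a)

theorem c2_ne (H : Tri P c₀ c) (i : Fin n) :
    algebraMap ℂ K c - (X (P i) - algebraMap ℂ K c₀) * 2 ≠ 0 := by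
  intro h
  apply H.T_ne i (c₀ + c / 2)
  have h2 : (2 : K) ≠ 0 := two_neK
  rw [map_add, map_div₀, map_ofNat]
  field_simp
  linear_combination -h

/-- the values at `s` of `u_i`, if `s_i` is at infinity or `x(s_i) ≠ c₀` -/
theorem uu_value (H : Tri P c₀ c) (hs : Mem P s) {i : Fin n} (h : s i = 0 ∨ X (s i) ≠ c₀) :
    ∃ a, HasValue P s (uu c₀ c (P i)) a := by
  by_cases hi : s i = 0
  · have h1 := inf_rt hs hi (H.ne i) c₀
    refine ⟨_, (((hasValue_const c).mul h1).sub hasValue_two).congr ?_ rfl⟩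
    rw [uu, div_eq_mul_inv]
  · have h2 : X (s i) - c₀ ≠ 0 := sub_ne_zero.2 (h.resolve_left hi)
    have h1 := (fin_X (P := P) hi).sub (hasValue_const c₀)
    exact ⟨_, ((hasValue_const c).div hs h1 h2).sub hasValue_two⟩

/-- `w_i = 1 / u_i` -/
theorem w_value (H : Tri P c₀ c) (hs : Mem P s) {i : Fin n} (hi : s i ≠ 0) (h : X (s i) = c₀) :
    HasValue P s ((X (P i) - algebraMap ℂ K c₀) /
      (algebraMap ℂ K c - (X (P i) - algebraMap ℂ K c₀) * 2)) 0 := by
  have h1 : HasValue P s (X (P i) - algebraMap ℂ K c₀) 0 :=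
    ((fin_X (P := P) hi).sub (hasValue_const c₀)).congr rfl (by rw [h, sub_self])
  have h2 : HasValue P s (algebraMap ℂ K c - (X (P i) - algebraMap ℂ K c₀) * 2) c :=
    ((hasValue_const c).sub (h1.mul hasValue_two)).congr rfl (by ring)
  exact (h1.div hs h2 H.hc).congr rfl (by simp)

theorem w_mul_uu (H : Tri P c₀ c) (i : Fin n) : (X (P i) - algebraMap ℂ K c₀) /
      (algebraMap ℂ K c - (X (P i) - algebraMap ℂ K c₀) * 2) * uu c₀ c (P i) = 1 := by
  have h1 := H.c2_ne i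
  have h2 := H.T_ne i c₀
  rw [uu]
  field_simp

/-- All the components of `s` are flexes over `c₀`, if one of them is. -/
theorem node (H : Tri P c₀ c) (hs : Mem P s) {i : Fin n} (hi : s i ≠ 0) (h : X (s i) = c₀)
    (j : Fin n) : s j ≠ 0 ∧ X (s j) = c₀ := by
  by_contra hcon
  have hj : s j = 0 ∨ X (s j) ≠ c₀ := by
    by_cases h0 : s j = 0
    · exact Or.inl h0
    · exact Or.inr fun h' => hcon ⟨h0, h'⟩
  obtain ⟨a, ha⟩ := H.uu_value hs hj
  have hw := H.w_value hs hi h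
  have hm := H.w_mul_uu i
  rcases H.rel i j with hX | hrel
  · -- equal coordinates
    have e : uu c₀ c (P j) = uu c₀ c (P i) := by rw [uu, uu, hX]
    rw [e] at ha
    have h1 := hw.mul ha
    rw [hm, zero_mul] at h1
    exact one_ne_zero (h1.unique hs hasValue_one).symm
  · set w := (X (P i) - algebraMap ℂ K c₀) /
      (algebraMap ℂ K c - (X (P i) - algebraMap ℂ K c₀) * 2) with hwdef
    have h1 : 1 + w * uu c₀ c (P j) + w ^ 2 * uu c₀ c (P j) ^ 2 - 3 * w ^ 2 = 0 := by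
      linear_combination w ^ 2 * hrel - (w * uu c₀ c (P i) + 1) * hm - w * uu c₀ c (P j) * hm
    have h2 : HasValue P s (1 + w * uu c₀ c (P j) + w ^ 2 * uu c₀ c (P j) ^ 2 - 3 * w ^ 2) 1 :=
      (((hasValue_one.add (hw.mul ha)).add ((hw.pow 2).mul (ha.pow 2))).sub
        (hasValue_three.mul (hw.pow 2))).congr rfl (by ring)
    rw [h1] at h2
    exact one_ne_zero (h2.unique hs hasValue_zero)

theorem node_unit (H : Tri P c₀ c) (hs : Mem P s) {i j : Fin n} (hi : s i ≠ 0) (hj : s j ≠ 0)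
    (h : X (s i) = c₀) (h' : X (s j) = c₀) :
    IsUnitAt P s (((X (P j) - algebraMap ℂ K c₀) / (X (P i) - algebraMap ℂ K c₀)) ^ 3) := by
  have hTi := H.T_ne i c₀
  have hTj := H.T_ne j c₀
  rcases H.rel i j with hX | hrel
  · rw [hX, div_self hTj, one_pow]
    exact isUnitAt_one
  have hwi := H.w_value hs hi h
  have hwj := H.w_value hs hj h'
  have hmi := H.w_mul_uu i
  have hmj := H.w_mul_uu j
  have hci := H.c2_ne i
  have hcj := H.c2_ne j
  set wi := (X (P i) - algebraMap ℂ K c₀) /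
      (algebraMap ℂ K c - (X (P i) - algebraMap ℂ K c₀) * 2) with hwi'
  set wj := (X (P j) - algebraMap ℂ K c₀) /
      (algebraMap ℂ K c - (X (P j) - algebraMap ℂ K c₀) * 2) with hwj'
  have hwi0 : wi ≠ 0 := left_ne_zero_of_mul_eq_one hmi
  have hwj0 : wj ≠ 0 := left_ne_zero_of_mul_eq_one hmj
  have hr : wj ^ 2 + wi * wj + wi ^ 2 = 3 * wi ^ 2 * wj ^ 2 := by
    have e1 : uu c₀ c (P i) = wi⁻¹ := eq_inv_of_mul_eq_one_right hmi
    have e2 : uu c₀ c (P j) = wj⁻¹ := eq_inv_of_mul_eq_one_right hmj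
    rw [e1, e2] at hrel
    field_simp at hrel
    linear_combination hrel
  have hcube : (wj / wi) ^ 3 = 1 + 3 * (wj - wi) * (3 * wj ^ 2 * wi - wi - wj) := by
    field_simp
    linear_combination (wj - wi) * (1 + 3 * wi ^ 2) * hr
  have hv1 : HasValue P s ((wj / wi) ^ 3) 1 := by
    rw [hcube]
    refine (hasValue_one.add ((hasValue_three.mul (hwj.sub hwi)).mul
      ((((hasValue_three.mul (hwj.pow 2)).mul hwi).sub hwi).sub hwj))).congr rfl (by ring)
  have hv2 : HasValue P s (1 + 2 * wi) 1 :=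
    (hasValue_one.add (hasValue_two.mul hwi)).congr rfl (by ring)
  have hv3 : HasValue P s (1 + 2 * wj) 1 :=
    (hasValue_one.add (hasValue_two.mul hwj)).congr rfl (by ring)
  have hv4 := hv1.mul ((hv2.div hs hv3 one_ne_zero).pow 3)
  refine (hv4.unit (by norm_num)).congr ?_
  rw [← mul_pow]
  congr 1
  have hcK : algebraMap ℂ K c ≠ 0 := (map_ne_zero _).2 H.hc
  rw [aux1 rfl hci, aux1 rfl hcj]
  exact aux2 hTi hcK hci hcj

end Tri

end Q36.QD
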