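import Pool.Agent.Q36.QD.Tri

/-! Restricted quasi-diagonals in odd powers: the torsion condition and the construction. -/

namespace Q36.QD

open Pool.Agent.H925R3.DC (crv)
open Pool.Agent.H475R2.DC_RED (ns_iff)
open Pool.Agent.Helper395.CS
open MvPolynomial (aeval eval)

variable {A B : ℂ} {K : Type} [Field K] [Algebra ℂ K] {n : ℕ}

namespace Tri

variable {P : Fin n → EK A B K} {c₀ c : ℂ} {s : Fin n → E A B}

theorem unit_of_not_node (H : Tri P c₀ c) (hs : Mem P s) {k : Fin n}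
    (h : ¬ (s k ≠ 0 ∧ X (s k) = c₀)) :
    IsUnitAt P s ((X (P k) - algebraMap ℂ K c₀)⁻¹ /
      localEq (Finsupp.single 0 1) (s k) (P k) ^ 2) := by
  by_cases hk : s k = 0
  · rw [localEq_inf (H.tr k) hk]
    exact (inf_unit hs hk (H.ne k) c₀).unit one_ne_zero
  · rw [localEq_fin hk, one_pow, div_one]
    have h1 := (fin_X (P := P) hk).sub (hasValue_const (P := P) (s := s) c₀)
    have h2 : X (s k) - c₀ ≠ 0 := fun h0 => h ⟨hk, sub_eq_zero.1 h0⟩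
    exact (h1.unit h2).inv hs

theorem localEq_ne (H : Tri P c₀ c) (hs : Mem P s) (k : Fin n) :
    localEq (Finsupp.single 0 1) (s k) (P k) ≠ 0 := by
  by_cases hk : s k = 0
  · rw [localEq_inf (H.tr k) hk]
    exact div_ne_zero (inf_X_ne hs hk (H.ne k)) (inf_Y_ne hs hk (H.ne k))
  · rw [localEq_fin hk]
    exact one_ne_zero

theorem quasi (H : Tri P c₀ c) (hP : IsCurveIn P) :
    IsQuasiDiagonal (Finsupp.single 0 1) P := by
  refine ⟨hP, fun i j => ⟨6, by norm_num, ?_⟩⟩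
  have hTi := H.T_ne i c₀
  have hTj := H.T_ne j c₀
  refine ⟨((X (P j) - algebraMap ℂ K c₀) / (X (P i) - algebraMap ℂ K c₀)) ^ 3,
    pow_ne_zero _ (div_ne_zero hTj hTi), fun s hs => ?_⟩
  by_cases hi : s i ≠ 0 ∧ X (s i) = c₀
  · obtain ⟨hj0, hjX⟩ := H.node hs hi.1 hi.2 j
    rw [localEq_fin hi.1, localEq_fin hj0, one_pow, mul_one, div_one]
    exact H.node_unit hs hi.1 hj0 hi.2 hjX
  · have hj : ¬ (s j ≠ 0 ∧ X (s j) = c₀) := fun h => hi (H.node hs h.1 h.2 i)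
    have h1 := (H.unit_of_not_node hs hi).pow 3
    have h2 := ((H.unit_of_not_node hs hj).pow 3).inv hs
    refine (h1.mul h2).congr ?_
    have e1 := H.localEq_ne hs i
    have e2 := H.localEq_ne hs j
    field_simp

end Tri

/-! ### The construction -/

/-- the cubic with a flex over `c₀` -/
theorem exists_params (hD : 4 * A ^ 3 + 27 * B ^ 2 ≠ 0) (hA : A ≠ 0) : ∃ c₀ c : ℂ, c₀ ≠ 0 ∧ c ≠ 0 ∧
    A = -3 * c₀ ^ 2 - 2 * c * c₀ ∧ B = 2 * c₀ ^ 3 + 2 * c * c₀ ^ 2 + c ^ 2 * c₀ / 3 := by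
  let q : Polynomial ℂ := Polynomial.C 3 * Polynomial.X ^ 4 + Polynomial.C (6 * A) * Polynomial.X ^ 2 +
    Polynomial.C (12 * B) * Polynomial.X + Polynomial.C (-A ^ 2)
  have hq : q.degree ≠ 0 := by
    intro h
    have h1 : q.natDegree = 0 := Polynomial.natDegree_eq_of_degree_eq_some h
    have h2 := Polynomial.coeff_eq_zero_of_natDegree_lt (p := q) (n := 4) (by omega)
    have h3 : ∀ a b d : ℂ, (Polynomial.C 3 * Polynomial.X ^ 4 + Polynomial.C a * Polynomial.X ^ 2 +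
        Polynomial.C b * Polynomial.X + Polynomial.C d : Polynomial ℂ).coeff 4 = 3 := by
      intro a b d
      simp [Polynomial.coeff_X, Polynomial.coeff_C]
    rw [h3] at h2
    norm_num at h2
  obtain ⟨c₀, h0⟩ := IsAlgClosed.exists_root q hq
  have h1 : 3 * c₀ ^ 4 + 6 * A * c₀ ^ 2 + 12 * B * c₀ - A ^ 2 = 0 := by
    have := h0
    simp [q, Polynomial.IsRoot] at this
    linear_combination this
  have hc₀ : c₀ ≠ 0 := by
    rintro rfl
    apply hA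
    have : A ^ 2 = 0 := by linear_combination -h1
    exact pow_eq_zero_iff two_ne_zero |>.1 this
  refine ⟨c₀, -(3 * c₀ ^ 2 + A) / (2 * c₀), hc₀, ?_, ?_, ?_⟩
  · intro h
    have h2 : 3 * c₀ ^ 2 + A = 0 := by
      rcases div_eq_zero_iff.1 h with h | h
      · exact neg_eq_zero.1 h
      · exact absurd h (mul_ne_zero two_ne_zero hc₀)
    apply hD
    have hA' : A = -3 * c₀ ^ 2 := by linear_combination h2
    have hB' : 12 * c₀ * (B - 2 * c₀ ^ 3) = 0 := by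
      rw [hA'] at h1
      linear_combination h1
    have hB'' : B = 2 * c₀ ^ 3 := by
      rcases mul_eq_zero.1 hB' with h | h
      · exact absurd h (mul_ne_zero (by norm_num) hc₀)
      · linear_combination h
    rw [hA', hB'']; ring
  · field_simp
    ring
  · field_simp
    linear_combination h1

theorem exists_omega : ∃ ω : ℂ, ω ^ 2 + ω + 1 = 0 := by
  let q : Polynomial ℂ := Polynomial.X ^ 2 + Polynomial.X + 1
  have hq : q.degree ≠ 0 := by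
    intro h
    have h1 : q.natDegree = 0 := Polynomial.natDegree_eq_of_degree_eq_some h
    have h2 := Polynomial.coeff_eq_zero_of_natDegree_lt (p := q) (n := 2) (by omega)
    simp [q, Polynomial.coeff_X, Polynomial.coeff_one] at h2
  obtain ⟨ω, h0⟩ := IsAlgClosed.exists_root q hq
  refine ⟨ω, ?_⟩
  simpa [q, Polynomial.IsRoot] using h0

section Construction

variable {F : Type} [Field F]

/-- the equation of the curve at the point with parameter `z`, where `e = z³` -/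
theorem on_curve {c₀ c z y e : F} (h3 : (3 : F) ≠ 0) (hz : z + 1 ≠ 0) (he : z ^ 3 = e)
    (hy : y ^ 2 = c ^ 2 * c₀ / 3 * (e + 1) ^ 2 + c ^ 3 * e) :
    (y / (z + 1) ^ 3) ^ 2 = (c₀ + c * z / (z + 1) ^ 2) ^ 3 +
      (-3 * c₀ ^ 2 - 2 * c * c₀) * (c₀ + c * z / (z + 1) ^ 2) +
      (2 * c₀ ^ 3 + 2 * c * c₀ ^ 2 + c ^ 2 * c₀ / 3) := by
  rw [div_pow, hy, ← he]
  field_simp
  ring

theorem uu_rel {c c₀ z w : F} (hc : c ≠ 0) (hz : z + 1 ≠ 0) (hw : w + 1 ≠ 0) (hz0 : z ≠ 0)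
    (hw0 : w ≠ 0) (h : z ^ 2 + z * w + w ^ 2 = 0) :
    (c / (c₀ + c * z / (z + 1) ^ 2 - c₀) - 2) ^ 2 +
      (c / (c₀ + c * z / (z + 1) ^ 2 - c₀) - 2) * (c / (c₀ + c * w / (w + 1) ^ 2 - c₀) - 2) +
      (c / (c₀ + c * w / (w + 1) ^ 2 - c₀) - 2) ^ 2 = 3 := by
  have key : ∀ z : F, z + 1 ≠ 0 → z ≠ 0 → c / (c₀ + c * z / (z + 1) ^ 2 - c₀) - 2 = z + z⁻¹ := by
    intro z hz hz0
    have : c₀ + c * z / (z + 1) ^ 2 - c₀ = c * z / (z + 1) ^ 2 := by ring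
    rw [this]
    field_simp
    ring
  rw [key z hz hz0, key w hw hw0]
  field_simp
  linear_combination (z ^ 2 * w ^ 2 + z * w + 1) * h

theorem z_formula {z e : F} (hz : z + 1 ≠ 0) (he : z ^ 3 = e) (he1 : e + 1 ≠ 0) :
    z / (z + 1) ^ 2 = (e * z ^ 2 - 2 * e * z + 3 * e - 2 * z ^ 2 + z) / (e + 1) ^ 2 := by
  rw [div_eq_div_iff (pow_ne_zero 2 hz) (pow_ne_zero 2 he1), ← he]
  ring

theorem y_formula {c₀ c z y e : F} (h3 : (3 : F) ≠ 0) (hc : c ≠ 0) (hz : z + 1 ≠ 0)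
    (he : z ^ 3 = e) (he1 : e + 1 ≠ 0) : y / (z + 1) ^ 3 = -3 * y / (c * (e + 1)) *
      (c₀ + c * z / (z + 1) ^ 2 - (c₀ + c / 3)) := by
  have h : e + 1 = (z + 1) * (z ^ 2 - z + 1) := by rw [← he]; ring
  have h2 : -3 * y / (c * (e + 1)) * (c₀ + c * z / (z + 1) ^ 2 - (c₀ + c / 3)) =
      y * ((z + 1) ^ 2 - 3 * z) / ((e + 1) * (z + 1) ^ 2) := by
    field_simp
    ring
  rw [h2, div_eq_div_iff (pow_ne_zero 3 hz) (mul_ne_zero he1 (pow_ne_zero 2 hz)), h]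
  ring

theorem sum_three [DecidableEq F] {a b c₀ c z0 z1 z2 e y : F} (h3 : (3 : F) ≠ 0) (hc : c ≠ 0)
    (hz0 : z0 + 1 ≠ 0) (hz1 : z1 + 1 ≠ 0) (hz2 : z2 + 1 ≠ 0) (e0 : z0 ^ 3 = e) (e1 : z1 ^ 3 = e)
    (e2 : z2 ^ 3 = e) (he1 : e + 1 ≠ 0) (hs1 : z0 + z1 + z2 = 0)
    (hs2 : z0 ^ 2 + z1 ^ 2 + z2 ^ 2 = 0)
    (hy : y ^ 2 = c ^ 2 * c₀ / 3 * (e + 1) ^ 2 + c ^ 3 * e)
    (hne : c₀ + c * z0 / (z0 + 1) ^ 2 ≠ c₀ + c * z1 / (z1 + 1) ^ 2)
    (n0 : (crv F a b).Nonsingular (c₀ + c * z0 / (z0 + 1) ^ 2) (y / (z0 + 1) ^ 3))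
    (n1 : (crv F a b).Nonsingular (c₀ + c * z1 / (z1 + 1) ^ 2) (y / (z1 + 1) ^ 3))
    (n2 : (crv F a b).Nonsingular (c₀ + c * z2 / (z2 + 1) ^ 2) (y / (z2 + 1) ^ 3)) :
    (.some _ _ n0 : (crv F a b).Point) + .some _ _ n1 + .some _ _ n2 = 0 := by
  have f0 := y_formula (c₀ := c₀) (y := y) h3 hc hz0 e0 he1
  have f1 := y_formula (c₀ := c₀) (y := y) h3 hc hz1 e1 he1
  have f2 := y_formula (c₀ := c₀) (y := y) h3 hc hz2 e2 he1
  set l := -3 * y / (c * (e + 1)) with hl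
  have hsum : c₀ + c * z0 / (z0 + 1) ^ 2 + (c₀ + c * z1 / (z1 + 1) ^ 2) +
      (c₀ + c * z2 / (z2 + 1) ^ 2) = l ^ 2 := by
    have g0 := z_formula hz0 e0 he1
    have g1 := z_formula hz1 e1 he1
    have g2 := z_formula hz2 e2 he1
    rw [mul_div_assoc, mul_div_assoc, mul_div_assoc, g0, g1, g2, hl, div_pow, mul_pow, hy]
    field_simp
    linear_combination (e * c - 2 * c) * hs2 + (-2 * e * c + c) * hs1
  have hslope : l = (crv F a b).slope (c₀ + c * z0 / (z0 + 1) ^ 2) (c₀ + c * z1 / (z1 + 1) ^ 2)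
      (y / (z0 + 1) ^ 3) (y / (z1 + 1) ^ 3) := by
    rw [WeierstrassCurve.Affine.slope_of_X_ne hne, eq_div_iff (sub_ne_zero.2 hne), f0, f1]
    ring
  obtain ⟨h', hh⟩ := Pool.Agent.H439DC.reda_add a b _ _ _ _ l (c₀ + c * z2 / (z2 + 1) ^ 2)
    (-(y / (z2 + 1) ^ 3)) n0 n1 (fun h => hne h.1) hslope (by rw [← hsum]; ring)
    (by rw [f2, f0]; ring)
  rw [hh]
  have hneg : (.some _ _ h' : (crv F a b).Point) = -.some _ _ n2 := by
    rw [WeierstrassCurve.Affine.Point.neg_some]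
    exact Pool.Agent.H475R2.DC_RED.some_congr _ _ rfl (Pool.Agent.H475R2.DC_RED.negY_crv _ _ _ _).symm
  rw [hneg, neg_add_cancel]

end Construction

end Q36.QD
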