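import Pool.Agent.Q36.QD.TriB

/-! Restricted quasi-diagonals in odd powers of `E`: existence. -/

namespace Q36.QD

open Pool.Agent.H925R3.DC (crv)
open Pool.Agent.Helper395.CS

variable {A B : ℂ}

theorem mem_of_alg {K : Type} [Field K] [Algebra ℂ K] {x : K} (h : IsAlgebraic ℂ x) :
    ∃ a : ℂ, algebraMap ℂ K a = x :=
  minpoly.mem_range_of_degree_eq_one ℂ x
    (IsAlgClosed.degree_eq_one_of_irreducible ℂ (minpoly.irreducible h.isIntegral))

open Classical in
/-- three points of `E` with sum zero -/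
theorem exists_three (hD : 4 * A ^ 3 + 27 * B ^ 2 ≠ 0) (hA : A ≠ 0) :
    ∃ (c₀ c : ℂ) (q : Fin 3 → EK A B Om), c ≠ 0 ∧ (∀ i, Transcendental ℂ (X (q i))) ∧
      (∀ i j, X (q i) = X (q j) ∨ uu c₀ c (q i) ^ 2 + uu c₀ c (q i) * uu c₀ c (q j) +
        uu c₀ c (q j) ^ 2 = 3) ∧ q 0 + q 1 + q 2 = 0 := by
  obtain ⟨c₀, c, hc₀, hc, hAe, hBe⟩ := exists_params hD hA
  obtain ⟨ω, hω⟩ := exists_omega
  obtain ⟨h, hh⟩ := exists_transc
  have hω0 : ω ≠ 0 := by rintro rfl; norm_num at hω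
  have hω1 : ω ≠ 1 := by rintro rfl; norm_num at hω
  set C₀ := algebraMap ℂ Om c₀ with hC₀
  set C := algebraMap ℂ Om c with hC
  set w := algebraMap ℂ Om ω with hw
  have hC0 : C ≠ 0 := (map_ne_zero _).2 hc
  have hw0 : w ≠ 0 := (map_ne_zero _).2 hω0
  have hw1 : w ≠ 1 := by
    intro h1
    rw [← map_one (algebraMap ℂ Om)] at h1
    exact hω1 ((algebraMap ℂ Om).injective h1)
  have hw2 : w ^ 2 + w + 1 = 0 := by
    have := congrArg (algebraMap ℂ Om) hω
    rw [map_add, map_add, map_pow, map_one, map_zero] at this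
    exact this
  have hh0 : h ≠ 0 := ne_zero_of_trans hh
  have hAK : algebraMap ℂ Om A = -3 * C₀ ^ 2 - 2 * C * C₀ := by
    rw [hAe]
    simp only [map_sub, map_mul, map_neg, map_pow, map_ofNat]
    rfl
  have hBK : algebraMap ℂ Om B = 2 * C₀ ^ 3 + 2 * C * C₀ ^ 2 + C ^ 2 * C₀ / 3 := by
    rw [hBe]
    simp only [map_add, map_mul, map_pow, map_ofNat, map_div₀]
    rfl
  have h3 : (3 : Om) ≠ 0 := three_ne_zero
  obtain ⟨z, hz⟩ : ∃ z : Fin 3 → Om, z = ![h, w * h, w ^ 2 * h] := ⟨_, rfl⟩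
  have z0 : z 0 = h := by rw [hz]; rfl
  have z1 : z 1 = w * h := by rw [hz]; rfl
  have z2 : z 2 = w ^ 2 * h := by rw [hz]; rfl
  obtain ⟨e, he⟩ : ∃ e : Om, e = h ^ 3 := ⟨_, rfl⟩
  have hze : ∀ k, z k ^ 3 = e := by
    intro k
    have hw3 : w ^ 3 = 1 := by linear_combination (w - 1) * hw2
    fin_cases k
    · change z 0 ^ 3 = e
      rw [z0, he]
    · change z 1 ^ 3 = e
      rw [z1, he, mul_pow, hw3, one_mul]
    · change z 2 ^ 3 = e
      rw [z2, he, mul_pow, ← pow_mul, mul_comm 2 3, pow_mul, hw3, one_pow, one_mul]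
  have he1 : e + 1 ≠ 0 := by
    intro h1
    have := quartic_zero hh (k4 := 0) (k3 := 1) (k2 := 0) (k1 := 0) (k0 := 1) (by
      rw [map_zero, map_one]
      rw [he] at h1
      linear_combination h1)
    exact one_ne_zero this.2
  have hzk : ∀ k, z k + 1 ≠ 0 := by
    intro k h1
    apply he1
    rw [← hze k]
    linear_combination (z k ^ 2 - z k + 1) * h1
  have hzk0 : ∀ k, z k ≠ 0 := by
    intro k h1
    have := hze k
    rw [h1, he] at this
    exact hh0 (pow_eq_zero_iff three_ne_zero |>.1 (by rw [← this]; ring))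
  have hzc : ∀ k, ∃ a : ℂ, a ≠ 0 ∧ z k = algebraMap ℂ Om a * h := by
    intro k
    fin_cases k
    · exact ⟨1, one_ne_zero, by change z 0 = _; rw [z0, map_one, one_mul]⟩
    · exact ⟨ω, hω0, z1⟩
    · exact ⟨ω ^ 2, pow_ne_zero _ hω0, by change z 2 = _; rw [z2, map_pow]⟩
  obtain ⟨y, hy⟩ : ∃ y : Om, y ^ 2 = C ^ 2 * C₀ / 3 * (e + 1) ^ 2 + C ^ 3 * e :=
    IsAlgClosed.exists_pow_nat_eq _ two_pos
  have hcv : ∀ k, (y / (z k + 1) ^ 3) ^ 2 = (C₀ + C * z k / (z k + 1) ^ 2) ^ 3 +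
      algebraMap ℂ Om A * (C₀ + C * z k / (z k + 1) ^ 2) + algebraMap ℂ Om B := by
    intro k
    rw [hAK, hBK]
    exact on_curve h3 (hzk k) (hze k) hy
  have hrel : ∀ i j, z i = z j ∨ z i ^ 2 + z i * z j + z j ^ 2 = 0 := by
    have e01 : z 0 ^ 2 + z 0 * z 1 + z 1 ^ 2 = 0 := by
      rw [z0, z1]; linear_combination h ^ 2 * hw2
    have e02 : z 0 ^ 2 + z 0 * z 2 + z 2 ^ 2 = 0 := by
      rw [z0, z2]; linear_combination h ^ 2 * (w ^ 2 - w + 1) * hw2
    have e12 : z 1 ^ 2 + z 1 * z 2 + z 2 ^ 2 = 0 := by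
      rw [z1, z2]; linear_combination h ^ 2 * w ^ 2 * hw2
    intro i j
    fin_cases i <;> fin_cases j
    · exact Or.inl rfl
    · exact Or.inr e01
    · exact Or.inr e02
    · exact Or.inr (by change z 1 ^ 2 + z 1 * z 0 + z 0 ^ 2 = 0; linear_combination e01)
    · exact Or.inl rfl
    · exact Or.inr e12
    · exact Or.inr (by change z 2 ^ 2 + z 2 * z 0 + z 0 ^ 2 = 0; linear_combination e02)
    · exact Or.inr (by change z 2 ^ 2 + z 2 * z 1 + z 1 ^ 2 = 0; linear_combination e12)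
    · exact Or.inl rfl
  refine ⟨c₀, c, fun k => mkPt two_ne_zero (disc_map hD) _ _ (hcv k), hc, ?_, ?_, ?_⟩
  · intro k halg
    obtain ⟨a, ha⟩ := mem_of_alg halg
    change algebraMap ℂ Om a = C₀ + C * z k / (z k + 1) ^ 2 at ha
    obtain ⟨b, hb, hb'⟩ := hzc k
    have hk := hzk k
    have e1 : (C₀ - algebraMap ℂ Om a) * (z k + 1) ^ 2 + C * z k = 0 := by
      rw [ha]; field_simp; ring
    have hq := quartic_zero hh (k4 := 0) (k3 := 0) (k2 := (c₀ - a) * b ^ 2)
      (k1 := 2 * (c₀ - a) * b + c * b) (k0 := c₀ - a) (by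
        rw [hb'] at e1
        simp only [map_zero, map_mul, map_sub, map_pow, map_add, map_ofNat]
        linear_combination e1)
    have e2 : C₀ - algebraMap ℂ Om a = 0 := by rw [hC₀, ← map_sub, hq.2, map_zero]
    rw [e2, zero_mul, zero_add] at e1
    exact mul_ne_zero hC0 (hzk0 k) e1
  · intro i j
    rcases hrel i j with h1 | h1
    · left
      change C₀ + C * z i / (z i + 1) ^ 2 = C₀ + C * z j / (z j + 1) ^ 2
      rw [h1]
    · right
      exact uu_rel hC0 (hzk i) (hzk j) (hzk0 i) (hzk0 j) h1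
  · refine sum_three h3 hC0 (hzk 0) (hzk 1) (hzk 2) (hze 0) (hze 1) (hze 2) he1 ?_ ?_ hy ?_ _ _ _
    · rw [z0, z1, z2]; linear_combination h * hw2
    · rw [z0, z1, z2]; linear_combination h ^ 2 * (w ^ 2 - w + 1) * hw2
    · intro h1
      have k0 := hzk 0
      have k1 := hzk 1
      have h2 : C * ((z 0 - z 1) * (1 - z 0 * z 1)) = 0 := by
        have h3 : C * z 0 / (z 0 + 1) ^ 2 = C * z 1 / (z 1 + 1) ^ 2 := by linear_combination h1
        rw [div_eq_div_iff (pow_ne_zero 2 k0) (pow_ne_zero 2 k1)] at h3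
        linear_combination h3
      rcases mul_eq_zero.1 h2 with h2 | h2
      · exact hC0 h2
      rcases mul_eq_zero.1 h2 with h2 | h2
      · rw [z0, z1] at h2
        have : (1 - w) * h = 0 := by linear_combination h2
        rcases mul_eq_zero.1 this with h4 | h4
        · exact hw1 (by linear_combination -h4)
        · exact hh0 h4
      · rw [z0, z1] at h2
        have := quartic_zero hh (k4 := 0) (k3 := 0) (k2 := -ω) (k1 := 0) (k0 := 1) (by
          rw [map_zero, map_one, map_neg]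
          linear_combination h2)
        exact one_ne_zero this.2

open Classical in
/-- the tuple `q 0, q 1, q 2, q 0, -q 0, q 0, -q 0, …` -/
noncomputable def gg (q : Fin 3 → EK A B Om) : ℕ → EK A B Om
  | 0 => q 0
  | 1 => q 1
  | 2 => q 2
  | k + 3 => if Even k then q 0 else -q 0

theorem X_gg (q : Fin 3 → EK A B Om) (i : ℕ) : ∃ k, X (gg q i) = X (q k) := by
  match i with
  | 0 => exact ⟨0, rfl⟩
  | 1 => exact ⟨1, rfl⟩
  | 2 => exact ⟨2, rfl⟩
  | k + 3 =>
    refine ⟨0, ?_⟩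
    rw [gg]
    split_ifs
    · rfl
    · exact X_neg _

open Classical in
theorem sum_gg (q : Fin 3 → EK A B Om) (h : q 0 + q 1 + q 2 = 0) (m : ℕ) :
    ∑ i ∈ Finset.range (2 * m + 3), gg q i = 0 := by
  induction m with
  | zero =>
    simp only [mul_zero, zero_add, Finset.sum_range_succ, Finset.sum_range_zero]
    exact h
  | succ m ih =>
    rw [show 2 * (m + 1) + 3 = (2 * m + 3) + 1 + 1 by ring, Finset.sum_range_succ,
      Finset.sum_range_succ, ih, zero_add]
    have e1 : gg q (2 * m + 3) = q 0 := by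
      rw [gg, if_pos (even_two_mul m)]
    have e2 : gg q (2 * m + 3 + 1) = -q 0 := by
      rw [show 2 * m + 3 + 1 = (2 * m + 1) + 3 by ring, gg, if_neg]
      rw [Nat.not_even_iff_odd]
      exact odd_two_mul_add_one m
    rw [e1, e2, add_neg_cancel]

/-- Restricted quasi-diagonals in the odd powers of `E`, if `j(E) ≠ 0`. -/
theorem exists_odd (hD : 4 * A ^ 3 + 27 * B ^ 2 ≠ 0) (hA : A ≠ 0) {n : ℕ} (hn : Odd n)
    (h3 : 3 ≤ n) :
    ∃ (K : Type) (_ : Field K) (_ : Algebra ℂ K) (P : Fin n → EK A B K),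
      IsQuasiDiagonal (Finsupp.single 0 1) P ∧ SumConst P := by
  classical
  obtain ⟨c₀, c, q, hc, htr, hrel, hsum⟩ := exists_three hD hA
  obtain ⟨m, rfl⟩ : ∃ m, n = 2 * m + 3 := by
    obtain ⟨k, rfl⟩ := hn
    exact ⟨k - 1, by omega⟩
  have htr' : ∀ i, Transcendental ℂ (X (gg q i)) := by
    intro i
    obtain ⟨k, hk⟩ := X_gg q i
    rw [hk]
    exact htr k
  obtain ⟨K, _, _, P, j, hP, hPX, hPY, hP0, hPs⟩ := exists_curve hD
    (fun i : Fin (2 * m + 3) => gg q i) (i0 := ⟨0, by omega⟩) (htr' 0)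
  have hinj : Function.Injective j := j.toRingHom.injective
  have huu : ∀ i, j (uu c₀ c (P i)) = uu c₀ c (gg q i) := by
    intro i
    rw [uu, uu, map_sub, map_div₀, map_sub, hPX, j.commutes, j.commutes, map_ofNat]
  have H : Tri P c₀ c := by
    refine ⟨hc, ?_, ?_⟩
    · intro i h
      apply htr' i
      have h2 : X (gg q i) = j (X (P i)) := (hPX i).symm
      rw [h2]
      exact (isAlgebraic_algHom_iff j hinj).2 h
    · intro i i'
      obtain ⟨k, hk⟩ := X_gg q i
      obtain ⟨k', hk'⟩ := X_gg q i'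
      rcases hrel k k' with h | h
      · left
        apply hinj
        rw [hPX, hPX, hk, hk', h]
      · right
        apply hinj
        rw [map_add, map_add, map_mul, map_pow, map_pow, huu, huu, map_ofNat]
        have e1 : uu c₀ c (gg q i) = uu c₀ c (q k) := by rw [uu, uu, hk]
        have e2 : uu c₀ c (gg q i') = uu c₀ c (q k') := by rw [uu, uu, hk']
        rw [e1, e2, h]
  refine ⟨K, inferInstance, inferInstance, P, H.quasi hP, ⟨0, fun s hms => ?_⟩⟩
  have h0 := hPs (by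
    have := sum_gg q hsum m
    rw [Finset.sum_range] at this
    convert this)
  convert sum_mem hD hms (by convert h0)

end Q36.QD
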