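import Pool.Agent.Q36.QD.Defs

/-! Calculus of values of rational functions at closed points. -/

namespace Q36.QD

open Pool.Agent.H925R3.DC (crv)
open Pool.Agent.Helper395.CS
open MvPolynomial (aeval eval)

variable {A B : ℂ} {K : Type} [Field K] [Algebra ℂ K] {n : ℕ}
variable {P : Fin n → EK A B K} {s : Fin n → E A B}

theorem Mem.aeval_ne (hs : Mem P s) {G : MvPolynomial (Fin n × Fin 2) ℂ}
    (h : eval (coordAt s) G ≠ 0) : aeval (coord s P) G ≠ 0 := fun h0 => h (hs.2 G h0)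

theorem hasValue_const (c : ℂ) : HasValue P s (algebraMap ℂ K c) c :=
  ⟨MvPolynomial.C c, 1, by simp, by simp, by simp⟩

theorem hasValue_zero : HasValue P s (0 : K) 0 := by
  simpa using hasValue_const (P := P) (s := s) 0

theorem hasValue_one : HasValue P s (1 : K) 1 := by
  simpa using hasValue_const (P := P) (s := s) 1

theorem hasValue_coord (i : Fin n × Fin 2) : HasValue P s (coord s P i) (coordAt s i) :=
  ⟨MvPolynomial.X i, 1, by simp, by simp, by simp⟩

theorem HasValue.add {z w : K} {a b : ℂ} (hz : HasValue P s z a) (hw : HasValue P s w b) :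
    HasValue P s (z + w) (a + b) := by
  obtain ⟨F, G, h1, h2, h3⟩ := hz
  obtain ⟨F', G', h1', h2', h3'⟩ := hw
  refine ⟨F * G' + F' * G, G * G', ?_, ?_, ?_⟩
  · rw [map_mul]; exact mul_ne_zero h1 h1'
  · rw [map_mul, map_add, map_mul, map_mul, ← h2, ← h2']; ring
  · rw [map_mul, map_add, map_mul, map_mul, h3, h3']; ring

theorem HasValue.mul {z w : K} {a b : ℂ} (hz : HasValue P s z a) (hw : HasValue P s w b) :
    HasValue P s (z * w) (a * b) := by
  obtain ⟨F, G, h1, h2, h3⟩ := hz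
  obtain ⟨F', G', h1', h2', h3'⟩ := hw
  refine ⟨F * F', G * G', ?_, ?_, ?_⟩
  · rw [map_mul]; exact mul_ne_zero h1 h1'
  · rw [map_mul, map_mul, ← h2, ← h2']; ring
  · rw [map_mul, map_mul, h3, h3']; ring

theorem HasValue.neg {z : K} {a : ℂ} (hz : HasValue P s z a) : HasValue P s (-z) (-a) := by
  obtain ⟨F, G, h1, h2, h3⟩ := hz
  refine ⟨-F, G, h1, ?_, ?_⟩
  · rw [map_neg, ← h2]; ring
  · rw [map_neg, h3]; ring

theorem HasValue.sub {z w : K} {a b : ℂ} (hz : HasValue P s z a) (hw : HasValue P s w b) :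
    HasValue P s (z - w) (a - b) := by
  rw [sub_eq_add_neg, sub_eq_add_neg]
  exact hz.add hw.neg

theorem HasValue.pow {z : K} {a : ℂ} (hz : HasValue P s z a) (m : ℕ) :
    HasValue P s (z ^ m) (a ^ m) := by
  induction m with
  | zero => simpa using hasValue_one
  | succ m ih => rw [pow_succ, pow_succ]; exact ih.mul hz

theorem HasValue.ne_zero (hs : Mem P s) {z : K} {a : ℂ} (hz : HasValue P s z a) (ha : a ≠ 0) :
    z ≠ 0 := by
  rintro rfl
  obtain ⟨F, G, h1, h2, h3⟩ := hz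
  rw [zero_mul] at h2
  have h4 := hs.2 F h2.symm
  rw [h3] at h4
  exact mul_ne_zero ha h1 h4

theorem HasValue.inv (hs : Mem P s) {z : K} {a : ℂ} (hz : HasValue P s z a) (ha : a ≠ 0) :
    HasValue P s z⁻¹ a⁻¹ := by
  have hz0 := hz.ne_zero hs ha
  obtain ⟨F, G, h1, h2, h3⟩ := hz
  refine ⟨G, F, ?_, ?_, ?_⟩
  · rw [h3]; exact mul_ne_zero ha h1
  · rw [← h2]; field_simp
  · rw [h3]; field_simp

theorem HasValue.div (hs : Mem P s) {z w : K} {a b : ℂ} (hz : HasValue P s z a)
    (hw : HasValue P s w b) (hb : b ≠ 0) : HasValue P s (z / w) (a / b) := by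
  rw [div_eq_mul_inv, div_eq_mul_inv]
  exact hz.mul (hw.inv hs hb)

theorem HasValue.unique (hs : Mem P s) {z : K} {a b : ℂ} (hz : HasValue P s z a)
    (hw : HasValue P s z b) : a = b := by
  by_contra hab
  have h := (hz.sub hw).ne_zero hs (sub_ne_zero.2 hab)
  exact h (sub_self z)

theorem hasValue_aeval (F : MvPolynomial (Fin n × Fin 2) ℂ) :
    HasValue P s (aeval (coord s P) F) (eval (coordAt s) F) :=
  ⟨F, 1, by simp, by simp, by simp⟩

theorem HasValue.congr {z w : K} {a b : ℂ} (hz : HasValue P s z a) (h : z = w) (h' : a = b) :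
    HasValue P s w b := by
  subst h; subst h'; exact hz

theorem HasValue.unit {z : K} {a : ℂ} (hz : HasValue P s z a) (ha : a ≠ 0) : IsUnitAt P s z :=
  ⟨a, ha, hz⟩

theorem IsUnitAt.congr {z w : K} (hz : IsUnitAt P s z) (h : z = w) : IsUnitAt P s w := h ▸ hz

theorem IsUnitAt.mul {z w : K} (hz : IsUnitAt P s z) (hw : IsUnitAt P s w) :
    IsUnitAt P s (z * w) := by
  obtain ⟨a, ha, h⟩ := hz
  obtain ⟨b, hb, h'⟩ := hw
  exact ⟨a * b, mul_ne_zero ha hb, h.mul h'⟩

theorem IsUnitAt.inv (hs : Mem P s) {z : K} (hz : IsUnitAt P s z) : IsUnitAt P s z⁻¹ := by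
  obtain ⟨a, ha, h⟩ := hz
  exact ⟨a⁻¹, inv_ne_zero ha, h.inv hs ha⟩

theorem IsUnitAt.pow {z : K} (hz : IsUnitAt P s z) (m : ℕ) : IsUnitAt P s (z ^ m) := by
  obtain ⟨a, ha, h⟩ := hz
  exact ⟨a ^ m, pow_ne_zero m ha, h.pow m⟩

theorem IsUnitAt.div (hs : Mem P s) {z w : K} (hz : IsUnitAt P s z) (hw : IsUnitAt P s w) :
    IsUnitAt P s (z / w) := by
  rw [div_eq_mul_inv]; exact hz.mul (hw.inv hs)

theorem isUnitAt_one : IsUnitAt P s (1 : K) := ⟨1, one_ne_zero, hasValue_one⟩

theorem isUnitAt_const {c : ℂ} (hc : c ≠ 0) : IsUnitAt P s (algebraMap ℂ K c) :=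
  ⟨c, hc, hasValue_const c⟩

/-! ### Coordinates of points -/

section Points

variable {F : Type} [Field F] {a b : F}

@[simp] theorem X_zero : X (0 : (crv F a b).Point) = 0 := rfl
@[simp] theorem Y_zero : Y (0 : (crv F a b).Point) = 0 := rfl
@[simp] theorem X_some {x y : F} (h : (crv F a b).Nonsingular x y) :
    X (.some x y h : (crv F a b).Point) = x := rfl
@[simp] theorem Y_some {x y : F} (h : (crv F a b).Nonsingular x y) :
    Y (.some x y h : (crv F a b).Point) = y := rfl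

theorem exists_some {p : (crv F a b).Point} (hp : p ≠ 0) :
    ∃ h : (crv F a b).Nonsingular (X p) (Y p), p = .some (X p) (Y p) h := by
  rcases p with _ | ⟨x, y, h⟩
  · exact absurd rfl hp
  · exact ⟨h, rfl⟩

theorem eqn {p : (crv F a b).Point} (hp : p ≠ 0) : Y p ^ 2 = X p ^ 3 + a * X p + b := by
  obtain ⟨h, -⟩ := exists_some hp
  have := (WeierstrassCurve.Affine.equation_iff _ _).1 h.1
  simp [crv] at this
  exact this

theorem pt_ext {p q : (crv F a b).Point} (hp : p ≠ 0) (hq : q ≠ 0) (hx : X p = X q)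
    (hy : Y p = Y q) : p = q := by
  rcases p with _ | ⟨x, y, h⟩
  · exact absurd rfl hp
  rcases q with _ | ⟨x', y', h'⟩
  · exact absurd rfl hq
  simp at hx hy
  subst hx; subst hy; rfl

theorem X_neg (p : (crv F a b).Point) : X (-p) = X p := by
  rcases p with _ | ⟨x, y, h⟩
  · rfl
  · rfl

theorem Y_neg (p : (crv F a b).Point) : Y (-p) = -Y p := by
  rcases p with _ | ⟨x, y, h⟩
  · change (0 : F) = -0
    simp
  · rw [WeierstrassCurve.Affine.Point.neg_some]
    change (crv F a b).negY x y = -y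
    simp [WeierstrassCurve.Affine.negY, crv]

end Points

end Q36.QD
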